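import Pool.Agent.Helper50.Tm.Api

/-!
The parts of the proof, as propositions.

Notation: `Pts G A` is the set (group) of `A`-valued points of the `R`-scheme `G`, `Pts.map` is the
functoriality, `sec 𝒢 x` is the section of the Neron model which extends the `M`-valued point `x`,
`gen 𝒢` is the isomorphism between the `C`-valued points of `𝒢.G` and of `X` for `M`-algebras `C`.
-/

open CategoryTheory AlgebraicGeometry Limits TensorProduct MonoidalCategory
open scoped Obj

namespace Pool.Agent.Helper50.Tm

open Pool.Agent.Helper40.Nm (specOver homGroup specialFibre)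

/-! ### Smooth group schemes over a complete discrete valuation ring -/

/-- `Extends` in terms of `sec`.

Proof. Let `a := s.map (Algebra.ofId R M) : Pts 𝒢.G M`. A `z` with `z.left ≫ pullback.fst =
Spec.map _ ≫ s.left` is `bcEquiv 𝒢.G a` (Over morphism plus `pullback.hom_ext`,
`bcEquiv_left_fst`; the second projection is determined because `z` is a morphism over `Spec M`).
The second condition says `bcEquiv_symm_left` of `z ≫ 𝒢.iso.hom` is `x.left`, that is
`gen 𝒢 a = x` (`gen_apply`). Conclude with `sec_eq_iff`. -/
def EXTS : Prop :=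
  ∀ (K R M : Type) [Field K] [CommRing R] [Field M] [Algebra K M] [Algebra R M]
    (X : Over (Spec (CommRingCat.of K))) [GrpObj X] (𝒢 : NeronModel K R M X) (x : Pts X M)
    (s : Pts 𝒢.G R), 𝒢.Extends x s ↔ sec 𝒢 x = s

/-- Every point of the special fibre has a neighbourhood in `U` whose special fibre is contained
in one connected component of the special fibre of `U`.

Proof. Choose an affine open `U'` with `x ∈ U' ⊆ U`. As `R` is noetherian and `G` is locally of
finite type, `U'` is a noetherian topological space, and so is its closed subset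
`F := U' ∩ specialFibre G`. `F` has finitely many irreducible components, all closed in `U'`. Let
`V := U'` minus the union of the irreducible components of `F` which do not contain `x`. A point
`y ∈ V ∩ specialFibre G` lies on an irreducible component of `F`, which contains `x`; it is
preconnected and contained in `U ∩ specialFibre G`. -/
def NBH : Prop :=
  ∀ (R : Type) [CommRing R] [IsLocalRing R] [IsNoetherianRing R]
    (G : Over (Spec (CommRingCat.of R))), Smooth G.hom → ∀ (U : G.left.Opens) (x : G.left),
    x ∈ U → x ∈ specialFibre G → ∃ V : G.left.Opens, x ∈ V ∧ V ≤ U ∧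
      (V : Set G.left) ∩ specialFibre G ⊆
        connectedComponentIn ((U : Set G.left) ∩ specialFibre G) x

/-- A homomorphism which is constant on the sections through a nonempty open set is constant on
the sections through a connected component.

Proof. Literally the proof of `Pool.Agent.Helper83.Nm.loc` (Pool/Agent/Helper83/Nm/Loc.lean), from
`Pool.Agent.Helper82.Nm.kpt Pool.Agent.Helper8.Nm.liftk` (KPT) and `Pool.Agent.Helper5.Nm.trans`
(TRANS); there the homomorphism is defined on the points of the generic fibre, here directly on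
the sections (so everything about `SEC` and `MULT` disappears). `Tm.cpt`, `Tm.redk`,
`Tm.SameComp` are definitionally equal to the notions of `Pool.Agent.Helper40.Nm`
(`Pts G R` is `specOver (algebraMap R R) ⟶ G` and `algebraMap R R = RingHom.id R` by `rfl`). -/
def LOC : Prop :=
  ∀ (R : Type) [CommRing R] [IsDomain R] [IsDiscreteValuationRing R]
    [IsAdicComplete (IsLocalRing.maximalIdeal R) R] [IsAlgClosed (IsLocalRing.ResidueField R)]
    (G : Over (Spec (CommRingCat.of R))) [GrpObj G], Smooth G.hom →
    ∀ (H : Type) [Group H] (Δ : Pts G R →* H) (V : G.left.Opens) (c : H),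
    ((V : Set G.left) ∩ specialFibre G).Nonempty → (∀ s : Pts G R, cpt s ∈ V → Δ s = c) →
    ∀ s s' : Pts G R, SameComp s s' → Δ s = Δ s'

/-- The connected components of the special fibre are compatible with the group law.

Proof. Literally `Pool.Agent.Helper89.Nm.compg` (Pool/Agent/Helper89/Nm/Compg.lean) with
`Pool.Agent.Helper5.Nm.trans`, which holds for every local ring `R`. -/
def COMPG : Prop :=
  ∀ (R : Type) [CommRing R] [IsLocalRing R] (G : Over (Spec (CommRingCat.of R))) [GrpObj G]
    (s s' r r' : Pts G R), SameComp s s' → SameComp r r' → SameComp (s * r) (s' * r')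

/-- Reductions: every rational point of the special fibre is the reduction of a section,
`SameComp` depends only on the reductions, and every connected component of the special fibre
contains the reduction of a section.

Proof. (1) is `Pool.Agent.Helper8.Nm.liftk`. (2): the underlying point of `redk s` is `cpt s`
(see `cpt_eq_redk` in Pool/Agent/Helper40/Nm/Core.lean). (3): `kpt` with `U = ⊤` gives a section
`s` with `cpt s` in the closure of `x`, which is irreducible and contained in the special fibre
(closed), see the proof of `Pool.Agent.Helper83.Nm.fins`. -/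
def REDS : Prop :=
  ∀ (R : Type) [CommRing R] [IsDomain R] [IsDiscreteValuationRing R]
    [IsAdicComplete (IsLocalRing.maximalIdeal R) R] [IsAlgClosed (IsLocalRing.ResidueField R)]
    (G : Over (Spec (CommRingCat.of R))), Smooth G.hom →
    (∀ r : Pts G (IsLocalRing.ResidueField R), ∃ s : Pts G R, redk s = r) ∧
    (∀ s s' : Pts G R, SameComp s s' ↔ SameCompk (redk s) (redk s')) ∧
    (∀ x ∈ specialFibre G, ∃ s : Pts G R,
      connectedComponentIn (specialFibre G) x = connectedComponentIn (specialFibre G) (cpt s))

/-- Split reduction from a subgroup of sections.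

Proof. Literally `Pool.Agent.Helper83.Nm.fins` (Pool/Agent/Helper83/Nm/Fins.lean): the subgroup is
the image of `Λ` under the homomorphism `redk` (`Pts.mapHom`). -/
def FINS : Prop :=
  ∀ (R : Type) [CommRing R] [IsDomain R] [IsDiscreteValuationRing R]
    [IsAdicComplete (IsLocalRing.maximalIdeal R) R] [IsAlgClosed (IsLocalRing.ResidueField R)]
    (G : Over (Spec (CommRingCat.of R))) [GrpObj G], Smooth G.hom →
    ∀ Λ : Subgroup (Pts G R), (∀ s : Pts G R, ∃ l ∈ Λ, SameComp s l) →
    (∀ l ∈ Λ, ∀ l' ∈ Λ, SameComp l l' → redk l = redk l') → SplitReduction G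

/-- Affine charts of a smooth scheme over a local ring.

Proof. Take an affine open neighbourhood `U` of `x`, `B := Γ(G.left, U)` with the structure of
`S`-algebra given by `S → Γ(Spec S, ⊤) → B`, smooth because `G.hom` is smooth, and
`j : Spec B ≅ U ⊆ G.left`. It is an open immersion, hence a monomorphism: this gives the last
statement (compare `.left`, `Spec.map` is injective). For a section `s` with `cpt s ∈ U` the
preimage of `U` in `Spec S` is an open set which contains the closed point, so it is everything
and `s` factors through `U` (`IsOpenImmersion.lift`), a morphism `Spec S → Spec B` over `Spec S`,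
that is `specMap ψ` (`Spec.preimage`). -/
def CHART : Prop :=
  ∀ (S : Type) [CommRing S] [IsLocalRing S] (G : Over (Spec (CommRingCat.of S))),
    Smooth G.hom → ∀ x : G.left,
    ∃ (B : Type) (_ : CommRing B) (_ : Algebra S B) (j : Pts G B), Algebra.Smooth S B ∧
      IsOpenImmersion j.left ∧ x ∈ Set.range j.left ∧
      (∀ s : Pts G S, cpt s ∈ Set.range j.left → ∃ ψ : B →ₐ[S] S, j.map ψ = s) ∧
      (∀ (A : Type) [CommRing A] [Algebra S A] (ψ ψ' : B →ₐ[S] A),
        j.map ψ = j.map ψ' → ψ = ψ')

/-! ### Divisibility -/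

/-- The `n`-th power map of a group scheme. -/
noncomputable def powMap {R : Type} [CommRing R] (G : Over (Spec (CommRingCat.of R))) [GrpObj G]
    (n : ℕ) : G ⟶ G :=
  (𝟙 G : G ⟶ G) ^ n

/-- Krull. Let `f : A → B` be a local homomorphism of local rings, `A` noetherian, `g : B → A` an
isomorphism and suppose that `g (f a) - n a ∈ 𝔪 ^ 2` for all `a` in the maximal ideal `𝔪` of `A`,
with `n` a unit. Then `f` is injective.

Proof. Let `φ = g ∘ f : A → A`. By induction `φ a - n ^ i a ∈ 𝔪 ^ (i + 1)` for `a ∈ 𝔪 ^ i`
(`𝔪 ^ i` is additively generated by products `a b`, `a ∈ 𝔪 ^ (i - 1)`, `b ∈ 𝔪`; for `i = 0` this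
says `φ a - a ∈ 𝔪` and has to be assumed: it is the hypothesis `h0`). If `φ a = 0` and `a ≠ 0`
choose `i` with `a ∈ 𝔪 ^ i`, `a ∉ 𝔪 ^ (i + 1)` (Krull intersection theorem); then
`n ^ i a ∈ 𝔪 ^ (i + 1)`, a contradiction. -/
def KRU : Prop :=
  ∀ (A B : Type) [CommRing A] [IsLocalRing A] [IsNoetherianRing A] [CommRing B]
    (f : A →+* B) (g : B ≃+* A) (n : ℕ), IsUnit (n : A) →
    (∀ a, g (f a) - a ∈ IsLocalRing.maximalIdeal A) →
    (∀ a ∈ IsLocalRing.maximalIdeal A,
      g (f a) - n * a ∈ IsLocalRing.maximalIdeal A ^ 2) →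
    Function.Injective f

/-- The group law near the unit, in terms of points. Let `k` be a field, `V` a `k`-algebra which is
`k ⊕ I` with `I ^ 2 = 0` (given by an augmentation `ε : V → k` whose kernel has square zero), and
`s : V → V'` a homomorphism etc. Statement: let `D` be a local `k`-algebra with two retractions
`p₁, p₂ : D → E` and two sections `i₁, i₂ : E → D` such that `p₁ i₁ = id`, `p₂ i₂ = id`,
`p₁ i₂ = p₂ i₁ =` the composite `E → k → E`, where `ε : E → k` is an augmentation with nilpotent
kernel, `ε p₁ = ε p₂`, and `(p₁, p₂)` is injective. Then for points `x y : Pts G E` reducing to the unit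
along `ε`, and any point `T : Pts G D` reducing to the unit along `ε ∘ p₁` with `T.map p₁ = x` and
`T.map p₂ = y`, one has `T = x.map i₁ * y.map i₂`.

Proof. Both sides have the same images under `p₁` and `p₂`: `(x.map i₁ * y.map i₂).map p₁ =
x * (y.map ε).map _ = x * 1 = x`. Both sides reduce to the unit `e` along the
augmentation `ε p₁ : D → k`, whose kernel is nilpotent, so topologically both are the constant map
with value `e` (`Spec D` has one point) and they factor through the
local ring `O` of `G` at `e`: they are given by local homomorphisms `O → D`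
(`Scheme.SpecToEquivOfLocalRing` or an affine neighbourhood of `e`), which are equal because
`(p₁, p₂) : D → E × E` is injective. -/
def EHP : Prop :=
  ∀ (k : Type) [Field k] (G : Over (Spec (CommRingCat.of k))) [GrpObj G]
    (D E : Type) [CommRing D] [Algebra k D] [CommRing E] [Algebra k E]
    (p₁ p₂ : D →ₐ[k] E) (i₁ i₂ : E →ₐ[k] D) (ε : E →ₐ[k] k),
    (∀ d, ε (p₁ d) = ε (p₂ d)) →
    (∀ d, p₁ d = 0 → p₂ d = 0 → d = 0) →
    (∀ a, p₁ (i₁ a) = a) → (∀ a, p₂ (i₂ a) = a) →
    (∀ a, p₁ (i₂ a) = algebraMap k E (ε a)) → (∀ a, p₂ (i₁ a) = algebraMap k E (ε a)) →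
    (∀ a, ε a = 0 → IsNilpotent a) →
    ∀ (x y : Pts G E) (T : Pts G D), x.map ε = 1 → y.map ε = 1 → T.map p₁ = x → T.map p₂ = y →
      T = x.map i₁ * y.map i₂

/-- The `n`-th power map acts on the cotangent space at the unit as multiplication by `n`.

Statement: for every point `x : Pts G E`, `E = k[ε]` the dual numbers (`TrivSqZeroExt k k`), which
reduces to the unit, `x ^ n` is the image of `x` under the endomorphism `ε ↦ n ε` of `E`
(more generally under `ε ↦ c ε`, `c ∈ k`, in the induction `c = n`).

Proof. Induction on `n`. `n = 0`: the endomorphism `ε ↦ 0` factors through `E → k → E`, so the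
image of `x` is `1`. Step: apply `EHP` with `D = k[ε₁, ε₂] / (ε₁, ε₂)^2`
(`TrivSqZeroExt k (k × k)`), `p₁ : ε₁ ↦ ε, ε₂ ↦ 0`, `p₂ : ε₁ ↦ 0, ε₂ ↦ ε`, `i₁ ε = ε₁`,
`i₂ ε = ε₂`, the points `x.map (ε ↦ n ε)`, `x` and `T := x.map t`, `t ε = n ε₁ + ε₂`. Then
`T = (x.map (ε ↦ n ε)).map i₁ * x.map i₂`; apply `s : D → E`, `ε₁, ε₂ ↦ ε`: `s t ε = (n + 1) ε` and
`s i₁ = s i₂ = id`, so `x.map (ε ↦ (n + 1) ε) = x.map (ε ↦ n ε) * x = x ^ n * x`. -/
def DUAL : Prop :=
  ∀ (k : Type) [Field k] (G : Over (Spec (CommRingCat.of k))) [GrpObj G] (n : ℕ)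
    (x : Pts G (TrivSqZeroExt k k)) (c : TrivSqZeroExt k k →ₐ[k] TrivSqZeroExt k k),
    (∀ a : k, c (TrivSqZeroExt.inr a) = TrivSqZeroExt.inr (n * a)) →
    x.map (TrivSqZeroExt.fstHom k k k) = 1 → x ^ n = x.map c

/-- On the local ring at the unit of a group scheme locally of finite type over a field `k` the
`n`-th power map is injective if `n ≠ 0` in `k`.

Proof. Write `e` for the unit point; `powMap G n` maps `e` to `e` (`η ≫ powMap G n = 1 ^ n`), so
its target stalk is identified with the stalk `O` at `e` by an isomorphism `g` (`eqToHom` or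
`stalkSpecializes`). `O` is noetherian (locally of finite type over a field) with residue field
`k` (the unit section gives a `k`-algebra homomorphism `O → k`). By `KRU` (`(n : O)` is a unit
because `O` is a `k`-algebra) it is enough to show
`φ a - n a ∈ 𝔪 ^ 2` for `a ∈ 𝔪`, `φ` the composite. If `φ a - n a ∉ 𝔪 ^ 2` there is a `k`-linear
form `l : 𝔪 / 𝔪 ^ 2 → k` which does not kill it, and `l` gives a local `k`-algebra homomorphism
`O → k[ε]`, `b ↦ b(e) + l (b - b(e)) ε`, that is a point `x : Pts G k[ε]` over `e`
(`Spec k[ε] → Spec O → G`) which reduces to `1`. By `DUAL`, `x ≫ powMap G n = x ^ n = x.map c` with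
`c ε = n ε`; comparing the homomorphisms `O → k[ε]` (`Spec O → G` is a monomorphism) gives
`l (φ a) = n l a`, a contradiction. (`x ≫ powMap G n = x ^ n` by `MonObj.comp_pow` or induction
from `MonObj.comp_mul`.) -/
def STK : Prop :=
  ∀ (k : Type) [Field k] (G : Over (Spec (CommRingCat.of k))) [GrpObj G],
    LocallyOfFiniteType G.hom → ∀ n : ℕ, (n : k) ≠ 0 →
    ∀ e : G.left, e = (1 : Pts G k).left (IsLocalRing.closedPoint k) →
      Function.Injective ((powMap G n).left.stalkMap e).hom

/-- A morphism of schemes locally of finite type over an algebraically closed field which is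
injective on local rings at `y` is surjective on rational points over a nonempty open set.

Proof. Choose affine opens `Z₀ = Spec A ∋ f y` and `Y₀ = Spec A' ⊆ U ∩ f⁻¹ Z₀` with `y ∈ Y₀`; `A`
and `A'` are finitely generated `k`-algebras. `A_{f y} → A'_y` is injective, so a minimal prime of
`A_{f y}` is the contraction of a prime of `A'_y`
(`Ideal.exists_comap_eq_of_mem_minimalPrimes_of_injective`): the image `I` of `Spec A' → Spec A`
contains a point `η` which corresponds to a minimal prime of `A`. `I` is constructible (Chevalley,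
`PrimeSpectrum.isConstructible_range_comap` or
`Scheme.Hom.isConstructible...`), so it contains a nonempty open subset of `Spec A`: `A` is
noetherian, the complement of the union of the irreducible components other than `closure {η}`
is an open neighbourhood `V₁` of `η` in which `η` is dense, and a constructible set containing
the generic point `η` of `V₁` contains an open neighbourhood of `η`. Let `V` be that open set and
`z` a rational point in `V`. Its point `z₀` is the image of a point of `Spec A'`; the fibre over
`z₀` is closed in `Y₀` and nonempty, so it contains a closed point of `Y₀` (Jacobson space), which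
is a rational point `w` (`pointEquivClosedPoint`). `w ≫ f` and `z` are rational points with the
same underlying point, so they agree (`ext_of_apply_closedPoint_eq`). -/
def OPN : Prop :=
  ∀ (k : Type) [Field k] [IsAlgClosed k] (Y Z : Over (Spec (CommRingCat.of k))) (f : Y ⟶ Z),
    LocallyOfFiniteType Y.hom → LocallyOfFiniteType Z.hom → ∀ (y : Y.left) (U : Y.left.Opens),
    y ∈ U → Function.Injective (f.left.stalkMap y).hom →
    ∃ V : Z.left.Opens, (V : Set Z.left).Nonempty ∧
      ∀ z : Pts Z k, z.left (IsLocalRing.closedPoint k) ∈ V →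
        ∃ w : Pts Y k, w.left (IsLocalRing.closedPoint k) ∈ U ∧ w ≫ f = z

/-- The sections through the identity component are `n`-divisible modulo the kernel of the
reduction if `n` is invertible in the residue field.

Proof. Let `k` be the residue field and `Gk := (bc R k).obj G`, a group scheme over `k` locally of
finite type; `bcEquiv` identifies `Pts G k` with `Pts Gk k` (a group isomorphism, `bcEquiv_mul`),
and `pullback.fst : Gk.left → G.left` is a closed immersion with image `specialFibre G` (base
change of `Spec k → Spec R`). By `NBH` with `U = ⊤`, `x = cpt 1` there is an open `V₀ ∋ cpt 1` with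
`V₀ ∩ specialFibre G ⊆ connectedComponentIn (specialFibre G) (cpt 1)`. Let `U₀ ⊆ Gk` be its
preimage, an open neighbourhood of the unit. `STK` and `OPN` (with `f = powMap Gk n`, `y` = the
unit point, `U = U₀`) give a nonempty open `V₁ ⊆ Gk` such that every rational point of `V₁` is
`w ^ n` with `w` in `U₀`. As `Gk → G` is a homeomorphism onto a closed subset, `V₁` is the
preimage of an open `V ⊆ G`, `V ∩ specialFibre G` is nonempty. Let `Q` be the set of the sections
`s` for which there is `t` with `SameComp 1 t` and `redk (t ^ n) = redk s`; it is a subgroup (the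
group of sections is commutative, `COMPG`), normal. If `cpt s ∈ V` then `redk s` corresponds to a
rational point of `V₁`, hence `redk s = w ^ n` with `w : Pts G k` in `V₀`; `w = redk t` (`REDS`) and
`SameComp 1 t`. So `s ∈ Q`. By `LOC` with `H = Pts G R ⧸ Q`, `Δ` the projection and `c = 1`:
`Δ s = Δ 1 = 1` for all `s` with `SameComp 1 s`. -/
def DIVL : Prop :=
  ∀ (R : Type) [CommRing R] [IsDomain R] [IsDiscreteValuationRing R]
    [IsAdicComplete (IsLocalRing.maximalIdeal R) R] [IsAlgClosed (IsLocalRing.ResidueField R)]
    (G : Over (Spec (CommRingCat.of R))) [GrpObj G], Smooth G.hom →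
    (∀ s t : Pts G R, s * t = t * s) →
    ∀ n : ℕ, (n : IsLocalRing.ResidueField R) ≠ 0 → ∀ s : Pts G R, SameComp 1 s →
      ∃ t : Pts G R, SameComp 1 t ∧ redk (t ^ n) = redk s

/-! ### Weil restriction -/

/-- `u : B → S ⊗ W` is the universal point of the Weil restriction `Spec W` of `Spec B`. -/
def IsWeil (R S B W : Type) [CommRing R] [CommRing S] [Algebra R S] [CommRing B] [Algebra S B]
    [CommRing W] [Algebra R W] (u : B →ₐ[S] S ⊗[R] W) : Prop :=
  ∀ (C : Type) [CommRing C] [Algebra R C], Function.Bijective
    (fun f : W →ₐ[R] C => (Algebra.TensorProduct.map (AlgHom.id S S) f).comp u)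

/-- The point `B → S` attached to `w : W → R`. -/
noncomputable def weilPt {R S B W : Type} [CommRing R] [CommRing S] [Algebra R S] [CommRing B]
    [Algebra S B] [CommRing W] [Algebra R W] (u : B →ₐ[S] S ⊗[R] W) (w : W →ₐ[R] R) :
    B →ₐ[S] S :=
  (Algebra.TensorProduct.rid R S S).toAlgHom.comp
    ((Algebra.TensorProduct.map (AlgHom.id S S) w).comp u)

/-- Existence of the affine Weil restriction, of finite presentation.

Proof. Let `b` be a basis of `S` over `R` indexed by the finite type `ι` and
`B = S[x_a]_{a ∈ α} / (f_1, ..., f_m)`, `α` finite. Put `P := R[y_{a,i}]` (`MvPolynomial (α × ι) R`)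
and `Q : S[x_a] → S ⊗ P`, `x_a ↦ ∑ i, b_i ⊗ y_{a,i}`. Write `Q f_l = ∑ i, b_i ⊗ g_{l,i}` (`S ⊗ P` is
free over `P` with basis `b_i ⊗ 1`) and `W := P / (g_{l,i})`. The `R`-algebra homomorphisms
`P → C` are the families `(c_{a,i})`, that is the elements `∑ i, b_i ⊗ c_{a,i}` of `S ⊗ C`, that is
the `S`-algebra homomorphisms `S[x_a] → S ⊗ C`; one factors through `W` iff the other kills all
`f_l`. (It is convenient to treat the case `B = S[x_a]` first and then quotients by a finitely
generated ideal.) -/
def WEILE : Prop :=
  ∀ (R S B : Type) [CommRing R] [CommRing S] [Algebra R S] [Module.Finite R S] [Module.Free R S]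
    [CommRing B] [Algebra S B] [Algebra.FinitePresentation S B],
    ∃ (W : Type) (_ : CommRing W) (_ : Algebra R W) (u : B →ₐ[S] S ⊗[R] W),
      Algebra.FinitePresentation R W ∧ IsWeil R S B W u

/-- The Weil restriction of a formally smooth algebra is formally smooth.

Proof. Infinitesimal lifting (`Algebra.FormallySmooth.iff_comp_surjective` or the definition in
Mathlib): for an `R`-algebra `C` and an ideal `I`, `I ^ 2 = 0`, a homomorphism `W → C / I` gives by
`IsWeil` an `S`-algebra homomorphism `B → S ⊗ (C / I)`, which lifts to `B → S ⊗ C` because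
`S ⊗ C → S ⊗ (C / I)` is surjective with kernel of square zero (generated by the image of `I`),
and this lift comes from `W → C`, which lifts the given one by the injectivity in `IsWeil`.
(If the definition of formal smoothness in Mathlib quantifies over algebras in a bigger universe
choose the criterion with algebras in `Type`.) -/
def WEILS : Prop :=
  ∀ (R S B W : Type) [CommRing R] [CommRing S] [Algebra R S] [Module.Finite R S]
    [Module.Free R S] [CommRing B] [Algebra S B] [Algebra.FormallySmooth S B]
    [CommRing W] [Algebra R W] (u : B →ₐ[S] S ⊗[R] W), IsWeil R S B W u →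
    Algebra.FormallySmooth R W

/-- Two points of a formally smooth algebra with values in `S ⊗ k` which agree modulo the nilpotent
ideal `N = ker (S ⊗ k → l)`, `k` and `l` the residue fields of `R` and `S`, are joined by a
line.

Proof. `k → l` is an isomorphism (`hres`) and the kernel `N` of `π : S ⊗ k → l`,
`s ⊗ r ↦ s r`, is nilpotent: it is generated by the image of the maximal ideal of `S`, and the
`n`-th power of that ideal is contained in `𝔪_R S`, which maps to zero. So
`Λ := S ⊗ k = k ⊕ N`. Let `P ⊆ Λ[X]` (identified with `S ⊗ k[X]`) be the subring of the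
polynomials `f` whose image in `l[X]` is constant, an `S`-algebra (constants are in `P`), and
`Q := Λ ×_l Λ`. The map `P → Q`, `f ↦ (f(0), f(1))`, is surjective (for `(a, b) ∈ Q`,
`b - a ∈ N`, take `a + (b - a) X`) and its kernel consists of polynomials with coefficients in
`N` (the constant image in `l[X]` is zero), hence is nilpotent (`N ^ n = 0`). `(β, β') : B → Q`
lifts to `B → P → S ⊗ k[X]` by formal smoothness (`Algebra.FormallySmooth.lift` for nilpotent
kernel, `liftOfSurjective`). -/
def LINE : Prop :=
  ∀ (R S B : Type) [CommRing R] [IsLocalRing R] [CommRing S] [IsLocalRing S] [Algebra R S]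
    [Module.Finite R S] [Module.Free R S] [IsLocalHom (algebraMap R S)]
    [CommRing B] [Algebra S B] [Algebra.FormallySmooth S B],
    (∀ s : S, ∃ r : R, s - algebraMap R S r ∈ IsLocalRing.maximalIdeal S) →
    (∃ n : ℕ, IsLocalRing.maximalIdeal S ^ n ≤
      (IsLocalRing.maximalIdeal R).map (algebraMap R S)) →
    ∀ (π : S ⊗[R] (IsLocalRing.ResidueField R) →ₐ[S] IsLocalRing.ResidueField S)
      (β β' : B →ₐ[S] S ⊗[R] (IsLocalRing.ResidueField R)), π.comp β = π.comp β' →
    ∃ F : B →ₐ[S] S ⊗[R] (Polynomial (IsLocalRing.ResidueField R)),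
      (Algebra.TensorProduct.map (AlgHom.id S S)
        ((Polynomial.aeval (0 : IsLocalRing.ResidueField R)).restrictScalars R)).comp F = β ∧
      (Algebra.TensorProduct.map (AlgHom.id S S)
        ((Polynomial.aeval (1 : IsLocalRing.ResidueField R)).restrictScalars R)).comp F = β'

/-- Connectedness of the special fibre of the Weil restriction.

Proof. Let `k`, `l` be the residue fields of `R`, `S` (`k → l` is an isomorphism) and
`A := l ⊗[S] B` (or `B / 𝔪_S B`), an `R`-algebra. `S ⊗[R] A → A`, `s ⊗ a ↦ s a`, is surjective with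
nilpotent kernel (`S ⊗[R] A = (S / 𝔪_R S) ⊗_k A`, the kernel is generated by the image of `𝔪_S`,
and `𝔪_S ^ n ⊆ 𝔪_R S`), so `B → A` lifts to an `S`-algebra homomorphism `c : B → S ⊗[R] A`, and
`IsWeil` gives `c' : W → A` with `(id ⊗ c') ∘ u = c`.
(1) `Spec c' : Spec A → Spec W` maps into the special fibre. The special fibre of
`SpecA S B` is the image of `Spec A → Spec B`, which is a homeomorphism onto it. The two closed
points given by `ψ := weilPt u w` and `ψ' := weilPt u w'` lie in the same connected component of
it, so the corresponding points `a, a'` of `Spec A` lie in the same connected component of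
`Spec A`, and their images `c'^*(a)`, `c'^*(a')` in the same connected component of the special
fibre of `Spec W`.
(2) The closed point of `w` and `c'^*(a)` lie in the same connected component: `a` is given by
the homomorphism `ψ₀ : A → l ≅ k` induced by `ψ`. The homomorphisms
`W → R → k` and `ψ₀ ∘ c' : W → A → k` correspond under `IsWeil` (`C = k`) to homomorphisms
`β, β' : B → S ⊗[R] k` whose composites with `S ⊗[R] k → l` both are the reduction of `ψ`. By
`LINE` they are joined by `F : B → S ⊗[R] k[X]`, that is by `F' : W → k[X]` (`IsWeil`,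
`C = k[X]`), and the image of the irreducible space `Spec k[X]` in `Spec W` is a connected subset
of the special fibre which contains both points. The same for `w'`, `a'`. -/
def CONN : Prop :=
  ∀ (R S B W : Type) [CommRing R] [IsLocalRing R] [CommRing S] [IsLocalRing S] [Algebra R S]
    [Module.Finite R S] [Module.Free R S] [IsLocalHom (algebraMap R S)]
    [CommRing B] [Algebra S B] [Algebra.Smooth S B] [CommRing W] [Algebra R W]
    (u : B →ₐ[S] S ⊗[R] W), IsWeil R S B W u →
    (∀ s : S, ∃ r : R, s - algebraMap R S r ∈ IsLocalRing.maximalIdeal S) →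
    (∃ n : ℕ, IsLocalRing.maximalIdeal S ^ n ≤
      (IsLocalRing.maximalIdeal R).map (algebraMap R S)) →
    ∀ w w' : W →ₐ[R] R,
      SameComp (G := SpecA S B) (specMap (weilPt u w)) (specMap (weilPt u w')) →
      SameComp (G := SpecA R W) (specMap w) (specMap w')

/-! ### Galois descent and the norm -/

/-- Galois descent of points.

Proof. `Spec D → Spec C` is faithfully flat (`D = N ⊗_M C` is free over `C`), so it is an
epimorphism (uniqueness), and by `AlgebraicGeometry.exists_comp_eq_of_flat_of_isAffine`
(Mathlib/AlgebraicGeometry/EffectiveEpi.lean) or `isRegularEpi_of_flat_of_surjective_of_isAffine`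
it is enough for existence that the two
pullbacks of `x.left` to `Spec (D ⊗_C D)` agree. The homomorphisms
`D ⊗_C D → D`, `a ⊗ b ↦ a (δ γ b)`, `γ ∈ Gal(N/M)`, are jointly an isomorphism onto the product
`∏_γ D` (base change from `N ⊗_M N ≅ ∏_γ N`, `a ⊗ b ↦ (a γ b)_γ`), so
`Spec (D ⊗_C D)` is the disjoint union of copies of
`Spec D` (`Spec` of a finite product; the family of these closed and open immersions is jointly
epimorphic, `Scheme.Cover` or `sigmaSpec` in Mathlib) and on the copy with index `γ` the two
pullbacks are `x.left` and `Spec (δ γ) ≫ x.left`. The resulting morphism `Spec C → X.left` is a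
morphism over `Spec K` because `Spec D → Spec C` is an epimorphism. -/
def DESC : Prop :=
  ∀ (K M N C D : Type) [Field K] [Field M] [Field N] [Algebra K M] [Algebra K N] [Algebra M N]
    [IsScalarTower K M N] [FiniteDimensional M N] [IsGalois M N]
    [CommRing C] [CommRing D] [Algebra K C] [Algebra M C] [IsScalarTower K M C]
    [Algebra K D] [Algebra M D] [Algebra N D] [Algebra C D] [IsScalarTower K C D]
    [IsScalarTower M C D] [IsScalarTower M N D] [IsScalarTower K N D]
    [Algebra.IsPushout M N C D] (X : Over (Spec (CommRingCat.of K)))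
    (δ : (N ≃ₐ[M] N) → (D →ₐ[C] D)),
    (∀ γ n, δ γ (algebraMap N D n) = algebraMap N D (γ n)) →
    ∀ x : Pts X D, (∀ γ, x.map ((δ γ).restrictScalars K) = x) →
      ∃! y : Pts X C, y.map (IsScalarTower.toAlgHom K C D) = x

/-- `y` is the trace (norm) of `x`: the sum of the conjugates of `x`. -/
def IsTr {K M N : Type} [Field K] [Field M] [Field N] [Algebra K M] [Algebra K N] [Algebra M N]
    [IsScalarTower K M N] [FiniteDimensional M N] {X : Over (Spec (CommRingCat.of K))} [GrpObj X]
    [IsCommMonObj X] (x : Pts X N) (y : Pts X M) : Prop :=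
  y.map (IsScalarTower.toAlgHom K M N) =
    ∏ γ : N ≃ₐ[M] N, x.map ((γ : N →ₐ[M] N).restrictScalars K)

/-- Existence, uniqueness and additivity of the trace.

Proof. `DESC` with `C = M`, `D = N`, `δ γ = γ` (`Algebra.IsPushout M N M N` is an instance or
follows from `N ⊗_M M ≅ N`): the product over all `γ` is invariant. -/
def TREX : Prop :=
  ∀ (K M N : Type) [Field K] [Field M] [Field N] [Algebra K M] [Algebra K N] [Algebra M N]
    [IsScalarTower K M N] [FiniteDimensional M N] [IsGalois M N]
    (X : Over (Spec (CommRingCat.of K))) [GrpObj X] [IsCommMonObj X],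
    (∀ y y' : Pts X M, y.map (IsScalarTower.toAlgHom K M N) =
      y'.map (IsScalarTower.toAlgHom K M N) → y = y') ∧
    (∀ x : Pts X N, (∀ γ : N ≃ₐ[M] N, x.map ((γ : N →ₐ[M] N).restrictScalars K) = x) →
      ∃ y : Pts X M, y.map (IsScalarTower.toAlgHom K M N) = x) ∧
    ∃ Tr : Pts X N →* Pts X M, ∀ x y, IsTr x y ↔ Tr x = y

/-- The norm map on the Weil restriction, over algebras `C = M ⊗ W` and `D = N ⊗ C` as in the
proof.

Proof. Let `a := (j.map u).map t : Pts ℋ.G D` and `z₀ := gen ℋ a : Pts X D`. For
`γ ∈ Gal(N/M)` let `δ γ : D →ₐ[C] D` be the automorphism with `δ γ (n) = γ n` on `N`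
(`Algebra.IsPushout M N C D`), a homomorphism in `γ`. `z := ∏ γ, z₀.map (δ γ)` is invariant, so
`DESC` gives `y : Pts X C` with `y.map (C → D) = z`, and `neron_affine 𝒢 (C := C) W` gives
`v : Pts 𝒢.G W` with `gen 𝒢 (v.map (W → C)) = y`. Let `w : W →ₐ[R] R`. Let
`c : C →ₐ[M] M` be the homomorphism with `c ∘ (W → C) = (R → M) ∘ w`
(`Algebra.IsPushout R M W C`) and `d : D →ₐ[N] N` the one with `d ∘ (C → D) = (M → N) ∘ c`. Then
`d ∘ δ γ = γ ∘ d` (both are `γ` on `N` and `c` on `C`), so with `gen_map`
`((sec 𝒢).symm (v.map w)).map (M → N) = (y.map c).map (M → N) = z.map d =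
∏ γ, (z₀.map d).map γ`, and `z₀.map d = gen ℋ (a.map d) = gen ℋ ((j.map (weilPt u w)).map (S → N))`
because `d ∘ t ∘ u = (S → N) ∘ weilPt u w` (on `s ⊗ w'` both `d ∘ t` and `(S → N) ∘ rid ∘ (id ⊗ w)`
are `s · w(w')`). Here `(sec 𝒢).symm s = gen 𝒢 (s.map (Algebra.ofId R M))` (`sec_eq_iff`). -/
def NORMP : Prop :=
  ∀ (K R M S N : Type) [Field K] [CommRing R] [Field M] [CommRing S] [Field N]
    [Algebra K M] [Algebra R M] [Algebra K N] [Algebra S N] [Algebra M N] [Algebra R S]
    [Algebra R N] [IsScalarTower K M N] [IsScalarTower R M N] [IsScalarTower R S N]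
    [FiniteDimensional M N] [IsGalois M N] [Module.Finite R S] [Module.Free R S]
    (X : Over (Spec (CommRingCat.of K))) [GrpObj X] [IsCommMonObj X]
    (𝒢 : NeronModel K R M X) (ℋ : NeronModel K S N X)
    (B W : Type) [CommRing B] [Algebra S B] [CommRing W] [Algebra R W] [Algebra.Smooth R W]
    (u : B →ₐ[S] S ⊗[R] W) (j : Pts ℋ.G B)
    (C D : Type) [CommRing C] [CommRing D] [Algebra R C] [Algebra M C] [Algebra K C]
    [Algebra W C] [IsScalarTower R M C] [IsScalarTower K M C] [IsScalarTower R W C]
    [Algebra.IsPushout R M W C]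
    [Algebra S D] [Algebra N D] [Algebra K D] [Algebra M D] [Algebra C D] [Algebra R D]
    [IsScalarTower S N D] [IsScalarTower K N D] [IsScalarTower K C D] [IsScalarTower M C D]
    [IsScalarTower M N D] [IsScalarTower R C D] [IsScalarTower R S D]
    [Algebra.IsPushout M N C D]
    (t : S ⊗[R] W →ₐ[S] D), (∀ w : W, t (1 ⊗ₜ w) = algebraMap C D (algebraMap W C w)) →
    ∃ v : Pts 𝒢.G W, ∀ w : W →ₐ[R] R,
      IsTr ((sec ℋ).symm (j.map (weilPt u w))) ((sec 𝒢).symm (v.map w))

/-- The norm map on the Weil restriction.

Proof. Apply `NORMP` with `C := M ⊗[R] W`, `D := N ⊗[M] C` and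
`t : S ⊗[R] W → D`, `s ⊗ w ↦ s ⊗ (1 ⊗ w)`. The structures of `K`-, `S`- and `R`-algebras have to be
chosen by hand (`RingHom.toAlgebra` of the composites `K → M → C`, `S → N → D`, and so on; to avoid
clashes with instances use type synonyms `def C' := M ⊗[R] W` with only the wanted instances). -/
def NORM : Prop :=
  ∀ (K R M S N : Type) [Field K] [CommRing R] [Field M] [CommRing S] [Field N]
    [Algebra K M] [Algebra R M] [Algebra K N] [Algebra S N] [Algebra M N] [Algebra R S]
    [Algebra R N] [IsScalarTower K M N] [IsScalarTower R M N] [IsScalarTower R S N]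
    [FiniteDimensional M N] [IsGalois M N] [Module.Finite R S] [Module.Free R S]
    (X : Over (Spec (CommRingCat.of K))) [GrpObj X] [IsCommMonObj X]
    (𝒢 : NeronModel K R M X) (ℋ : NeronModel K S N X)
    (B W : Type) [CommRing B] [Algebra S B] [CommRing W] [Algebra R W] [Algebra.Smooth R W]
    (u : B →ₐ[S] S ⊗[R] W) (j : Pts ℋ.G B),
    ∃ v : Pts 𝒢.G W, ∀ w : W →ₐ[R] R,
      IsTr ((sec ℋ).symm (j.map (weilPt u w))) ((sec 𝒢).symm (v.map w))

/-- The situation: `R ⊆ M`, `S ⊆ N` discrete valuation rings and fields, `N / M` Galois, `S / R`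
finite free, totally ramified. `C₁` and `C₂` are the two conclusions on the trace:
`TR1`: the trace maps the identity component to the identity component.

Proof. Let `e := cpt (1 : Pts ℋ.G S)` and take a chart `j : Spec B → ℋ.G` around `e` (`CHART`,
`U` its image), its Weil restriction `(W, u)` (`WEILE`, `WEILS`; `Algebra.Smooth R W`) and
`v : Pts 𝒢.G W` from `NORM`. By `NBH` there is an open `V ∋ e`, `V ⊆ U`, such that
`V ∩ specialFibre` is contained in `connectedComponentIn (U ∩ specialFibre) e`. Claim: if
`s : Pts ℋ.G S` has `cpt s ∈ V` then `SameComp 1 (sec 𝒢 (Tr ((sec ℋ).symm s)))` with `Tr` from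
`TREX`. Indeed `s = j.map ψ` and `1 = j.map ψ₁`; as `j` is an open immersion, hence an embedding
with image `U`, the closed points of `specMap ψ₁` and `specMap ψ` lie in the same connected
component of the special fibre of `SpecA S B`. Let `w, w₁ : W → R` with `weilPt u w = ψ`,
`weilPt u w₁ = ψ₁` (`IsWeil` with `C = R`). By `CONN`, `SameComp (specMap w₁) (specMap w)`
in `SpecA R W`; compose with `v` (a morphism over `Spec R` maps a connected subset of the special
fibre to such a subset): `SameComp (v.map w₁) (v.map w)`, and by `NORM` these are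
`sec 𝒢 (Tr 1) = 1` and `sec 𝒢 (Tr ((sec ℋ).symm s))`. Finally let `P0` be the (normal) subgroup
of the `y : Pts X M` with `SameComp 1 (sec 𝒢 y)` (`COMPG`) and apply `LOC` to
`Δ : Pts ℋ.G S → Pts X M ⧸ P0`, `s ↦ Tr ((sec ℋ).symm s)`, `V` and `c = 1`. -/
def TR1 : Prop :=
  ∀ (K R M S N : Type) [Field K] [CommRing R] [IsDomain R] [IsDiscreteValuationRing R]
    [IsAdicComplete (IsLocalRing.maximalIdeal R) R] [IsAlgClosed (IsLocalRing.ResidueField R)]
    [Field M] [CommRing S] [IsDomain S] [IsDiscreteValuationRing S]
    [IsAdicComplete (IsLocalRing.maximalIdeal S) S] [IsAlgClosed (IsLocalRing.ResidueField S)]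
    [Field N] [Algebra K M] [Algebra R M] [Algebra K N] [Algebra S N]
    [Algebra M N] [Algebra R S]
    [Algebra R N] [IsScalarTower K M N] [IsScalarTower R M N] [IsScalarTower R S N]
    [FiniteDimensional M N] [IsGalois M N] [Module.Finite R S] [Module.Free R S]
    [IsLocalHom (algebraMap R S)]
    (X : Over (Spec (CommRingCat.of K))) [GrpObj X] [IsCommMonObj X]
    (𝒢 : NeronModel K R M X) (ℋ : NeronModel K S N X),
    (∀ s : S, ∃ r : R, s - algebraMap R S r ∈ IsLocalRing.maximalIdeal S) →
    (∃ n : ℕ, IsLocalRing.maximalIdeal S ^ n ≤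
      (IsLocalRing.maximalIdeal R).map (algebraMap R S)) →
    ∀ (x : Pts X N) (y : Pts X M), IsTr x y → SameComp 1 (sec ℋ x) → SameComp 1 (sec 𝒢 y)

/-- The trace maps the points which are trivial modulo `𝔪_R S` to the kernel of the reduction.

Proof. Let `I := 𝔪_R S`, `s := sec ℋ x`, `e := cpt (1 : Pts ℋ.G S)`. `cpt s = e` because the closed
point of `Spec S` factors through `Spec (S / I)` (`I` is contained in the maximal ideal of `S`).
Take `j`, `(W, u)`, `v` as in `TR1`: `s = j.map ψ`, `1 = j.map ψ₁`. As `s` and `1` agree on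
`Spec (S / I)`, the last part of `CHART` gives `ψ = ψ₁` modulo `I`. Let `w, w₁ : W → R` correspond
to `ψ, ψ₁`. Under `S ⊗ (R / 𝔪_R) ≅ S / I` (injectivity of `IsWeil` with
`C` the residue field of `R`, `S ⊗ C` being `S / I`; only the injectivity of
`S ⊗[R] (R / 𝔪_R) → S / I` is needed, `Algebra.TensorProduct.quotIdealMapEquivTensorQuot` or so)
the composites `W → R → R / 𝔪_R` of `w` and `w₁` agree. So `redk (v.map w) = redk (v.map w₁)`, and
by `NORM` and `TREX` `v.map w = sec 𝒢 y` and `v.map w₁ = sec 𝒢 1 = 1`. -/
def TR2 : Prop :=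
  ∀ (K R M S N : Type) [Field K] [CommRing R] [IsLocalRing R] [Field M] [CommRing S]
    [IsLocalRing S] [Field N] [Algebra K M] [Algebra R M] [Algebra K N] [Algebra S N]
    [Algebra M N] [Algebra R S]
    [Algebra R N] [IsScalarTower K M N] [IsScalarTower R M N] [IsScalarTower R S N]
    [FiniteDimensional M N] [IsGalois M N] [Module.Finite R S] [Module.Free R S]
    [IsLocalHom (algebraMap R S)]
    (X : Over (Spec (CommRingCat.of K))) [GrpObj X] [IsCommMonObj X]
    (𝒢 : NeronModel K R M X) (ℋ : NeronModel K S N X) (x : Pts X N) (y : Pts X M), IsTr x y →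
      (sec ℋ x).map (Ideal.Quotient.mkₐ S
        ((IsLocalRing.maximalIdeal R).map (algebraMap R S))) = 1 → redk (sec 𝒢 y) = 1

/-! ### Functoriality of the Neron model -/

/-- The Galois action on the points of the Neron model preserves the kernel of the reduction.

Proof. Let `t := Spec τ : Spec S → Spec S`, an isomorphism. Put
`Y := Over.mk (ℋ.G.hom ≫ inv t)` (or with `Spec` of `τ.symm`), a smooth `S`-scheme; sections of `Y`
are morphisms `t ≫ s.left`, `s` a section of `ℋ.G` (choose the direction so that this is right: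
`(t ≫ s.left) ≫ ℋ.G.hom ≫ inv t = 𝟙`). Its generic fibre is isomorphic to
`(bc K N).obj X` twisted by `σ`, and as `X` is defined over `K` this is `(bc K N).obj X` again:
the morphism `Y ×_S N → X` over `Spec K` is `(Y ×_S N → ℋ.G ×_S N → X)`. By
`ℋ.neron` there is `v : Y ⟶ ℋ.G` which induces it. For
`x : Pts X N` the section `t ≫ (sec ℋ x).left` of `Y` followed by `v` is `sec ℋ (x.map σ)` (compare
generic fibres: the `N`-valued point is `Spec σ ≫ x.left`). If `redk (sec ℋ x) = 1` then
`sec ℋ x` and `1 = sec ℋ 1` agree on the closed point `Spec k → Spec S`; `t` maps `Spec k` to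
`Spec k`, so `sec ℋ (x.map σ)` and `sec ℋ (1.map σ) = 1` agree on it as well. -/
def GAL : Prop :=
  ∀ (K S N : Type) [Field K] [CommRing S] [IsLocalRing S] [Field N] [Algebra K N]
    [Algebra S N] (X : Over (Spec (CommRingCat.of K))) [GrpObj X] (ℋ : NeronModel K S N X)
    (σ : N ≃ₐ[K] N) (τ : S ≃+* S), (∀ s, algebraMap S N (τ s) = σ (algebraMap S N s)) →
    ∀ x : Pts X N, redk (sec ℋ x) = 1 →
      redk (sec ℋ (x.map (σ : N →ₐ[K] N))) = 1

/-- Base change.

Proof. `T := (bc R S).obj 𝒢.G` is smooth over `S`. `(bc S N).obj T`,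
`(bc R N).obj 𝒢.G`, `(bc M N).obj ((bc R M).obj 𝒢.G)`, `(bc M N).obj ((bc K M).obj X)` and
`(bc K N).obj X` are isomorphic (transitivity of base change and `𝒢.iso`); in terms of morphisms to
`X.left`: `T ×_S N → 𝒢.G ×_R M → X` (the first map is induced by `T → 𝒢.G` and `N ← M`, the
second is `𝒢.iso.hom` followed by the projection). By `ℋ.neron T` there is `b : T ⟶ ℋ.G` which
induces it. For `x : Pts X M` both sides are sections of `ℋ.G` and it is enough to compare the
`N`-valued points of `X` (`sec_eq_iff`, `gen_apply`, `bcEquiv_eq`, `bcEquiv_map`). -/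
def BASE : Prop :=
  ∀ (K R M S N : Type) [Field K] [CommRing R] [Field M] [CommRing S] [Field N]
    [Algebra K M] [Algebra R M] [Algebra K N] [Algebra S N] [Algebra M N] [Algebra R S]
    [Algebra R N] [IsScalarTower K M N] [IsScalarTower R M N] [IsScalarTower R S N]
    (X : Over (Spec (CommRingCat.of K))) [GrpObj X]
    (𝒢 : NeronModel K R M X) (ℋ : NeronModel K S N X),
    ∃ b : (bc R S).obj 𝒢.G ⟶ ℋ.G, ∀ x : Pts X M,
      bcEquiv (M := S) 𝒢.G ((sec 𝒢 x).map (Algebra.ofId R S)) ≫ b =
        sec ℋ (x.map (IsScalarTower.toAlgHom K M N))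

/-- Base change and reduction.

Proof. Let `I := 𝔪_R S`, `A := S ⧸ I` as an `S`- and an `R`-algebra, `b` from `BASE`. By
`bcEquiv_map`, `(sec ℋ (x.map _)).map (S → A) = bcEquiv 𝒢.G ((sec 𝒢 x).map (R → S → A)) ≫ b`, and
`R → A` factors through the residue field `k` of `R`:
`(sec 𝒢 x).map (R → A) = (redk (sec 𝒢 x)).map (k → A) = 1`. The same for `x = 1` gives
`bcEquiv 𝒢.G 1 ≫ b = (sec ℋ 1).map _ = 1`. -/
def BASER : Prop :=
  ∀ (K R M S N : Type) [Field K] [CommRing R] [IsLocalRing R] [Field M] [CommRing S] [Field N]
    [Algebra K M] [Algebra R M] [Algebra K N] [Algebra S N] [Algebra M N] [Algebra R S]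
    [Algebra R N] [IsScalarTower K M N] [IsScalarTower R M N] [IsScalarTower R S N]
    (X : Over (Spec (CommRingCat.of K))) [GrpObj X]
    (𝒢 : NeronModel K R M X) (ℋ : NeronModel K S N X) (x : Pts X M),
    redk (sec 𝒢 x) = 1 →
      (sec ℋ (x.map (IsScalarTower.toAlgHom K M N))).map (Ideal.Quotient.mkₐ S
        ((IsLocalRing.maximalIdeal R).map (algebraMap R S))) = 1

/-- Base change and connected components.

Proof. Let `b : T := (bc R S).obj 𝒢.G ⟶ ℋ.G` be as in `BASE` and `p : T.left → 𝒢.G.left` the
projection. The residue fields `k → l` of `R` and `S` are isomorphic, so `p` induces a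
homeomorphism from the special fibre of `T` onto the special fibre of `𝒢.G`: both are the image of
the closed immersions `T ×_S l → T`, `𝒢.G ×_R k → 𝒢.G`, and `T ×_S l = 𝒢.G ×_R l ≅ 𝒢.G ×_R k`. The
connected component of `cpt 1` in the special fibre of `𝒢.G` is the image of a connected
subset of the special fibre of `T`, whose image under `b` is a connected subset of the special
fibre of `ℋ.G`. It contains the closed points of `sec ℋ 1 = 1` and
`sec ℋ (x.map _)` (the section `bcEquiv 𝒢.G (_)` of `T` maps the closed point to a point of the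
special fibre of `T` over `cpt 1`, respectively `cpt (sec 𝒢 x)`). -/
def BASEC : Prop :=
  ∀ (K R M S N : Type) [Field K] [CommRing R] [IsLocalRing R] [Field M] [CommRing S]
    [IsLocalRing S] [Field N]
    [Algebra K M] [Algebra R M] [Algebra K N] [Algebra S N] [Algebra M N] [Algebra R S]
    [Algebra R N] [IsScalarTower K M N] [IsScalarTower R M N] [IsScalarTower R S N]
    [IsLocalHom (algebraMap R S)]
    (X : Over (Spec (CommRingCat.of K))) [GrpObj X]
    (𝒢 : NeronModel K R M X) (ℋ : NeronModel K S N X),
    (∀ s : S, ∃ r : R, s - algebraMap R S r ∈ IsLocalRing.maximalIdeal S) →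
    ∀ x : Pts X M, SameComp 1 (sec 𝒢 x) →
      SameComp 1 (sec ℋ (x.map (IsScalarTower.toAlgHom K M N)))

end Pool.Agent.Helper50.Tm
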