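import Pool.Agent.Helper50.Tm.Goals
import Pool.Agent.Helper40.Nm.Goals

/-!
Second part: wild extensions and kernels of reduction of multiplicative type. The parts of the
proof, as propositions.
-/

open CategoryTheory AlgebraicGeometry Limits TensorProduct MonoidalCategory
open scoped Obj

namespace Pool.Agent.Helper50.Tm

open Pool.Agent.Helper40.Nm (specOver homGroup specialFibre Lat EqHom NT tr)

/-! ### Geometry -/

/-- `CHART` with a chart inside a given open set.

Proof. As `CHART` (packet TM-CHART, Pool/Agent/Helper45/Tm/CHART.lean): take an affine open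
neighbourhood `U ≤ V` of `x`. -/
def CHARTV : Prop :=
  ∀ (S : Type) [CommRing S] [IsLocalRing S] (G : Over (Spec (CommRingCat.of S))),
    Smooth G.hom → ∀ (V : G.left.Opens) (x : G.left), x ∈ V →
    ∃ (B : Type) (_ : CommRing B) (_ : Algebra S B) (j : Pts G B), Algebra.Smooth S B ∧
      IsOpenImmersion j.left ∧ x ∈ Set.range j.left ∧ Set.range j.left ⊆ V ∧
      (∀ s : Pts G S, cpt s ∈ Set.range j.left → ∃ ψ : B →ₐ[S] S, j.map ψ = s) ∧
      (∀ (A : Type) [CommRing A] [Algebra S A] (ψ ψ' : B →ₐ[S] A),
        j.map ψ = j.map ψ' → ψ = ψ')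

/-- The connected components of the special fibre are irreducible: two open sets which contain
closed points of the same component have a section in common, which lies in that component.

Proof. Let `F := specialFibre G`, a locally noetherian space, closed in `G.left`. Let `D` be the
set of the points of `F` which lie on two different irreducible components of `F`. `D` is closed
(locally there are finitely many components) and its complement in `F` is nonempty and open (an
irreducible component has a nonempty open subset which meets no other one, locally). Translations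
by sections (`Pool.Agent.Helper5.Nm.trans`) are homeomorphisms which preserve `F`, hence preserve
`D`, and they act transitively on the closed points `cpt s` of sections. By
`Pool.Agent.Helper82.Nm.kpt Pool.Agent.Helper8.Nm.liftk` there is a section `s` with `cpt s ∉ D`,
so `cpt s ∉ D` for all sections. If `x ∈ D`, then `kpt` gives a section `s` with
`cpt s ∈ closure {x} ⊆ D`, a contradiction. So `D` is empty, the irreducible components of `F` are
disjoint and (local finiteness) open in `F`, so they are the connected components. If `V, V'` are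
open and meet the same (irreducible) component `Z`, then `V ∩ V' ∩ Z` is nonempty and open in `F`;
by `kpt` it contains some `cpt t`. Write `V ∩ V' ∩ Z = V'' ∩ F` with `V''` open in `G.left`. -/
def DENS : Prop :=
  ∀ (R : Type) [CommRing R] [IsDomain R] [IsDiscreteValuationRing R]
    [IsAdicComplete (IsLocalRing.maximalIdeal R) R] [IsAlgClosed (IsLocalRing.ResidueField R)]
    (G : Over (Spec (CommRingCat.of R))) [GrpObj G], Smooth G.hom →
    ∀ (V V' : G.left.Opens) (s s' : Pts G R), cpt s ∈ V → cpt s' ∈ V' → SameComp s s' →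
      ∃ t : Pts G R, cpt t ∈ V ∧ cpt t ∈ V' ∧ SameComp s t

/-- If finitely many algebraic families of sections exhaust the identity component modulo the
kernel of the reduction, one of them contains all sections through a nonempty open set.

Proof. Let `k` be the residue field, `Gk := (bc R k).obj G` (locally of finite type over `k`;
`pullback.fst : Gk.left → G.left` is a closed immersion with image `specialFibre G`,
`Pool.Agent.Helper9.Tm.range_fst`, `isClosedImmersion_fst`), `Ak := k ⊗[R] A` (a finitely
generated `k`-algebra) and `T_i ⊆ Gk` the image of the morphism `Spec Ak → Gk` given by `v i`;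
it is constructible, at least inside each quasi-compact open set (Chevalley). By `NBH` (or the
proof of it) the unit point has an affine open neighbourhood `V₀` in `Gk` contained in the identity
component. Let `z` be a closed point of `V₀`, that is a rational point of `Gk` (`pointEquivClosedPoint`;
`V₀` open in a Jacobson space), it is `redk s` for a section `s` (`REDS`) with `SameComp 1 s`,
so `z = redk ((v i).map w)` lies in `T_i` for some `i`. So the constructible set
`V₀ ∩ ⋃ T_i` contains all closed points of `V₀`, hence equals `V₀`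
(Jacobson, `V₀` minus the union is constructible, a nonempty constructible set contains a closed
point). Let `η` be the generic point of an irreducible component of `V₀`; it lies in some `T_i`,
and `V₀ ∩ T_i` contains a nonempty open subset `V₁` of `V₀` (see the proof of `OPN`,
packet TM-OPN). `V₁` is the preimage of an open `V ⊆ G.left`. For a section `s` with
`cpt s ∈ V` the rational point `redk s` of `V₁` is the image of a closed point of `Spec Ak`, that
is of a homomorphism `A → k` over `R` (see `OPN`), which lifts to `w : A →ₐ[R] R` because `A` is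
smooth over the complete local ring `R` (`Pool.Agent.Helper8.Nm.liftk` for `SpecA R A`). So
`redk s = redk ((v i).map w)` (rational points with the same underlying point are equal). -/
def CST : Prop :=
  ∀ (R : Type) [CommRing R] [IsDomain R] [IsDiscreteValuationRing R]
    [IsAdicComplete (IsLocalRing.maximalIdeal R) R] [IsAlgClosed (IsLocalRing.ResidueField R)]
    (G : Over (Spec (CommRingCat.of R))) [GrpObj G], Smooth G.hom →
    ∀ (A : Type) [CommRing A] [Algebra R A] [Algebra.Smooth R A] (ι : Type) [Finite ι]
      (v : ι → Pts G A),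
    (∀ s : Pts G R, SameComp 1 s → ∃ (i : ι) (w : A →ₐ[R] R), redk s = redk ((v i).map w)) →
    ∃ V : G.left.Opens, ((V : Set G.left) ∩ specialFibre G).Nonempty ∧
      ∃ i : ι, ∀ s : Pts G R, cpt s ∈ V → ∃ w : A →ₐ[R] R, redk s = redk ((v i).map w)

/-- If the traces of the points of the identity component have finite index in the points of the
identity component, modulo the kernel of the reduction, then they are everything.

Proof. Let `Tr` be the trace (`TREX`), `P0M`, `P0N` the subgroups of points of the identity
components (`COMPG`), `e := cpt (1 : Pts ℋ.G S)`. By `NBH` and `CHARTV` there is a chart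
`j : Spec B → ℋ.G` around `e` whose special fibre is contained in the identity component; let
`(W, u)` be the Weil restriction (`WEILE`, `WEILS`, so `Algebra.Smooth R W`) and `v : Pts 𝒢.G W`
from `NORM`. Then the points `Tr t`, `t : Pts X N` with `cpt (sec ℋ t)` in the image of `j`,
are exactly the points `(sec 𝒢).symm (v.map w)`, `w : W →ₐ[R] R` (`IsWeil` with `C = R`), and such
`t` are in `P0N`. By `DENS` every `x ∈ P0N` is a product `t t'` of two such points: the open sets
`U = range j` and `s U⁻¹` (`s = sec ℋ x`; image of `U` under the homeomorphism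
`r ↦ s r⁻¹`, a composite of the inversion and a translation; or use `r ↦ s * r` and the inverse
image under `GrpObj` inversion) contain `1` resp. `s`, which are in the same
component; take `t` in both. Put `A := W ⊗[R] W` (smooth over `R`) and
`v₂ := v.map includeLeft * v.map includeRight : Pts 𝒢.G A`, so
`v₂.map (lift w w') = v.map w * v.map w'`. By the hypothesis `hF` every
`y ∈ P0M` satisfies `redk (sec y) = redk (sec c * v₂.map w)` for some `c ∈ F` and
`w : A →ₐ[R] R`: apply `CST` to the points `(sec c).map (Algebra.ofId R A) * v₂` of `𝒢.G` with values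
in `A` (`ι` the finite set `F`). We get an open set `V` and `c` such that
`redk s = redk (sec c * v₂.map w)` for some `w` whenever `cpt s ∈ V`. Let `Q` be the subgroup
of the `y : Pts X M` with `redk (sec y) = redk (sec (Tr x))` for some `x ∈ P0N`, a (normal)
subgroup containing the kernel of the reduction, and
`Δ : Pts 𝒢.G R → Pts X M ⧸ Q`. `Δ` is constant (equal to the class of `c`) on the sections through
`V`, so `LOC` shows `Δ s = Δ 1 = 1` for `SameComp 1 s`. -/
def FTR : Prop :=
  ∀ (K R M S N : Type) [Field K] [CommRing R] [IsDomain R] [IsDiscreteValuationRing R]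
    [IsAdicComplete (IsLocalRing.maximalIdeal R) R] [IsAlgClosed (IsLocalRing.ResidueField R)]
    [Field M] [CommRing S] [IsDomain S] [IsDiscreteValuationRing S]
    [IsAdicComplete (IsLocalRing.maximalIdeal S) S] [IsAlgClosed (IsLocalRing.ResidueField S)]
    [Field N] [Algebra K M] [Algebra R M] [Algebra K N] [Algebra S N]
    [Algebra M N] [Algebra R S]
    [Algebra R N] [IsScalarTower K M N] [IsScalarTower R M N] [IsScalarTower R S N]
    [FiniteDimensional M N] [IsGalois M N] [Module.Finite R S] [Module.Free R S]
    [IsLocalHom (algebraMap R S)]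
    (X : Over (Spec (CommRingCat.of K))) [GrpObj X] [IsCommMonObj X]
    (𝒢 : NeronModel K R M X) (ℋ : NeronModel K S N X) (Tr : Pts X N →* Pts X M),
    (∀ x, IsTr x (Tr x)) →
    ∀ F : Finset (Pts X M), (∀ y : Pts X M, SameComp 1 (sec 𝒢 y) →
      ∃ c ∈ F, ∃ x : Pts X N, SameComp 1 (sec ℋ x) ∧
        redk (sec 𝒢 y) = redk (sec 𝒢 (c * Tr x))) →
    ∀ y : Pts X M, SameComp 1 (sec 𝒢 y) →
      ∃ x : Pts X N, SameComp 1 (sec ℋ x) ∧ redk (sec 𝒢 y) = redk (sec 𝒢 (Tr x))

/-- The Galois action on the points of the Neron model preserves the identity component.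

Proof. As `GAL` (packet TM-GAL, Pool/Agent/Helper48/Tm/GAL.lean): the morphism `v : Y ⟶ ℋ.G`
constructed there is a morphism `ℋ.G.left → ℋ.G.left` which maps the special fibre to the
special fibre (`t = Spec τ` fixes the closed point of `Spec S`), the point `cpt 1` to `cpt 1` (the
sections `1` correspond) and `cpt (sec ℋ x)` to `cpt (sec ℋ (x.map σ))`, and the image of a
connected set is connected. -/
def GALC : Prop :=
  ∀ (K S N : Type) [Field K] [CommRing S] [IsLocalRing S] [Field N] [Algebra K N]
    [Algebra S N] (X : Over (Spec (CommRingCat.of K))) [GrpObj X] (ℋ : NeronModel K S N X)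
    (σ : N ≃ₐ[K] N) (τ : S ≃+* S), (∀ s, algebraMap S N (τ s) = σ (algebraMap S N s)) →
    ∀ x : Pts X N, SameComp 1 (sec ℋ x) → SameComp 1 (sec ℋ (x.map (σ : N →ₐ[K] N)))

/-! ### Arithmetic -/

/-- `u` is a unit of the valuation ring `S`. -/
def IsU (S : Type) {E : Type} [CommRing S] [Field E] [Algebra S E] (u : Eˣ) : Prop :=
  ∃ s : Sˣ, (u : E) = algebraMap S E s

/-- `u` is a one-unit of the valuation ring `S`. -/
def IsU1 (S : Type) {E : Type} [CommRing S] [IsLocalRing S] [Field E] [Algebra S E] (u : Eˣ) :
    Prop :=
  ∃ s : S, s - 1 ∈ IsLocalRing.maximalIdeal S ∧ (u : E) = algebraMap S E s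

/-- Units can be replaced by one-units.

Proof. Let `k` be the residue field of `S`, `P` the Galois group, `|P| = p ^ a =: q` (`p` the
characteristic exponent of `k`). The reduction `ū : ℤ^g → kˣ` of `u` satisfies
`∏ γ, ū (act γ⁻¹ x) = 1` because `NT act u` is one-unit valued and `γ` acts trivially on `k`
(`R → k` is surjective by `EXT`, and `γ` fixes `R`). `kˣ` is uniquely `q`-divisible (`k` is
algebraically closed of characteristic exponent `p`), so there is `v̄ : ℤ^g → kˣ` with `v̄ ^ q = ū`
and `∏ γ, v̄ (act γ⁻¹ x) = 1` (its `q`-th power is `1`). Hence `ū = ∏ γ, v̄ / (v̄ ∘ act γ⁻¹)`. Lift `v̄`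
to `v : ℤ^g → Sˣ` (on a basis; `S` local) and put `u' := u * ∏ γ, (tr act γ v) / v`. It is one-unit
valued and `NT act (tr act γ v) = NT act v` (reindexing), so `NT act u' = NT act u`. -/
def ADJ : Prop :=
  ∀ (R M S E : Type) [CommRing R] [IsDomain R] [IsDiscreteValuationRing R]
    [IsAdicComplete (IsLocalRing.maximalIdeal R) R] [IsAlgClosed (IsLocalRing.ResidueField R)]
    [Field M] [Algebra R M] [IsFractionRing R M] [Field E] [Algebra M E] [Algebra R E]
    [IsScalarTower R M E] [FiniteDimensional M E] [IsGalois M E]
    [CommRing S] [IsDomain S] [IsDiscreteValuationRing S] [Algebra R S] [Algebra S E]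
    [IsScalarTower R S E] [IsIntegralClosure S R E] (g : ℕ)
    (act : (E ≃ₐ[M] E) →* AddMonoid.End (Lat g)) (a : ℕ),
    Module.finrank M E = ringExpChar (IsLocalRing.ResidueField R) ^ a →
    ∀ u : Multiplicative (Lat g) →* Eˣ, (∀ x, IsU S (u x)) → (∀ x, IsU1 S (NT act u x)) →
    ∃ u' : Multiplicative (Lat g) →* Eˣ, (∀ x, IsU1 S (u' x)) ∧ NT act u' = NT act u

/-- An automorphism `h` which commutes with the Galois group acts trivially on one-unit valued
equivariant homomorphisms modulo norms.

Proof. `ψ = NT act F` with `F : ℤ^g → Eˣ` by `Pool.Agent.Helper40.Nm.SURJ` (proved: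
`Pool.Agent.Helper32.Nm.surj`, see Pool/Agent/Helper40/Nm/All.lean). Let
`u x := h (F x) / F x`, unit valued by the hypothesis on `h`. As `h` commutes with the Galois
group, `NT act u = (h ∘ ψ) / ψ`, which is one-unit valued because `h` preserves one-units. Apply
`ADJ`. -/
def ARI1 : Prop :=
  ∀ (R M S E : Type) [CommRing R] [IsDomain R] [IsDiscreteValuationRing R]
    [IsAdicComplete (IsLocalRing.maximalIdeal R) R] [IsAlgClosed (IsLocalRing.ResidueField R)]
    [Field M] [Algebra R M] [IsFractionRing R M] [Field E] [Algebra M E] [Algebra R E]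
    [IsScalarTower R M E] [FiniteDimensional M E] [IsGalois M E]
    [CommRing S] [IsDomain S] [IsDiscreteValuationRing S] [Algebra R S] [Algebra S E]
    [IsScalarTower R S E] [IsIntegralClosure S R E] (g : ℕ)
    (act : (E ≃ₐ[M] E) →* AddMonoid.End (Lat g)) (a : ℕ),
    Module.finrank M E = ringExpChar (IsLocalRing.ResidueField R) ^ a →
    ∀ (h : E ≃+* E) (τ : S ≃+* S), (∀ s, h (algebraMap S E s) = algebraMap S E (τ s)) →
    (∀ (γ : E ≃ₐ[M] E) (e : E), h (γ e) = γ (h e)) →
    ∀ ψ ∈ EqHom act Eˣ, (∀ x, IsU1 S (ψ x)) →
    ∃ f : Multiplicative (Lat g) →* Eˣ, (∀ x, IsU1 S (f x)) ∧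
      ∀ x, Units.map (h : E →* E) (ψ x) = ψ x * NT act f x

/-- The norms have finite index in the one-unit valued equivariant homomorphisms.

Proof. Let `A` be the group of the one-unit valued elements of `EqHom act Eˣ` and `B` the subgroup
of the `NT act f`, `f` one-unit valued. Every `ψ ∈ A` is `NT act F` (`SURJ`). If `ψ = NT act F` and
`ψ' = NT act F'` with `F' / F` unit valued, then `ψ' / ψ = NT act (F' / F) ∈ B` by `ADJ`. So
`ψ mod B` depends only on the class of `F` in `Hom(ℤ^g, Eˣ / Sˣ) = Hom(ℤ^g, ℤ)`: `A / B` is a
quotient of a subgroup of `Hom(ℤ^g, ℤ)`, hence finitely generated, and it is killed by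
`|Gal(E/M)|` (`NT act ψ = ψ ^ |Gal(E/M)|` for `ψ ∈ EqHom act Eˣ`: the translates of `ψ` are
`ψ`). So it is finite. -/
def ARI2 : Prop :=
  ∀ (R M S E : Type) [CommRing R] [IsDomain R] [IsDiscreteValuationRing R]
    [IsAdicComplete (IsLocalRing.maximalIdeal R) R] [IsAlgClosed (IsLocalRing.ResidueField R)]
    [Field M] [Algebra R M] [IsFractionRing R M] [Field E] [Algebra M E] [Algebra R E]
    [IsScalarTower R M E] [FiniteDimensional M E] [IsGalois M E]
    [CommRing S] [IsDomain S] [IsDiscreteValuationRing S] [Algebra R S] [Algebra S E]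
    [IsScalarTower R S E] [IsIntegralClosure S R E] (g : ℕ)
    (act : (E ≃ₐ[M] E) →* AddMonoid.End (Lat g)) (a : ℕ),
    Module.finrank M E = ringExpChar (IsLocalRing.ResidueField R) ^ a →
    ∃ F : Finset (Multiplicative (Lat g) →* Eˣ),
      (∀ c ∈ F, c ∈ EqHom act Eˣ ∧ ∀ x, IsU1 S (c x)) ∧
      ∀ ψ ∈ EqHom act Eˣ, (∀ x, IsU1 S (ψ x)) →
        ∃ c ∈ F, ∃ f : Multiplicative (Lat g) →* Eˣ, (∀ x, IsU1 S (f x)) ∧ ψ = c * NT act f

/-! ### Group theory -/

/-- Norms have finite index in the invariants of a divisible module with finite torsion.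

Proof. Let `n := |G|`. For an invariant `b` choose `b'` with `n b' = b`; `γ ↦ γ b' - b'` is a map
from `G` to the finite set `A[n]`. There are finitely many such maps; choose one invariant `c` for
each map which occurs (for some choice of `b'`, `c'`). If `b` and `c` give the same map then
`b' - c'` is invariant and `b - c = n (b' - c') = ∑ γ, γ (b' - c')`. -/
def FONE : Prop :=
  ∀ (G A : Type) [Group G] [Fintype G] [AddCommGroup A] [DistribMulAction G A],
    (∀ a : A, ∃ b : A, Fintype.card G • b = a) → {a : A | Fintype.card G • a = 0}.Finite →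
    ∃ F : Finset A, ∀ b : A, (∀ γ : G, γ • b = b) → ∃ c ∈ F, ∃ a : A, b = c + ∑ γ : G, γ • a

/-- Extensions.

Proof. `w mod A₁` is invariant in `A₀ / A₁`, so `w = c + ∑ γ, γ y + r` with `c` in a finite set
(depending on `F` of the hypothesis `h0`), `y ∈ A₀`, `r ∈ A₁`. For each `c` which occurs choose
one such invariant `w_c`. Then `w - w_c - ∑ γ, γ (y - y_c)` is an invariant element of `A₁`; apply
`h1`. The finite set is that of the `w_c + d`, `d ∈ F₁`. -/
def FEXT : Prop :=
  ∀ (G A : Type) [Group G] [Fintype G] [AddCommGroup A] [DistribMulAction G A]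
    (A₀ A₁ : AddSubgroup A), A₁ ≤ A₀ → (∀ (γ : G), ∀ a ∈ A₀, γ • a ∈ A₀) →
    (∀ (γ : G), ∀ a ∈ A₁, γ • a ∈ A₁) →
    (∃ F : Finset A, ∀ w ∈ A₀, (∀ γ : G, γ • w - w ∈ A₁) →
      ∃ c ∈ F, ∃ y ∈ A₀, w - c - ∑ γ : G, γ • y ∈ A₁) →
    (∃ F : Finset A, ∀ w ∈ A₁, (∀ γ : G, γ • w = w) →
      ∃ c ∈ F, ∃ y ∈ A₁, w = c + ∑ γ : G, γ • y) →
    ∃ F : Finset A, (∀ c ∈ F, ∀ γ : G, γ • c = c) ∧ ∀ w ∈ A₀, (∀ γ : G, γ • w = w) →
      ∃ c ∈ F, ∃ y ∈ A₀, w = c + ∑ γ : G, γ • y

end Pool.Agent.Helper50.Tm
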