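import Pool.Agent.Helper50.Tm.Goals

/-!
Galois descent of points.
-/

open CategoryTheory AlgebraicGeometry Limits TensorProduct

namespace Pool.Agent.Helper50.Tm

section alg

variable {M N C D : Type} [Field M] [Field N] [Algebra M N] [FiniteDimensional M N] [IsGalois M N]
  [CommRing C] [CommRing D] [Algebra M C] [Algebra M D] [Algebra N D] [Algebra C D]
  [IsScalarTower M C D] [IsScalarTower M N D] [Algebra.IsPushout M N C D]

/-- a basis of `N` over `M` indexed by the Galois group -/
noncomputable def galBasis (M N : Type) [Field M] [Field N] [Algebra M N] [FiniteDimensional M N]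
    [IsGalois M N] : Module.Basis (N ≃ₐ[M] N) M N :=
  (Module.finBasis M N).reindex (Fintype.equivOfCardEq (by
    rw [Fintype.card_fin, ← Nat.card_eq_fintype_card, IsGalois.card_aut_eq_finrank]))

/-- the matrix of the conjugates of the basis -/
noncomputable def galMat (M N : Type) [Field M] [Field N] [Algebra M N] [FiniteDimensional M N]
    [IsGalois M N] : Matrix (N ≃ₐ[M] N) (N ≃ₐ[M] N) N :=
  Matrix.of fun γ σ => γ (galBasis M N σ)

theorem isUnit_galMat (M N : Type) [Field M] [Field N] [Algebra M N] [FiniteDimensional M N]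
    [IsGalois M N] [DecidableEq (N ≃ₐ[M] N)] : IsUnit (galMat M N) := by
  rw [← Matrix.linearIndependent_rows_iff_isUnit]
  have h1 : LinearIndependent N (fun γ : N ≃ₐ[M] N => (γ : N →ₐ[M] N).toLinearMap) :=
    (linearIndependent_algHom_toLinearMap M N N).comp _ AlgEquiv.coe_toAlgHom_injective
  let L : (N →ₗ[M] N) →ₗ[N] ((N ≃ₐ[M] N) → N) :=
    { toFun := fun f σ => f (galBasis M N σ)
      map_add' := fun _ _ => rfl
      map_smul' := fun _ _ => rfl }
  have hL : LinearMap.ker L = ⊥ := by
    rw [LinearMap.ker_eq_bot']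
    intro f hf
    exact (galBasis M N).ext fun σ => congrFun hf σ
  exact h1.map' L hL

/-- the map `D ⊗ D → ∏ D` -/
noncomputable def desF (δ : (N ≃ₐ[M] N) → (D →ₐ[C] D)) :
    D ⊗[C] D →ₐ[D] ((N ≃ₐ[M] N) → D) :=
  Algebra.TensorProduct.lift (Algebra.ofId D _) (AlgHom.pi δ)
    (fun _ _ => Commute.all _ _)

theorem desF_tmul (δ : (N ≃ₐ[M] N) → (D →ₐ[C] D)) (a b : D) (γ : N ≃ₐ[M] N) :
    desF δ (a ⊗ₜ b) γ = a * δ γ b := by
  simp [desF, Algebra.ofId_apply]

theorem desF_bijective (δ : (N ≃ₐ[M] N) → (D →ₐ[C] D))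
    (hδ : ∀ γ n, δ γ (algebraMap N D n) = algebraMap N D (γ n)) :
    Function.Bijective (desF δ) := by
  classical
  have hp : Algebra.IsPushout M C N D := Algebra.IsPushout.symm inferInstance
  let bD : Module.Basis (N ≃ₐ[M] N) C D := hp.out.basis (galBasis M N)
  have hbD : ∀ σ, bD σ = algebraMap N D (galBasis M N σ) := fun σ =>
    IsBaseChange.basis_apply _ _ σ
  let bT : Module.Basis (N ≃ₐ[M] N) D (D ⊗[C] D) := Algebra.TensorProduct.basis D bD
  have hbT : ∀ σ, bT σ = 1 ⊗ₜ bD σ := fun σ => Algebra.TensorProduct.basis_apply _ _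
  have hmat : LinearMap.toMatrix bT (Pi.basisFun D (N ≃ₐ[M] N)) (desF δ).toLinearMap =
      (algebraMap N D).mapMatrix (galMat M N) := by
    ext γ σ
    rw [LinearMap.toMatrix_apply, hbT, hbD]
    simp [desF_tmul, hδ, galMat]
  have hdet : IsUnit (LinearMap.toMatrix bT (Pi.basisFun D (N ≃ₐ[M] N))
      (desF δ).toLinearMap).det := by
    rw [hmat, ← RingHom.map_det]
    exact ((Matrix.isUnit_iff_isUnit_det _).1 (isUnit_galMat M N)).map _
  exact (LinearEquiv.ofIsUnitDet hdet).bijective

end alg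

theorem desc_flat (M N C D : Type) [Field M] [Field N] [Algebra M N]
    [CommRing C] [CommRing D] [Algebra M C] [Algebra M D] [Algebra N D] [Algebra C D]
    [IsScalarTower M C D] [IsScalarTower M N D] [Algebra.IsPushout M N C D] :
    Flat (Spec.map (CommRingCat.ofHom (algebraMap C D))) ∧
      Surjective (Spec.map (CommRingCat.ofHom (algebraMap C D))) := by
  have h1 := isPullback_SpecMap_of_isPushout _ _ _ _ (CommRingCat.isPushout_of_isPushout M N C D)
  have hf : Flat (Spec.map (CommRingCat.ofHom (algebraMap M N))) := by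
    rw [Flat.SpecMap_iff]
    exact RingHom.flat_algebraMap_iff.2 inferInstance
  have hs : Surjective (Spec.map (CommRingCat.ofHom (algebraMap M N))) := by
    refine ⟨fun y => ?_⟩
    obtain ⟨x⟩ : Nonempty (Spec (CommRingCat.of N)) :=
      inferInstanceAs (Nonempty (PrimeSpectrum N))
    refine ⟨x, ?_⟩
    have : Subsingleton (Spec (CommRingCat.of M)) :=
      inferInstanceAs (Subsingleton (PrimeSpectrum M))
    exact Subsingleton.elim _ _
  exact ⟨MorphismProperty.of_isPullback (P := @Flat) h1 hf,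
    MorphismProperty.of_isPullback (P := @Surjective) h1 hs⟩

theorem gDESC' : DESC := by
  intro K M N C D _ _ _ _ _ _ _ _ _ _ _ _ _ _ _ _ _ _ _ _ _ _ _ X δ hδ x hx
  obtain ⟨hfl, hsu⟩ := desc_flat M N C D
  obtain ⟨π, hπ⟩ : ∃ π, π = Spec.map (CommRingCat.ofHom (algebraMap C D)) := ⟨_, rfl⟩
  rw [← hπ] at hfl hsu
  have hepi : Epi π := Flat.epi_of_flat_of_surjective _
  have hreg : IsRegularEpi π := isRegularEpi_of_flat_of_surjective_of_isAffine π
  have hpb : IsPullback (Spec.map (CommRingCat.ofHom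
      (Algebra.TensorProduct.includeLeftRingHom : D →+* D ⊗[C] D)))
      (Spec.map (CommRingCat.ofHom
        (Algebra.TensorProduct.includeRight : D →ₐ[C] D ⊗[C] D).toRingHom)) π π := by
    rw [hπ]
    exact isPullback_SpecMap_of_isPushout _ _ _ _ (CommRingCat.isPushout_tensorProduct C D D)
  have hbij := desF_bijective δ hδ
  have hiso : IsIso (CommRingCat.ofHom (desF δ).toRingHom) := by
    rw [ConcreteCategory.isIso_iff_bijective]
    exact hbij
  have hcond : Spec.map (CommRingCat.ofHom
      (Algebra.TensorProduct.includeLeftRingHom : D →+* D ⊗[C] D)) ≫ x.left =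
      Spec.map (CommRingCat.ofHom
        (Algebra.TensorProduct.includeRight : D →ₐ[C] D ⊗[C] D).toRingHom) ≫ x.left := by
    rw [← cancel_epi (Spec.map (CommRingCat.ofHom (desF δ).toRingHom))]
    rw [← cancel_epi (sigmaSpec fun _ : N ≃ₐ[M] N => CommRingCat.of D)]
    refine Sigma.hom_ext _ _ fun γ => ?_
    have e1 : (((Pi.evalRingHom (fun _ : N ≃ₐ[M] N => D) γ).comp (desF δ).toRingHom).comp
        (Algebra.TensorProduct.includeLeftRingHom : D →+* D ⊗[C] D)) = RingHom.id D := by
      apply RingHom.ext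
      intro d
      change desF δ (d ⊗ₜ 1) γ = d
      rw [desF_tmul, map_one, mul_one]
    have e2 : (((Pi.evalRingHom (fun _ : N ≃ₐ[M] N => D) γ).comp (desF δ).toRingHom).comp
        (Algebra.TensorProduct.includeRight : D →ₐ[C] D ⊗[C] D).toRingHom) =
        ((δ γ).restrictScalars K).toRingHom := by
      apply RingHom.ext
      intro d
      change desF δ (1 ⊗ₜ d) γ = δ γ d
      rw [desF_tmul, one_mul]
    have e3 := congrArg (fun z : Pts X D => z.left) (hx γ)
    rw [ι_sigmaSpec_assoc, ι_sigmaSpec_assoc]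
    have e4 : ∀ (q : D →+* D ⊗[C] D),
        Spec.map (CommRingCat.ofHom (Pi.evalRingHom (fun _ : N ≃ₐ[M] N => D) γ)) ≫
          Spec.map (CommRingCat.ofHom (desF δ).toRingHom) ≫ Spec.map (CommRingCat.ofHom q) ≫
            x.left = Spec.map (CommRingCat.ofHom
              (((Pi.evalRingHom (fun _ : N ≃ₐ[M] N => D) γ).comp (desF δ).toRingHom).comp q)) ≫
              x.left := by
      intro q
      rw [CommRingCat.ofHom_comp, CommRingCat.ofHom_comp, Spec.map_comp, Spec.map_comp]
      simp only [Category.assoc]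
    refine (e4 _).trans (Eq.trans ?_ (e4 _).symm)
    rw [e1, e2]
    refine Eq.trans ?_ e3.symm
    have e5 : Spec.map (CommRingCat.ofHom (RingHom.id D)) = 𝟙 _ := Spec.map_id _
    rw [e5]
    exact Category.id_comp _
  obtain ⟨u, hu⟩ := IsRegularEpi.exists_of_isKernelPair π hpb x.left hcond
  have hw : u ≫ X.hom = Spec.map (CommRingCat.ofHom (algebraMap K C)) := by
    rw [← cancel_epi π, ← Category.assoc, hu, hπ, ← Spec.map_comp, ← CommRingCat.ofHom_comp,
      ← IsScalarTower.algebraMap_eq K C D]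
    exact Over.w x
  refine ⟨Over.homMk (U := SpecA K C) (V := X) u hw, ?_, ?_⟩
  · apply Over.OverMorphism.ext
    refine Eq.trans ?_ hu
    rw [hπ]
    rfl
  · intro y' hy'
    apply Over.OverMorphism.ext
    change y'.left = u
    rw [← cancel_epi π, hu, ← hy', hπ]
    rfl

end Pool.Agent.Helper50.Tm
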