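import Pool.Agent.Helper87.Tm.CST

/-!
Morphisms which are injective on a local ring are surjective on rational points over a nonempty
open set.
-/

open CategoryTheory AlgebraicGeometry Limits TensorProduct TopologicalSpace

namespace Pool.Agent.Helper50.Tm

theorem exists_generic {Y Z : Scheme.{0}} (f : Y ⟶ Z) (y : Y)
    (hinj : Function.Injective (f.stalkMap y).hom) :
    ∃ ξ : Y, ξ ⤳ y ∧ ∀ ζ : Z, ζ ⤳ f ξ → ζ = f ξ := by
  obtain ⟨p, hp, -⟩ := Ideal.exists_minimalPrimes_le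
    (I := (⊥ : Ideal (Z.presheaf.stalk (f y)))) (J := IsLocalRing.maximalIdeal _) bot_le
  obtain ⟨p', hp', hpp⟩ := Ideal.exists_comap_eq_of_mem_minimalPrimes_of_injective hinj p hp
  obtain ⟨ξ0, hξ0⟩ : ∃ ξ0 : Spec (Y.presheaf.stalk y), ξ0.asIdeal = p' := ⟨⟨p', hp'⟩, rfl⟩
  obtain ⟨η0, hη0⟩ : ∃ η0 : Spec (Z.presheaf.stalk (f y)), η0 = Spec.map (f.stalkMap y) ξ0 :=
    ⟨_, rfl⟩
  have hη1 : η0.asIdeal = p := by
    rw [hη0, ← hpp, ← hξ0]
    rfl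
  have hξ : f (Y.fromSpecStalk y ξ0) = Z.fromSpecStalk (f y) η0 := by
    have h := congrArg (fun g : Spec (Y.presheaf.stalk y) ⟶ Z => g ξ0)
      (Scheme.SpecMap_stalkMap_fromSpecStalk f (x := y))
    rw [hη0]
    exact h.symm
  refine ⟨Y.fromSpecStalk y ξ0, ?_, ?_⟩
  · have h : Y.fromSpecStalk y ξ0 ∈ Set.range (Y.fromSpecStalk y) := ⟨_, rfl⟩
    rw [Scheme.range_fromSpecStalk] at h
    exact h
  · intro ζ hζ
    rw [hξ] at hζ ⊢
    have h1 : Z.fromSpecStalk (f y) η0 ∈ Set.range (Z.fromSpecStalk (f y)) := ⟨_, rfl⟩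
    rw [Scheme.range_fromSpecStalk] at h1
    have h2 : ζ ∈ Set.range (Z.fromSpecStalk (f y)) := by
      rw [Scheme.range_fromSpecStalk]
      exact hζ.trans h1
    obtain ⟨ζ0, rfl⟩ := h2
    have h3 : ζ0 ⤳ η0 := (Z.fromSpecStalk (f y)).isEmbedding.isInducing.specializes_iff.1 hζ
    have h4 : ζ0.asIdeal ≤ η0.asIdeal := (PrimeSpectrum.le_iff_specializes ζ0 η0).2 h3
    rw [hη1] at h4
    have h5 : p ≤ ζ0.asIdeal := hp.2 ⟨ζ0.isPrime, bot_le⟩ h4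
    have h6 : ζ0 = η0 := PrimeSpectrum.ext (by rw [hη1]; exact le_antisymm h4 h5)
    rw [h6]

theorem exists_open_generic {Z : Scheme.{0}} [IsLocallyNoetherian Z] (η : Z)
    (hη : ∀ ζ : Z, ζ ⤳ η → ζ = η) : ∃ V : Set Z, IsOpen V ∧ η ∈ V ∧ V ⊆ closure {η} := by
  obtain ⟨Z₀, hZ₀, hηZ⟩ : ∃ Z₀ : Z.Opens, IsAffineOpen Z₀ ∧ η ∈ Z₀ := by
    obtain ⟨_, ⟨Z₀, hZ₀, rfl⟩, hηZ, -⟩ :=
      Z.isBasis_affineOpens.exists_subset_of_mem_open (Set.mem_univ η) isOpen_univ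
    exact ⟨Z₀, hZ₀, hηZ⟩
  have : IsNoetherianRing Γ(Z, Z₀) := IsLocallyNoetherian.component_noetherian ⟨Z₀, hZ₀⟩
  have hN : NoetherianSpace Z₀.toScheme := noetherianSpace_of_isAffineOpen Z₀ hZ₀
  obtain ⟨η', hη'⟩ : ∃ η' : Z₀.toScheme, Z₀.ι η' = η := ⟨⟨η, hηZ⟩, rfl⟩
  have hirr : closure {η'} ∈ irreducibleComponents Z₀.toScheme := by
    refine ⟨isIrreducible_singleton.closure, fun W hW hle => ?_⟩
    have h1 := hW.isGenericPoint_genericPoint_closure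
    have h2 : hW.genericPoint ⤳ η' := by
      rw [specializes_iff_mem_closure, h1.def]
      exact subset_closure (hle (subset_closure rfl))
    have h3 : Z₀.ι hW.genericPoint ⤳ Z₀.ι η' := h2.map Z₀.ι.continuous
    rw [hη'] at h3
    have h4 := hη _ h3
    rw [← hη'] at h4
    have h5 : hW.genericPoint = η' := Z₀.ι.isOpenEmbedding.injective h4
    rw [← h5, h1.def]
    exact subset_closure
  obtain ⟨o, ho, ⟨z, hz⟩, hoc⟩ :=
    NoetherianSpace.exists_isOpen_nonempty_subset_irreducibleComponent _ hirr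
  refine ⟨Z₀.ι '' o, Z₀.ι.isOpenEmbedding.isOpenMap o ho, ?_, ?_⟩
  · have h1 : η' ⤳ z := specializes_iff_mem_closure.2 (hoc hz)
    exact ⟨η', h1.mem_open ho hz, hη'⟩
  · rintro _ ⟨w, hw, rfl⟩
    have h1 : η' ⤳ w := specializes_iff_mem_closure.2 (hoc hw)
    have h2 : Z₀.ι η' ⤳ Z₀.ι w := h1.map Z₀.ι.continuous
    rw [hη'] at h2
    exact specializes_iff_mem_closure.1 h2

theorem gOPN' : OPN := by
  intro k _ _ Y Z f hY hZ y U hyU hinj
  have hLZ : IsLocallyNoetherian Z.left := LocallyOfFiniteType.isLocallyNoetherian Z.hom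
  obtain ⟨ξ, hξ, hgen⟩ := exists_generic f.left y hinj
  obtain ⟨Z₀, hZ₀, hfy⟩ : ∃ Z₀ : Z.left.Opens, IsAffineOpen Z₀ ∧ f.left y ∈ Z₀ := by
    obtain ⟨_, ⟨Z₀, hZ₀, rfl⟩, hηZ, -⟩ :=
      Z.left.isBasis_affineOpens.exists_subset_of_mem_open (Set.mem_univ (f.left y)) isOpen_univ
    exact ⟨Z₀, hZ₀, hηZ⟩
  obtain ⟨Y₀, hY₀, hyY, hYU⟩ : ∃ Y₀ : Y.left.Opens, IsAffineOpen Y₀ ∧ y ∈ Y₀ ∧
      (Y₀ : Set Y.left) ⊆ ((U ⊓ f.left ⁻¹ᵁ Z₀ : Y.left.Opens) : Set Y.left) := by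
    obtain ⟨_, ⟨Y₀, hY₀, rfl⟩, hyY, hYU⟩ :=
      Y.left.isBasis_affineOpens.exists_subset_of_mem_open
        (show y ∈ ((U ⊓ f.left ⁻¹ᵁ Z₀ : Y.left.Opens) : Set Y.left) from ⟨hyU, hfy⟩)
        (U ⊓ f.left ⁻¹ᵁ Z₀).2
    exact ⟨Y₀, hY₀, hyY, hYU⟩
  obtain ⟨T, hT⟩ : ∃ T : Set Z.left, T = f.left '' (Y₀ : Set Y.left) := ⟨_, rfl⟩
  have hTc : Topology.IsConstructible T := by
    have hw : f.left ≫ Z.hom = Y.hom := Over.w f
    have h1 : LocallyOfFiniteType ((Y₀.ι ≫ f.left) ≫ Z.hom) := by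
      rw [Category.assoc, hw]
      infer_instance
    have h2 : LocallyOfFiniteType (Y₀.ι ≫ f.left) := locallyOfFiniteType_of_comp _ Z.hom
    have h3 : LocallyOfFinitePresentation (Y₀.ι ≫ f.left) :=
      Pool.Agent.Helper87.Tm.lfp_of_lft _
    have h5 : CompactSpace Y₀.toScheme := isCompact_iff_compactSpace.1 hY₀.isCompact
    have h6 : QuasiCompact (Y₀.ι ≫ f.left) := quasiCompact_of_compactSpace _
    have h7 := Scheme.Hom.isLocallyConstructible_image (Y₀.ι ≫ f.left)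
      (s := Set.univ) Topology.IsLocallyConstructible.univ
    have h8 : (Y₀.ι ≫ f.left) '' Set.univ = T := by
      rw [hT, Set.image_univ]
      ext z
      constructor
      · rintro ⟨w, rfl⟩
        exact ⟨Y₀.ι w, w.2, rfl⟩
      · rintro ⟨w, hw, rfl⟩
        exact ⟨⟨w, hw⟩, rfl⟩
    rw [h8] at h7
    have h9 := h7.inter_of_isOpen_isCompact Z₀.isOpen hZ₀.isCompact
    have h10 : T ∩ (Z₀ : Set Z.left) = T := by
      rw [Set.inter_eq_left, hT]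
      rintro _ ⟨w, hw, rfl⟩
      exact (hYU hw).2
    rwa [h10] at h9
  have hξY : ξ ∈ (Y₀ : Set Y.left) := hξ.mem_open Y₀.2 hyY
  have hηT : f.left ξ ∈ T := by
    rw [hT]
    exact ⟨ξ, hξY, rfl⟩
  obtain ⟨V, hV, hηV, hVT⟩ := Pool.Agent.Helper87.Tm.exists_open_closure hTc hηT
  obtain ⟨V', hV', hηV', hVc⟩ := exists_open_generic (f.left ξ) hgen
  refine ⟨⟨V ∩ V', hV.inter hV'⟩, ⟨f.left ξ, hηV, hηV'⟩, ?_⟩
  intro z hz
  have hzT : z.left (IsLocalRing.closedPoint k) ∈ T := hVT ⟨hz.1, hVc hz.2⟩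
  rw [hT] at hzT
  obtain ⟨b, hb, hbz⟩ := hzT
  have hk : (SpecA k k).hom = 𝟙 _ := Spec.map_id _
  have hzc : z.left ≫ Z.hom = 𝟙 _ := (Over.w z).trans hk
  have hz1 : IsClosed ({z.left (IsLocalRing.closedPoint k)} : Set Z.left) :=
    (pointEquivClosedPoint Z.hom ⟨z.left, hzc⟩).2
  have hJ : JacobsonSpace Y.left := LocallyOfFiniteType.jacobsonSpace Y.hom
  obtain ⟨w0, ⟨hw1, hw2⟩, hw3⟩ := nonempty_inter_closedPoints
    (Z := (Y₀ : Set Y.left) ∩ f.left ⁻¹' {z.left (IsLocalRing.closedPoint k)}) ⟨b, hb, hbz⟩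
    (Y₀.isOpen.isLocallyClosed.inter (hz1.preimage f.left.continuous).isLocallyClosed)
  obtain ⟨⟨p, hp⟩, hpw⟩ := (pointEquivClosedPoint Y.hom).surjective ⟨w0, hw3⟩
  have hpw' : p (IsLocalRing.closedPoint k) = w0 := congrArg Subtype.val hpw
  refine ⟨Over.homMk (U := SpecA k k) (V := Y) p (hp.trans hk.symm), ?_, ?_⟩
  · change p (IsLocalRing.closedPoint k) ∈ U
    rw [hpw']
    exact (hYU hw1).1
  · apply Over.OverMorphism.ext
    change p ≫ f.left = z.left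
    refine ext_of_apply_closedPoint_eq Z.hom ?_ hzc ?_
    · rw [Category.assoc, Over.w f]
      exact hp
    · change f.left (p (IsLocalRing.closedPoint k)) = _
      rw [hpw']
      exact hw2

end Pool.Agent.Helper50.Tm
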