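import Pool.Agent.Helper50.Tm.Main
import Pool.Agent.Helper50.Tm.Desc1
import Pool.Agent.Helper50.Tm.Opn1
import Pool.Agent.Helper40.Nm.All
import Pool.Agent.Helper45.Nm.FGA
import Pool.Agent.Helper5.Tm.EXTS
import Pool.Agent.Helper3.Tm.NBH
import Pool.Agent.Helper83.Tm.LOC
import Pool.Agent.Helper69.Tm.COMPG
import Pool.Agent.Helper37.Tm.REDS
import Pool.Agent.Helper24.Tm.FINS
import Pool.Agent.Helper24.Tm.TREX
import Pool.Agent.Helper28.Tm.KRU
import Pool.Agent.Helper24.Tm.EHP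
import Pool.Agent.Helper77.Tm.DUAL
import Pool.Agent.Helper9.Tm.DIVL
import Pool.Agent.Helper87.Tm.WEILE
import Pool.Agent.Helper4.Tm.WEILS
import Pool.Agent.Helper15.Tm.LINE
import Pool.Agent.Helper70.Tm.CONN
import Pool.Agent.Helper30.Tm.NORMP
import Pool.Agent.Helper30.Tm.STK
import Pool.Agent.Helper76.Tm.NORM
import Pool.Agent.Helper42.Tm.TR1
import Pool.Agent.Helper49.Tm.TR2
import Pool.Agent.Helper48.Tm.GAL
import Pool.Agent.Helper98.Tm.BASE
import Pool.Agent.Helper7.Tm.BASER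
import Pool.Agent.Helper14.Tm.BASEC
import Pool.Agent.Helper45.Tm.CHART

/-!
The unconditional main statement.
-/

namespace Pool.Agent.Helper50.Tm

theorem main_all : MAIN := by
  have hOPN : OPN := gOPN'
  have hDESC : DESC := gDESC'
  have hSTK : STK := Helper30.Tm.gSTK Helper28.Tm.gKRU (Helper77.Tm.gDUAL Helper24.Tm.gEHP)
  have hCHART : CHART := Helper45.Tm.gCHART
  have hTREX : TREX := Helper24.Tm.gTREX hDESC
  have hNORM : NORM := Helper76.Tm.gNORM (Helper30.Tm.gNORMP hDESC)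
  exact main_of Helper40.Nm.extT Helper45.Nm.fga Helper5.Tm.gEXTS Helper69.Tm.gCOMPG
    Helper37.Tm.gREDS (Helper24.Tm.gFINS Helper37.Tm.gREDS)
    (Helper9.Tm.gDIVL Helper3.Tm.gNBH Helper83.Tm.gLOC Helper69.Tm.gCOMPG Helper37.Tm.gREDS
      hSTK hOPN) hTREX
    (Helper42.Tm.gTR1 Helper3.Tm.gNBH Helper83.Tm.gLOC Helper69.Tm.gCOMPG hCHART
      Helper87.Tm.gWEILE Helper4.Tm.gWEILS (Helper70.Tm.gCONN Helper15.Tm.gLINE) hTREX hNORM)
    (Helper49.Tm.gTR2 hCHART Helper87.Tm.gWEILE Helper4.Tm.gWEILS hTREX hNORM)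
    Helper48.Tm.gGAL (Helper7.Tm.gBASER Helper98.Tm.gBASE) (Helper14.Tm.gBASEC Helper98.Tm.gBASE)

end Pool.Agent.Helper50.Tm
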