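import Pool.Agent.Helper50.Tm.Defs

/-!
Definitions for the second result (MP_f619a5_ag): reduction of points, kernels of reduction of
multiplicative type.
-/

open CategoryTheory AlgebraicGeometry Limits TensorProduct MonoidalCategory
open scoped Obj

namespace Pool.Agent.Helper50.Tm

open Pool.Agent.Helper40.Nm (specOver homGroup specialFibre)

/-- The `M`-valued point `x` of `X` reduces to the rational point `b` of the special fibre of the
Neron model `𝒢` over `R`: `b` is the value at the closed point of a section which extends `x`. -/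
def NeronModel.Reduces {K R M : Type} [Field K] [CommRing R] [IsLocalRing R] [Field M]
    [Algebra K M] [Algebra R M] {X : Over (Spec (CommRingCat.of K))} [GrpObj X]
    (𝒢 : NeronModel K R M X) (x : Pts X M) (b : Pts 𝒢.G (IsLocalRing.ResidueField R)) : Prop :=
  ∃ s : Pts 𝒢.G R, 𝒢.Extends x s ∧ s.map (Algebra.ofId R (IsLocalRing.ResidueField R)) = b

/-- The group of rational points of the identity component of the special fibre of `G` is
`q`-divisible, and its elements of order dividing `q` are finite in number. -/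
def DivFin {R : Type} [CommRing R] [IsLocalRing R] (G : Over (Spec (CommRingCat.of R)))
    [GrpObj G] (q : ℕ) : Prop :=
  (∀ b : Pts G (IsLocalRing.ResidueField R), SameCompk 1 b →
    ∃ b' : Pts G (IsLocalRing.ResidueField R), SameCompk 1 b' ∧ b' ^ q = b) ∧
  {b : Pts G (IsLocalRing.ResidueField R) | SameCompk 1 b ∧ b ^ q = 1}.Finite

/-- `f` is a homomorphism from `ℤ ^ g` to the group of those units of the local ring `R` which are
congruent to `1` modulo the maximal ideal. -/
def IsUHom {g : ℕ} {R : Type} [CommRing R] [IsLocalRing R] (f : (Fin g → ℤ) → Rˣ) : Prop :=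
  (∀ x y, f (x + y) = f x * f y) ∧ ∀ x, (f x : R) - 1 ∈ IsLocalRing.maximalIdeal R

/-- `f' = σ ∘ f ∘ B`, as maps from `ℤ ^ g` to the field `N`. -/
def IsTwist {g : ℕ} {R N : Type} [CommRing R] [Field N] [Algebra R N] (σ : N → N)
    (B : (Fin g → ℤ) → (Fin g → ℤ)) (f f' : (Fin g → ℤ) → Rˣ) : Prop :=
  ∀ x, algebraMap R N (f' x : R) = σ (algebraMap R N (f (B x) : R))

/-- The kernel of the reduction is of multiplicative type, for intermediate fields `L`, `N1` of
`N / K`: there are an action `A` of `Gal(N / N1)` on `ℤ ^ g` by automorphisms and a homomorphism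
`φ` from the group `Hom(ℤ ^ g, U)`, `U` the group of one-units of `N`, to the group `X(N)` such that
* `φ` is equivariant for `Gal(N / N1)`, which acts on `Hom(ℤ ^ g, U)` by `f ↦ γ ∘ f ∘ A γ⁻¹`;
* `φ` is equivariant for `Gal(N / L)`, which acts on `Hom(ℤ ^ g, U)` by `f ↦ γ ∘ f`;
* the values of `φ` reduce to the unit;
* every `Gal(N / N1)`-invariant point which reduces to the unit is `φ f` with an invariant `f`. -/
def MultType {K R N : Type} [Field K] [CommRing R] [IsLocalRing R] [Field N] [Algebra K N]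
    [Algebra R N] {X : Over (Spec (CommRingCat.of K))} [GrpObj X]
    (L N1 : IntermediateField K N) (𝒢 : NeronModel K R N X) : Prop :=
  ∃ (g : ℕ) (A : (N ≃ₐ[K] N) → (Fin g → ℤ) → (Fin g → ℤ))
    (φ : ((Fin g → ℤ) → Rˣ) → Pts X N),
    (∀ x, A 1 x = x) ∧
    (∀ γ ∈ N1.fixingSubgroup, ∀ γ' ∈ N1.fixingSubgroup, ∀ x, A (γ * γ') x = A γ (A γ' x)) ∧
    (∀ γ ∈ N1.fixingSubgroup, ∀ x y, A γ (x + y) = A γ x + A γ y) ∧
    (∀ f f', IsUHom f → IsUHom f' → φ (f * f') = φ f * φ f') ∧
    (∀ γ ∈ N1.fixingSubgroup, ∀ f f', IsUHom f → IsUHom f' → IsTwist γ (A γ⁻¹) f f' →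
      φ f' = (φ f).map (γ : N →ₐ[K] N)) ∧
    (∀ γ ∈ L.fixingSubgroup, ∀ f f', IsUHom f → IsUHom f' → IsTwist γ id f f' →
      φ f' = (φ f).map (γ : N →ₐ[K] N)) ∧
    (∀ f, IsUHom f → 𝒢.Reduces (φ f) 1) ∧
    ∀ x : Pts X N, 𝒢.Reduces x 1 →
      (∀ γ ∈ N1.fixingSubgroup, x.map (γ : N →ₐ[K] N) = x) →
      ∃ f, IsUHom f ∧ φ f = x ∧ ∀ γ ∈ N1.fixingSubgroup, IsTwist γ (A γ⁻¹) f f

end Pool.Agent.Helper50.Tm
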