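import Pool.Agent.Helper50.Tm.Goals2
import Pool.Agent.Helper8.Nm.LIFTK
import Pool.Agent.Helper82.Nm.Kpt
import Pool.Agent.Helper5.Nm.Trans
import Pool.Agent.Helper9.Tm.DIVL

/-!
The connected components of the special fibre are irreducible.
-/

open CategoryTheory AlgebraicGeometry Limits TensorProduct TopologicalSpace Topology

namespace Pool.Agent.Helper50.Tm

open Pool.Agent.Helper40.Nm (specOver homGroup specialFibre)

/-- a nonempty closed set `F` in a locally noetherian space has a nonempty open irreducible part -/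
theorem exists_irred {X : Type} [TopologicalSpace X] (F : Set X) (U : Set X) (hU : IsOpen U)
    [NoetherianSpace (U ∩ F : Set X)] (x : X) (hx : x ∈ U ∩ F) :
    ∃ V : Set X, IsOpen V ∧ (V ∩ F).Nonempty ∧ IsPreirreducible (V ∩ F) := by
  obtain ⟨o, ho, hne, hoc⟩ := NoetherianSpace.exists_isOpen_nonempty_subset_irreducibleComponent _
    (irreducibleComponent_mem_irreducibleComponents (⟨x, hx⟩ : (U ∩ F : Set X)))
  have h1 : IsPreirreducible o :=
    (isIrreducible_irreducibleComponent.isPreirreducible).open_subset ho hoc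
  obtain ⟨O, hO, rfl⟩ := isOpen_induced_iff.1 ho
  have h2 : Subtype.val '' ((Subtype.val : (U ∩ F : Set X) → X) ⁻¹' O) = (O ∩ U) ∩ F := by
    rw [Subtype.image_preimage_coe]
    ext z
    simp only [Set.mem_inter_iff]
    tauto
  refine ⟨O ∩ U, hO.inter hU, ?_, ?_⟩
  · rw [← h2]
    exact hne.image _
  · rw [← h2]
    exact h1.image _ continuous_subtype_val.continuousOn

theorem gDENS' : DENS := by
  intro R _ _ _ _ _ G _ hG V V' s s' hs hs' hss
  have hLN : IsLocallyNoetherian G.left := LocallyOfFiniteType.isLocallyNoetherian G.hom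
  obtain ⟨F, hF⟩ : ∃ F : Set G.left, F = specialFibre G := ⟨_, rfl⟩
  have hFc : IsClosed F := by
    rw [hF]
    exact (IsLocalRing.isClosed_singleton_closedPoint R).preimage G.hom.continuous
  have hkpt : ∀ (x : G.left) (U : Set G.left), IsOpen U → x ∈ F → x ∈ U →
      ∃ s : Pts G R, cpt s ∈ U ∧ cpt s ∈ closure {x} := by
    intro x U hU hx hxU
    rw [hF] at hx
    exact Pool.Agent.Helper82.Nm.kpt Pool.Agent.Helper8.Nm.liftk R G hG x ⟨U, hU⟩ hx hxU
  have hmem : ∀ r : Pts G R, cpt r ∈ F := by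
    intro r
    rw [hF]
    exact Pool.Agent.Helper9.Tm.cpt_mem r
  -- a nonempty open irreducible part
  obtain ⟨V₁, hV₁, ⟨x₁, hx₁⟩, hirr⟩ : ∃ V : Set G.left, IsOpen V ∧ (V ∩ F).Nonempty ∧
      IsPreirreducible (V ∩ F) := by
    obtain ⟨_, ⟨U', hU', rfl⟩, hxU', -⟩ :=
      G.left.isBasis_affineOpens.exists_subset_of_mem_open (Set.mem_univ (cpt s)) isOpen_univ
    have hN : NoetherianSpace (U' : Set G.left) := by
      have := IsLocallyNoetherian.component_noetherian (X := G.left) ⟨U', hU'⟩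
      exact noetherianSpace_of_isAffineOpen U' hU'
    have hF : NoetherianSpace ((U' : Set G.left) ∩ F : Set G.left) :=
      NoetherianSpace.inter_of_left _ _
    exact exists_irred F U' U'.2 (cpt s) ⟨hxU', hmem s⟩
  obtain ⟨r₀, hr₀, hr₀c⟩ := hkpt x₁ V₁ hV₁ hx₁.2 hx₁.1
  -- every point has such a neighbourhood
  have hP1 : ∀ r : Pts G R, ∃ W : Set G.left, IsOpen W ∧ cpt r ∈ W ∧
      IsPreirreducible (W ∩ F) := by
    intro r
    obtain ⟨⟨τ, h1, h2⟩, -⟩ := Pool.Agent.Helper5.Nm.trans R G (r * r₀⁻¹)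
    rw [← hF] at h2
    have h3 : cpt r = τ (cpt r₀) := by
      have := h1 r₀
      rw [inv_mul_cancel_right] at this
      exact this
    refine ⟨τ '' V₁, τ.isOpenMap _ hV₁, ?_, ?_⟩
    · rw [h3]
      exact ⟨_, hr₀, rfl⟩
    · have h4 : τ '' V₁ ∩ F = τ '' (V₁ ∩ F) := by
        ext z
        constructor
        · rintro ⟨⟨w, hw, rfl⟩, hz⟩
          exact ⟨w, ⟨hw, (h2 w).1 hz⟩, rfl⟩
        · rintro ⟨w, ⟨hw, hz⟩, rfl⟩
          exact ⟨⟨w, hw, rfl⟩, (h2 w).2 hz⟩
      rw [h4]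
      exact hirr.image _ τ.continuous.continuousOn
  have hP : ∀ x ∈ F, ∃ W : Set G.left, IsOpen W ∧ x ∈ W ∧ IsPreirreducible (W ∩ F) := by
    intro x hx
    obtain ⟨r, -, hr⟩ := hkpt x Set.univ isOpen_univ hx trivial
    obtain ⟨W, hW, hrW, hWi⟩ := hP1 r
    exact ⟨W, hW, (specializes_iff_mem_closure.2 hr).mem_open hW hrW, hWi⟩
  obtain ⟨W, hW, hsW, hWi⟩ := hP1 s
  obtain ⟨A, hA⟩ : ∃ A : Set G.left, A = closure (W ∩ F) := ⟨_, rfl⟩
  have hAi : IsPreirreducible A := by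
    rw [hA]
    exact hWi.closure
  have hAF : A ⊆ F := by
    rw [hA]
    exact closure_minimal Set.inter_subset_right hFc
  have hsA : cpt s ∈ A := by
    rw [hA]
    exact subset_closure ⟨hsW, hmem s⟩
  -- `A` is open in `F`
  have hAo : ∀ x ∈ A, ∃ U : Set G.left, IsOpen U ∧ x ∈ U ∧ U ∩ F ⊆ A := by
    intro x hx
    obtain ⟨U, hU, hxU, hUi⟩ := hP x (hAF hx)
    refine ⟨U, hU, hxU, ?_⟩
    rw [hA] at hx
    obtain ⟨y, hyU, hyW, hyF⟩ := mem_closure_iff.1 hx U hU hxU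
    intro z hz
    rw [hA, mem_closure_iff]
    intro O hO hzO
    obtain ⟨u, hu1, hu2, hu3⟩ := hUi O W hO hW ⟨z, hz, hzO⟩ ⟨y, ⟨hyU, hyF⟩, hyW⟩
    exact ⟨u, hu2, hu3, hu1.2⟩
  have hs'A : cpt s' ∈ A := by
    have hC : _root_.IsPreconnected (connectedComponentIn F (cpt s)) :=
      isPreconnected_connectedComponentIn
    have hCF : connectedComponentIn F (cpt s) ⊆ F := connectedComponentIn_subset _ _
    have hs'C : cpt s' ∈ connectedComponentIn F (cpt s) := by
      rw [hF]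
      exact hss
    have hsC : cpt s ∈ connectedComponentIn F (cpt s) := mem_connectedComponentIn (hmem s)
    choose! U hU1 hU2 hU3 using hAo
    by_contra hcon
    have hAc : IsOpen Aᶜ := by
      rw [hA]
      exact isClosed_closure.isOpen_compl
    obtain ⟨z, hz1, hz2, hz3⟩ := hC (⋃ x ∈ A, U x) Aᶜ
      (isOpen_biUnion fun x hx => hU1 x hx) hAc (by
        intro z hz
        by_cases hzA : z ∈ A
        · exact Or.inl (Set.mem_biUnion hzA (hU2 z hzA))
        · exact Or.inr hzA)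
      ⟨cpt s, hsC, Set.mem_biUnion hsA (hU2 _ hsA)⟩ ⟨cpt s', hs'C, hcon⟩
    obtain ⟨x, hxA, hzU⟩ := Set.mem_iUnion₂.1 hz2
    exact hz3 (hU3 x hxA ⟨hzU, hCF hz1⟩)
  obtain ⟨x, hxA, hxV, hxV'⟩ := hAi V V' V.2 V'.2 ⟨_, hsA, hs⟩ ⟨_, hs'A, hs'⟩
  obtain ⟨t, ht1, ht2⟩ := hkpt x (V ∩ V') (V.2.inter V'.2) (hAF hxA) ⟨hxV, hxV'⟩
  refine ⟨t, ht1.1, ht1.2, ?_⟩
  have htA : cpt t ∈ A := by
    rw [hA] at hxA ⊢
    exact closure_minimal (Set.singleton_subset_iff.2 hxA) isClosed_closure ht2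
  have h5 := (hAi.isPreconnected).subset_connectedComponentIn hsA hAF htA
  rw [hF] at h5
  exact h5

end Pool.Agent.Helper50.Tm
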