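import Mathlib

/-!
The group theoretic core, wild case.
-/

namespace Pool.Agent.Helper50.Tm

theorem mem_of_coprime {A : Type} [AddCommGroup A] (Q : AddSubgroup A) {m n : ℕ}
    (h : m.Coprime n) {x : A} (h1 : (m : ℤ) • x ∈ Q) (h2 : (n : ℤ) • x ∈ Q) : x ∈ Q := by
  obtain ⟨a, b, hab⟩ := Nat.isCoprime_iff_coprime.2 h
  have : x = a • ((m : ℤ) • x) + b • ((n : ℤ) • x) := by
    rw [← mul_smul, ← mul_smul, ← add_smul, hab, one_smul]
  rw [this]
  exact Q.add_mem (Q.zsmul_mem h1 _) (Q.zsmul_mem h2 _)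

theorem grp_core_wild {PM PN C : Type} [AddCommGroup PM] [AddCommGroup PN] [Group C]
    [Finite C] (iM : PM →+ PN) (act : C → PN →+ PN) (actM : C → PM →+ PM)
    (actM_one : ∀ x, actM 1 x = x) (actM_mul : ∀ c c' x, actM (c * c') x = actM c (actM c' x))
    (act_mul : ∀ c c' x, act (c * c') x = act c (act c' x))
    (hi : ∀ c y, iM (actM c y) = act c (iM y))
    (H : Subgroup C) (Tr : PN →+ PM) (hTrC : ∀ c x, Tr (act c x) = actM c (Tr x))
    (P1N P0N : AddSubgroup PN) (P0M P1M : AddSubgroup PM)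
    (h1N : ∀ c, ∀ x ∈ P1N, act c x ∈ P1N) (h0N : ∀ c, ∀ x ∈ P0N, act c x ∈ P0N)
    (h1M : ∀ c, ∀ x ∈ P1M, actM c x ∈ P1M) (h0M : ∀ c, ∀ x ∈ P0M, actM c x ∈ P0M)
    (hTr0 : ∀ x ∈ P0N, Tr x ∈ P0M) (hTr1 : ∀ x ∈ P1N, iM (Tr x) ∈ P1N)
    (h11 : ∀ y ∈ P1M, iM y ∈ P1N) (h10 : P1M ≤ P0M)
    (hF : ∀ w ∈ P0M, ∃ y ∈ P0N, w - Tr y ∈ P1M)
    (N : ℕ) (hH : (Nat.card H).Coprime N)
    (hD : ∀ x ∈ P0N, ∃ x' ∈ P0N, x - (N : ℤ) • x' ∈ P1N)
    (hdep : ∀ x ∈ P1N, (∀ h ∈ H, act h x = x) → Tr x ∈ P1M)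
    (hHt : ∀ x, (N : ℤ) • x ∈ P1N → ∀ h ∈ H, act h x - x ∈ P1N)
    (e : ℕ) (he : e.Coprime N)
    (hN2 : ∀ f, iM f ∈ P1N → ∀ h ∈ H, (e : ℤ) • (actM h f - f) ∈ P0M)
    (q : PM) (hq : (N : ℤ) • q ∈ P0M) :
    ∃ q', q - q' ∈ P0M ∧ (N : ℤ) • q' ∈ P1M := by
  classical
  have _ := Fintype.ofFinite C
  -- step 1
  obtain ⟨y, hy, hv⟩ := hF _ hq
  obtain ⟨y', hy', hy1⟩ := hD y hy
  obtain ⟨q2, hq2d⟩ : ∃ q2, q2 = q - Tr y' := ⟨_, rfl⟩
  have hNq2 : (N : ℤ) • q2 = Tr (y - (N : ℤ) • y') + ((N : ℤ) • q - Tr y) := by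
    rw [hq2d, map_sub, map_zsmul, smul_sub]
    abel
  have hq2 : iM ((N : ℤ) • q2) ∈ P1N := by
    rw [hNq2, map_add]
    exact P1N.add_mem (hTr1 _ hy1) (h11 _ hv)
  have hq20 : (N : ℤ) • q2 ∈ P0M := by
    rw [hq2d, smul_sub]
    exact P0M.sub_mem hq (P0M.zsmul_mem (hTr0 _ hy') _)
  -- step 2
  have hf1 : ∀ h ∈ H, iM (actM h q2 - q2) ∈ P1N := by
    intro h hh
    rw [map_sub, hi]
    apply hHt _ _ h hh
    rw [← map_zsmul]
    exact hq2
  have hfN : ∀ h, (N : ℤ) • (actM h q2 - q2) ∈ P0M := by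
    intro h
    rw [smul_sub, ← map_zsmul]
    exact P0M.sub_mem (h0M h _ hq20) hq20
  have hco : ∀ h ∈ H, ∀ h' ∈ H, (actM (h * h') q2 - q2) - (actM h q2 - q2) -
      (actM h' q2 - q2) ∈ P0M := by
    intro h hh h' hh'
    have e1 : (actM (h * h') q2 - q2) - (actM h q2 - q2) - (actM h' q2 - q2) =
        actM h (actM h' q2 - q2) - (actM h' q2 - q2) := by
      rw [actM_mul, map_sub]
      abel
    rw [e1]
    refine mem_of_coprime P0M he (hN2 _ (hf1 h' hh') h hh) ?_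
    rw [smul_sub, ← map_zsmul]
    exact P0M.sub_mem (h0M h _ (hfN h')) (hfN h')
  have hf0 : ∀ h ∈ H, actM h q2 - q2 ∈ P0M := by
    intro h hh
    have hpow : ∀ m : ℕ, (actM (h ^ m) q2 - q2) - (m : ℤ) • (actM h q2 - q2) ∈ P0M := by
      intro m
      induction m with
      | zero =>
        rw [pow_zero, actM_one]
        simp
      | succ m ih =>
        have h3 := hco (h ^ m) (H.pow_mem hh m) h hh
        rw [← pow_succ] at h3
        have : (actM (h ^ (m + 1)) q2 - q2) - ((m + 1 : ℕ) : ℤ) • (actM h q2 - q2) =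
            ((actM (h ^ (m + 1)) q2 - q2) - (actM (h ^ m) q2 - q2) - (actM h q2 - q2)) +
              ((actM (h ^ m) q2 - q2) - (m : ℤ) • (actM h q2 - q2)) := by
          push_cast
          module
        rw [this]
        exact P0M.add_mem h3 ih
    have h4 := hpow (Nat.card H)
    have h5 : h ^ Nat.card H = 1 := by
      have h6 := pow_card_eq_one' (x := (⟨h, hh⟩ : H))
      exact congrArg Subtype.val h6
    rw [h5, actM_one, sub_self, zero_sub, neg_mem_iff] at h4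
    exact mem_of_coprime P0M hH h4 (hfN h)
  -- step 3
  obtain ⟨c, t, hct⟩ := Nat.isCoprime_iff_coprime.2 hH
  let S : PM := ∑ h : H, actM (h : C) q2
  have hS : ∀ h ∈ H, actM h S = S := by
    intro h hh
    simp only [S]
    rw [map_sum]
    refine Fintype.sum_equiv (Equiv.mulLeft (⟨h, hh⟩ : H)) _ _ fun c' => ?_
    rw [← actM_mul]
    rfl
  let q3 : PM := c • S
  have hq3 : ∀ h ∈ H, actM h q3 = q3 := by
    intro h hh
    simp only [q3]
    rw [map_zsmul, hS h hh]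
  have hq23 : q2 - q3 ∈ P0M := by
    have h6 : S = (∑ h : H, (actM (h : C) q2 - q2)) + (Nat.card H : ℤ) • q2 := by
      rw [Finset.sum_sub_distrib]
      simp [S]
    have : q2 - q3 = t • ((N : ℤ) • q2) - c • (∑ h : H, (actM (h : C) q2 - q2)) := by
      have h7 : q2 = (c * (Nat.card H : ℤ) + t * N) • q2 := by rw [hct, one_smul]
      simp only [q3]
      rw [h6]
      nth_rewrite 1 [h7]
      module
    rw [this]
    exact P0M.sub_mem (P0M.zsmul_mem hq20 _)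
      (P0M.zsmul_mem (P0M.sum_mem fun (h : H) _ => hf0 h.1 h.2) _)
  -- step 4
  have hw0 : (N : ℤ) • q3 ∈ P0M := by
    have : (N : ℤ) • q3 = (N : ℤ) • q2 - (N : ℤ) • (q2 - q3) := by module
    rw [this]
    exact P0M.sub_mem hq20 (P0M.zsmul_mem hq23 _)
  set w : PM := (N : ℤ) • q3 with hw
  have hwinv : ∀ h ∈ H, actM h w = w := by
    intro h hh
    rw [hw, map_zsmul, hq3 h hh]
  obtain ⟨z, hz, hzv⟩ := hF w hw0
  let zt : PN := ∑ h : H, act (h : C) z
  have hzt0 : zt ∈ P0N := P0N.sum_mem fun h _ => h0N h _ hz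
  have hztinv : ∀ h ∈ H, act h zt = zt := by
    intro h hh
    simp only [zt]
    rw [map_sum]
    refine Fintype.sum_equiv (Equiv.mulLeft (⟨h, hh⟩ : H)) _ _ fun c' => ?_
    rw [← act_mul]
    rfl
  have hcard : ∀ x : PM, (∀ h ∈ H, actM h x = x) → ∑ h : H, actM (h : C) x =
      (Nat.card H : ℤ) • x := by
    intro x hx
    rw [Finset.sum_congr rfl fun (h : H) _ => hx h.1 h.2]
    simp
  have hcardN : ∀ x : PN, (∀ h ∈ H, act h x = x) → ∑ h : H, act (h : C) x =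
      (Nat.card H : ℤ) • x := by
    intro x hx
    rw [Finset.sum_congr rfl fun (h : H) _ => hx h.1 h.2]
    simp
  have hw1 : (Nat.card H : ℤ) • w - Tr zt ∈ P1M := by
    have : (Nat.card H : ℤ) • w - Tr zt = ∑ h : H, actM (h : C) (w - Tr z) := by
      rw [← hcard w hwinv]
      simp only [zt]
      rw [map_sum, ← Finset.sum_sub_distrib]
      refine Finset.sum_congr rfl fun h _ => ?_
      rw [hTrC, map_sub]
    rw [this]
    exact P1M.sum_mem fun h _ => h1M h _ hzv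
  obtain ⟨z', hz', hz1⟩ := hD zt hzt0
  let z2 : PN := ∑ h : H, act (h : C) z'
  let z3 : PN := ∑ h : H, act (h : C) (zt - (N : ℤ) • z')
  have hz23 : (Nat.card H : ℤ) • zt = (N : ℤ) • z2 + z3 := by
    rw [← hcardN zt hztinv]
    simp only [z2, z3]
    rw [Finset.smul_sum, ← Finset.sum_add_distrib]
    refine Finset.sum_congr rfl fun h _ => ?_
    rw [map_sub, map_zsmul]
    abel
  have hz20 : z2 ∈ P0N := P0N.sum_mem fun h _ => h0N h _ hz'
  have hz31 : z3 ∈ P1N := P1N.sum_mem fun h _ => h1N h _ hz1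
  have hz3inv : ∀ h ∈ H, act h z3 = z3 := by
    intro h hh
    simp only [z3]
    rw [map_sum]
    refine Fintype.sum_equiv (Equiv.mulLeft (⟨h, hh⟩ : H)) _ _ fun c' => ?_
    rw [← act_mul]
    rfl
  have hz3 : Tr z3 ∈ P1M := hdep z3 hz31 hz3inv
  have hH2 : (Nat.card H * Nat.card H).Coprime N := Nat.Coprime.mul_left hH hH
  obtain ⟨c', t', hct'⟩ := Nat.isCoprime_iff_coprime.2 hH2
  push_cast at hct'
  let s : PM := c' • Tr z2 + t' • w
  have hs : s ∈ P0M := P0M.add_mem (P0M.zsmul_mem (hTr0 _ hz20) _) (P0M.zsmul_mem hw0 _)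
  have hws : w - (N : ℤ) • s ∈ P1M := by
    have e2 : (Nat.card H : ℤ) • Tr zt = (N : ℤ) • Tr z2 + Tr z3 := by
      rw [← map_zsmul, hz23, map_add, map_zsmul]
    have : w - (N : ℤ) • s = c' • ((Nat.card H : ℤ) • ((Nat.card H : ℤ) • w - Tr zt)) +
        c' • Tr z3 := by
      have h7 : w = (c' * ((Nat.card H : ℤ) * (Nat.card H : ℤ)) + t' * N) • w := by
        rw [hct', one_smul]
      have h8 : (Nat.card H : ℤ) • ((Nat.card H : ℤ) • w - Tr zt) =
          ((Nat.card H : ℤ) * (Nat.card H : ℤ)) • w - ((N : ℤ) • Tr z2 + Tr z3) := by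
        rw [smul_sub, e2, mul_smul]
      rw [h8]
      simp only [s]
      nth_rewrite 1 [h7]
      module
    rw [this]
    exact P1M.add_mem (P1M.zsmul_mem (P1M.zsmul_mem hw1 _) _) (P1M.zsmul_mem hz3 _)
  refine ⟨q3 - s, ?_, ?_⟩
  · have : q - (q3 - s) = Tr y' + (q2 - q3) + s := by
      rw [hq2d]
      abel
    rw [this]
    exact P0M.add_mem (P0M.add_mem (hTr0 _ hy') hq23) hs
  · rw [smul_sub]
    exact hws

end Pool.Agent.Helper50.Tm
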