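import Mathlib

/-!
The group theoretic core.
-/

namespace Pool.Agent.Helper50.Tm

theorem grp_core_add {PM PL PN C : Type} [AddCommGroup PM] [AddCommGroup PL] [AddCommGroup PN]
    [Group C] [Finite C] (iM : PM →+ PN) (iL : PL →+ PN) (act : C → PN →+ PN)
    (act_one : ∀ x, act 1 x = x) (act_mul : ∀ c c' x, act (c * c') x = act c (act c' x))
    (HM HL : Subgroup C)
    (hM1 : ∀ h ∈ HM, ∀ y, act h (iM y) = iM y) (hL1 : ∀ h ∈ HL, ∀ y, act h (iL y) = iL y)
    (hM2 : ∀ x, (∀ h ∈ HM, act h x = x) → ∃ y, iM y = x)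
    (hL2 : ∀ x, (∀ h ∈ HL, act h x = x) → ∃ y, iL y = x)
    (Tr : PN →+ PM) (e : ℕ) (P1N P0N : AddSubgroup PN) (P0M P1M : AddSubgroup PM)
    (hTrM : ∀ y, Tr (iM y) = (e : ℤ) • y)
    (hTr1 : ∀ x ∈ P1N, iM (Tr x) ∈ P1N)
    (h10 : P1N ≤ P0N) (hact : ∀ c, ∀ x ∈ P1N, act c x ∈ P1N)
    (hTr0 : ∀ x ∈ P0N, Tr x ∈ P0M) (hi0 : ∀ y ∈ P0M, iM y ∈ P0N)
    (N : ℕ) (he : e.Coprime N) (hC : (Nat.card C).Coprime N)
    (hD : ∀ x ∈ P0N, ∃ x' ∈ P0N, x - (N : ℤ) • x' ∈ P1N)
    (hH : ∀ x, (N : ℤ) • x ∈ P1N → ∃ y, x - iL y ∈ P1N)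
    (hT : ∀ (y : PL) (z : PM), iM z = iL y → iL y ∈ P1N → Tr (iM z) ∈ P1M)
    (q : PM) (hq : (N : ℤ) • q ∈ P0M) :
    ∃ q', q - q' ∈ P0M ∧ (N : ℤ) • q' ∈ P1M := by
  classical
  have _ := Fintype.ofFinite C
  obtain ⟨a, b, hab⟩ : ∃ a b : ℤ, a * e + b * N = 1 := by
    obtain ⟨a, b, h⟩ := Nat.isCoprime_iff_coprime.2 he
    exact ⟨a, b, h⟩
  -- step 1
  obtain ⟨s', hs', hs1⟩ := hD (iM ((N : ℤ) • q)) (hi0 _ hq)
  let s : PM := a • Tr s' + b • ((N : ℤ) • q)
  have hs : s ∈ P0M := P0M.add_mem (P0M.zsmul_mem (hTr0 _ hs') _) (P0M.zsmul_mem hq _)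
  have hk : (N : ℤ) • (q - s) = a • Tr (iM ((N : ℤ) • q) - (N : ℤ) • s') := by
    rw [map_sub Tr, hTrM, map_zsmul Tr]
    have : (N : ℤ) • (q - s) = (a * e + b * N) • ((N : ℤ) • q) - (N : ℤ) • s := by
      rw [hab]
      module
    rw [this]
    simp only [s]
    module
  -- step 2
  let q2 : PM := q - s
  have hq2 : iM ((N : ℤ) • q2) ∈ P1N := by
    rw [show (N : ℤ) • q2 = (N : ℤ) • (q - s) from rfl, hk, map_zsmul iM]
    exact P1N.zsmul_mem (hTr1 _ hs1) _
  have hq2' : (N : ℤ) • q2 ∈ P0M := by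
    have : (N : ℤ) • q2 = (N : ℤ) • q - (N : ℤ) • s := by
      simp only [q2]
      module
    rw [this]
    exact P0M.sub_mem hq (P0M.zsmul_mem hs _)
  let x : PN := iM q2
  have hx : (N : ℤ) • x ∈ P1N := by
    rw [← map_zsmul iM]
    exact hq2
  obtain ⟨y, hy⟩ := hH x hx
  -- invariance
  have hinv : ∀ c ∈ HM ⊔ HL, act c x - x ∈ P1N := by
    intro c hc
    rw [Subgroup.sup_eq_closure] at hc
    induction hc using Subgroup.closure_induction with
    | mem c hc =>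
      rcases hc with hc | hc
      · rw [hM1 c hc, sub_self]
        exact P1N.zero_mem
      · have h1 := hact c _ hy
        rw [map_sub, hL1 c hc] at h1
        have : act c x - x = (act c x - iL y) - (x - iL y) := by abel
        rw [this]
        exact P1N.sub_mem h1 hy
    | one =>
      rw [act_one, sub_self]
      exact P1N.zero_mem
    | mul c c' _ _ h h' =>
      have h1 := hact c _ h'
      rw [map_sub, ← act_mul] at h1
      have : act (c * c') x - x = (act (c * c') x - act c x) + (act c x - x) := by abel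
      rw [this]
      exact P1N.add_mem h1 h
    | inv c _ h =>
      have h1 := hact c⁻¹ _ h
      rw [map_sub, ← act_mul, inv_mul_cancel, act_one] at h1
      have : act c⁻¹ x - x = -(x - act c⁻¹ x) := by abel
      rw [this]
      exact P1N.neg_mem h1
  -- averaging
  let C' : Subgroup C := HM ⊔ HL
  let Z : PN := ∑ c : C', act (c : C) x
  have hZ : ∀ c ∈ C', act c Z = Z := by
    intro c hc
    simp only [Z]
    rw [map_sum]
    refine Fintype.sum_equiv (Equiv.mulLeft (⟨c, hc⟩ : C')) _ _ fun c' => ?_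
    rw [← act_mul]
    rfl
  have hZx : Z - (Fintype.card C' : ℤ) • x ∈ P1N := by
    have : Z - (Fintype.card C' : ℤ) • x = ∑ c : C', (act (c : C) x - x) := by
      rw [Finset.sum_sub_distrib]
      simp [Z]
    rw [this]
    exact P1N.sum_mem fun c _ => hinv c c.2
  obtain ⟨zM, hzM⟩ := hM2 Z fun h hh => hZ h ((le_sup_left : HM ≤ C') hh)
  obtain ⟨zL, hzL⟩ := hL2 Z fun h hh => hZ h ((le_sup_right : HL ≤ C') hh)
  have hcard : (Fintype.card C').Coprime N := by
    rw [← Nat.card_eq_fintype_card]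
    exact Nat.Coprime.coprime_dvd_left (Subgroup.card_subgroup_dvd_card C') hC
  obtain ⟨a', b', hab'⟩ : ∃ a b : ℤ, a * (Fintype.card C' : ℤ) + b * N = 1 := by
    obtain ⟨a, b, h⟩ := Nat.isCoprime_iff_coprime.2 hcard
    exact ⟨a, b, h⟩
  let z : PM := a' • zM
  have hz : iM z - x ∈ P1N := by
    have : iM z - x = a' • (Z - (Fintype.card C' : ℤ) • x) - b' • ((N : ℤ) • x) := by
      have h1 : x = (a' * (Fintype.card C' : ℤ) + b' * N) • x := by
        rw [hab', one_smul]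
      simp only [z]
      rw [map_zsmul, hzM]
      nth_rewrite 1 [h1]
      module
    rw [this]
    exact P1N.sub_mem (P1N.zsmul_mem hZx _) (P1N.zsmul_mem hx _)
  have hzz : iM z = iL (a' • zL) := by
    simp only [z]
    rw [map_zsmul, map_zsmul, hzM, hzL]
  -- step 7
  have h7 : (e : ℤ) • (z - q2) ∈ P0M := by
    rw [← hTrM]
    apply hTr0
    apply h10
    rw [map_sub]
    exact hz
  have h8 : (e : ℤ) • ((N : ℤ) • z) ∈ P1M := by
    rw [← hTrM]
    apply hT ((N : ℤ) • (a' • zL))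
    · exact (map_zsmul iM _ _).trans (by rw [hzz, ← map_zsmul iL])
    · rw [map_zsmul, ← hzz]
      have : (N : ℤ) • iM z = (N : ℤ) • (iM z - x) + (N : ℤ) • x := by module
      rw [this]
      exact P1N.add_mem (P1N.zsmul_mem hz _) hx
  refine ⟨a • ((e : ℤ) • z), ?_, ?_⟩
  · have : q - a • ((e : ℤ) • z) = s - a • ((e : ℤ) • (z - q2)) + b • ((N : ℤ) • q2) := by
      have h1 : q = s + (a * e + b * N) • q2 := by
        rw [hab, one_smul]
        simp only [q2]
        abel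
      nth_rewrite 1 [h1]
      module
    rw [this]
    exact P0M.add_mem (P0M.sub_mem hs (P0M.zsmul_mem h7 _)) (P0M.zsmul_mem hq2' _)
  · have : (N : ℤ) • (a • ((e : ℤ) • z)) = a • ((e : ℤ) • ((N : ℤ) • z)) := by module
    rw [this]
    exact P1M.zsmul_mem h8 _

end Pool.Agent.Helper50.Tm
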