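import Pool.Agent.Helper50.Tm.Goals
import Pool.Agent.Helper50.Tm.GrpCore
import Pool.Agent.Helper40.Nm.Goals

/-!
Assembly.
-/

open CategoryTheory AlgebraicGeometry Limits TensorProduct MonoidalCategory
open scoped Obj

namespace Pool.Agent.Helper50.Tm

open Pool.Agent.Helper40.Nm (specOver homGroup specialFibre)

/-- The main statement. -/
def MAIN : Prop :=
  ∀ (O K N : Type) [CommRing O] [IsDomain O] [IsDiscreteValuationRing O]
    [IsAdicComplete (IsLocalRing.maximalIdeal O) O] [IsAlgClosed (IsLocalRing.ResidueField O)]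
    [Field K] [Algebra O K] [IsFractionRing O K]
    [Field N] [Algebra K N] [Algebra O N] [IsScalarTower O K N]
    [FiniteDimensional K N] [IsGalois K N] (L M : IntermediateField K N)
    (RL RM RN : Type)
    [CommRing RL] [IsDomain RL] [IsDiscreteValuationRing RL] [Algebra O RL] [Algebra RL L]
    [IsScalarTower O RL L] [IsIntegralClosure RL O L]
    [CommRing RM] [IsDomain RM] [IsDiscreteValuationRing RM] [Algebra O RM] [Algebra RM M]
    [IsScalarTower O RM M] [IsIntegralClosure RM O M]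
    [CommRing RN] [IsDomain RN] [IsDiscreteValuationRing RN] [Algebra O RN] [Algebra RN N]
    [IsScalarTower O RN N] [IsIntegralClosure RN O N]
    (X : Over (Spec (CommRingCat.of K))) [GrpObj X] [IsCommMonObj X]
    (𝒢L : NeronModel K RL L X) (𝒢M : NeronModel K RM M X) (𝒢N : NeronModel K RN N X),
    (ringExpChar (IsLocalRing.ResidueField O)).Coprime (Module.finrank K N) →
    Module.finrank K L ≤ Module.finrank K M →
    (∀ b : Pts 𝒢N.G (IsLocalRing.ResidueField RN), SameCompk 1 b →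
      ∃ b' : Pts 𝒢N.G (IsLocalRing.ResidueField RN), SameCompk 1 b' ∧
        b' ^ ringExpChar (IsLocalRing.ResidueField O) = b) →
    (∀ (y : Pts X L) (s : Pts 𝒢L.G RL) (t : Pts 𝒢N.G RN), 𝒢L.Extends y s →
      𝒢N.Extends (y.map (IsScalarTower.toAlgHom K L N)) t →
      t.map (Algebra.ofId RN (IsLocalRing.ResidueField RN)) = 1 →
      s.map (Algebra.ofId RL (IsLocalRing.ResidueField RL)) = 1) →
    (∀ (b : Pts 𝒢N.G (IsLocalRing.ResidueField RN)) (j : ℕ),
      b ^ (ringExpChar (IsLocalRing.ResidueField O)) ^ j = 1 →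
      ∃ (y : Pts X L) (t : Pts 𝒢N.G RN),
        𝒢N.Extends (y.map (IsScalarTower.toAlgHom K L N)) t ∧
        t.map (Algebra.ofId RN (IsLocalRing.ResidueField RN)) = b) →
    FGComponents 𝒢M.G → SplitReduction 𝒢M.G

section

variable {R : Type} [CommRing R] [IsLocalRing R] {G : Over (Spec (CommRingCat.of R))}

theorem cpt_mem (s : Pts G R) : cpt s ∈ specialFibre G := by
  have h := Over.w s
  have h2 : (s.left ≫ G.hom) (IsLocalRing.closedPoint R) = IsLocalRing.closedPoint R := by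
    have h3 : s.left ≫ G.hom = 𝟙 _ := by
      rw [h]
      exact Spec.map_id _
    rw [h3]
    rfl
  exact h2

theorem SameComp.refl (s : Pts G R) : SameComp s s :=
  mem_connectedComponentIn (cpt_mem s)

theorem SameComp.symm {s s' : Pts G R} (h : SameComp s s') : SameComp s' s := by
  unfold SameComp at *
  rw [← connectedComponentIn_eq h]
  exact mem_connectedComponentIn (cpt_mem s)

theorem SameComp.trans {s s' s'' : Pts G R} (h : SameComp s s') (h' : SameComp s' s'') :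
    SameComp s s'' := by
  unfold SameComp at *
  rw [connectedComponentIn_eq h]
  exact h'

variable [GrpObj G]

/-- the point of the reduction -/
theorem cpt_eq_redk (s : Pts G R) :
    (redk s).left (IsLocalRing.closedPoint (IsLocalRing.ResidueField R)) = cpt s := by
  have h2 : (specMap (Algebra.ofId R (IsLocalRing.ResidueField R))).left
      (IsLocalRing.closedPoint (IsLocalRing.ResidueField R)) = IsLocalRing.closedPoint R := by
    change PrimeSpectrum.comap (IsLocalRing.residue R) _ = _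
    apply PrimeSpectrum.ext
    simp [IsLocalRing.closedPoint]
  change s.left ((specMap (Algebra.ofId R (IsLocalRing.ResidueField R))).left _) = s.left _
  rw [h2]

/-- the reduction as a homomorphism -/
noncomputable def redHom (G : Over (Spec (CommRingCat.of R))) [GrpObj G] :
    Pts G R →* Pts G (IsLocalRing.ResidueField R) :=
  Pts.mapHom (Algebra.ofId R (IsLocalRing.ResidueField R))

theorem redHom_apply (s : Pts G R) : redHom G s = redk s := rfl

end

section subgroups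

variable {K R M : Type} [Field K] [CommRing R] [IsLocalRing R] [Field M] [Algebra K M]
  [Algebra R M] {X : Over (Spec (CommRingCat.of K))} [GrpObj X]

/-- the points which reduce to the unit -/
noncomputable def P1 (𝒢 : NeronModel K R M X) : Subgroup (Pts X M) :=
  ((redHom 𝒢.G).comp (sec 𝒢).toMonoidHom).ker

theorem mem_P1 (𝒢 : NeronModel K R M X) (x : Pts X M) : x ∈ P1 𝒢 ↔ redk (sec 𝒢 x) = 1 :=
  Iff.rfl

/-- the points which reduce to the identity component -/
noncomputable def P0 (hC : COMPG) (𝒢 : NeronModel K R M X) : Subgroup (Pts X M) where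
  carrier := {x | SameComp 1 (sec 𝒢 x)}
  mul_mem' := by
    intro a b ha hb
    have := hC R 𝒢.G 1 (sec 𝒢 a) 1 (sec 𝒢 b) ha hb
    rw [mul_one, ← map_mul] at this
    exact this
  one_mem' := by
    have := SameComp.refl (1 : Pts 𝒢.G R)
    simpa using this
  inv_mem' := by
    intro a ha
    have := hC R 𝒢.G (sec 𝒢 a)⁻¹ (sec 𝒢 a)⁻¹ 1 (sec 𝒢 a) (SameComp.refl _) ha
    rw [mul_one, inv_mul_cancel, ← map_inv] at this
    exact this.symm

theorem mem_P0 (hC : COMPG) (𝒢 : NeronModel K R M X) (x : Pts X M) :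
    x ∈ P0 hC 𝒢 ↔ SameComp 1 (sec 𝒢 x) :=
  Iff.rfl

end subgroups

section core

variable {K N : Type} [Field K] [Field N] [Algebra K N] [FiniteDimensional K N] [IsGalois K N]
  {L M : IntermediateField K N}
  {RL RM RN : Type}
  [CommRing RL] [IsDomain RL] [IsDiscreteValuationRing RL] [Algebra RL L]
  [CommRing RM] [IsDomain RM] [IsDiscreteValuationRing RM] [Algebra RM M]
  [CommRing RN] [IsDomain RN] [IsDiscreteValuationRing RN] [Algebra RN N]
  [Algebra RL RN] [Algebra RM RN] [Algebra RL N] [Algebra RM N]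
  [IsScalarTower RL L N] [IsScalarTower RL RN N] [IsScalarTower RM M N] [IsScalarTower RM RN N]
  {X : Over (Spec (CommRingCat.of K))} [GrpObj X] [IsCommMonObj X]

omit [FiniteDimensional K N] [IsGalois K N] [GrpObj X] [IsCommMonObj X] in
theorem map_toAlgHom_fixed (M : IntermediateField K N) (σ : N ≃ₐ[K] N)
    (hσ : σ ∈ M.fixingSubgroup) (y : Pts X M) :
    (y.map (IsScalarTower.toAlgHom K M N)).map (σ : N →ₐ[K] N) =
      y.map (IsScalarTower.toAlgHom K M N) := by
  rw [← Pts.map_comp]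
  congr 1
  ext a
  exact (IntermediateField.mem_fixingSubgroup_iff M σ).1 hσ a a.2

theorem exists_of_fixed (hT : TREX) (M : IntermediateField K N) (x : Pts X N)
    (hx : ∀ σ ∈ M.fixingSubgroup, x.map ((σ : N ≃ₐ[K] N) : N →ₐ[K] N) = x) :
    ∃ y : Pts X M, y.map (IsScalarTower.toAlgHom K M N) = x := by
  refine (hT K M N X).2.1 x fun γ => ?_
  have h := hx (γ.restrictScalars K) (by
    rw [IntermediateField.mem_fixingSubgroup_iff]
    intro a ha
    exact γ.commutes ⟨a, ha⟩)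
  exact h

/-- the `p`-part of the splitting -/
theorem core_p (hCO : COMPG) (hRE : REDS) (hTX : TREX) (hTR1 : TR1) (hTR2 : TR2) (hG : GAL)
    (hBR : BASER) (hBC : BASEC)
    [IsAdicComplete (IsLocalRing.maximalIdeal RM) RM] [IsAlgClosed (IsLocalRing.ResidueField RM)]
    [IsAdicComplete (IsLocalRing.maximalIdeal RN) RN] [IsAlgClosed (IsLocalRing.ResidueField RN)]
    [Module.Finite RM RN] [Module.Free RM RN] [IsLocalHom (algebraMap RM RN)]
    (𝒢L : NeronModel K RL L X) (𝒢M : NeronModel K RM M X) (𝒢N : NeronModel K RN N X)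
    (hres : ∀ s : RN, ∃ r : RM, s - algebraMap RM RN r ∈ IsLocalRing.maximalIdeal RN)
    (hnil : ∃ n : ℕ, IsLocalRing.maximalIdeal RN ^ n ≤
      (IsLocalRing.maximalIdeal RM).map (algebraMap RM RN))
    (hle : (IsLocalRing.maximalIdeal RL).map (algebraMap RL RN) ≤
      (IsLocalRing.maximalIdeal RM).map (algebraMap RM RN))
    (hgal : ∀ σ : N ≃ₐ[K] N, ∃ τ : RN ≃+* RN, ∀ s, algebraMap RN N (τ s) = σ (algebraMap RN N s))
    (q : ℕ) (hcop : q.Coprime (Module.finrank K N))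
    (hD : ∀ b : Pts 𝒢N.G (IsLocalRing.ResidueField RN), SameCompk 1 b →
      ∃ b' : Pts 𝒢N.G (IsLocalRing.ResidueField RN), SameCompk 1 b' ∧ b' ^ q = b)
    (hT : ∀ y : Pts X L, redk (sec 𝒢N (y.map (IsScalarTower.toAlgHom K L N))) = 1 →
      redk (sec 𝒢L y) = 1)
    (hH : ∀ (b : Pts 𝒢N.G (IsLocalRing.ResidueField RN)) (j : ℕ), b ^ q ^ j = 1 →
      ∃ y : Pts X L, redk (sec 𝒢N (y.map (IsScalarTower.toAlgHom K L N))) = b)
    (j : ℕ) (x : Pts X M) (hx : x ^ q ^ j ∈ P0 hCO 𝒢M) :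
    ∃ x', x / x' ∈ P0 hCO 𝒢M ∧ x' ^ q ^ j ∈ P1 𝒢M := by
  obtain ⟨hinj, -, Tr, hTr⟩ := hTX K M N X
  let iM : Pts X M →* Pts X N := Pts.mapHom (IsScalarTower.toAlgHom K M N)
  let iL : Pts X L →* Pts X N := Pts.mapHom (IsScalarTower.toAlgHom K L N)
  let act : (N ≃ₐ[K] N) → Pts X N →* Pts X N := fun σ => Pts.mapHom (σ : N →ₐ[K] N)
  have hGalP : ∀ σ : N ≃ₐ[K] N, ∀ x ∈ P1 𝒢N, act σ x ∈ P1 𝒢N := by
    intro σ x hx
    obtain ⟨τ, hτ⟩ := hgal σ
    exact hG K RN N X 𝒢N σ τ hτ x hx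
  have hTrx : ∀ x, iM (Tr x) = ∏ γ : N ≃ₐ[M] N, act (γ.restrictScalars K) x := fun x =>
    (hTr x (Tr x)).2 rfl
  have hTrM : ∀ y, Tr (iM y) = y ^ (Fintype.card (N ≃ₐ[M] N)) := by
    intro y
    refine (hTr _ _).1 ?_
    change iM _ = ∏ γ : N ≃ₐ[M] N, act (γ.restrictScalars K) (iM y)
    rw [map_pow]
    have : ∀ γ : N ≃ₐ[M] N, act (γ.restrictScalars K) (iM y) = iM y := by
      intro γ
      refine map_toAlgHom_fixed M (γ.restrictScalars K) ?_ y
      rw [IntermediateField.mem_fixingSubgroup_iff]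
      intro a ha
      exact γ.commutes ⟨a, ha⟩
    simp only [this, Finset.prod_const, Finset.card_univ]
  have h10 : ∀ x ∈ P1 𝒢N, x ∈ P0 hCO 𝒢N := by
    intro x hx
    rw [mem_P1] at hx
    have h1 : redk (1 : Pts 𝒢N.G RN) = 1 := map_one (redHom 𝒢N.G)
    have h2 := ((hRE RN 𝒢N.G 𝒢N.smooth).2.1 1 1).1 (SameComp.refl _)
    rw [h1] at h2
    rw [mem_P0, (hRE RN 𝒢N.G 𝒢N.smooth).2.1, hx, h1]
    exact h2
  have hcard : Fintype.card (N ≃ₐ[M] N) = Module.finrank M N := by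
    rw [← Nat.card_eq_fintype_card]
    exact IsGalois.card_aut_eq_finrank M N
  have hDj : ∀ (j : ℕ) (b : Pts 𝒢N.G (IsLocalRing.ResidueField RN)), SameCompk 1 b →
      ∃ b' : Pts 𝒢N.G (IsLocalRing.ResidueField RN), SameCompk 1 b' ∧ b' ^ q ^ j = b := by
    intro j
    induction j with
    | zero =>
      intro b hb
      exact ⟨b, hb, by simp⟩
    | succ j ih =>
      intro b hb
      obtain ⟨b1, hb1, h1⟩ := ih b hb
      obtain ⟨b2, hb2, h2⟩ := hD b1 hb1
      exact ⟨b2, hb2, by rw [pow_succ', pow_mul, h2, h1]⟩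
  have hc0 : ∀ x, x ∈ P0 hCO 𝒢N ↔ SameCompk 1 (redk (sec 𝒢N x)) := by
    intro x
    rw [mem_P0, (hRE RN 𝒢N.G 𝒢N.smooth).2.1]
    have : redk (1 : Pts 𝒢N.G RN) = 1 := map_one (redHom 𝒢N.G)
    rw [this]
  have hD' : ∀ x ∈ P0 hCO 𝒢N, ∃ x' ∈ P0 hCO 𝒢N, x / x' ^ q ^ j ∈ P1 𝒢N := by
    intro x hx
    rw [hc0] at hx
    obtain ⟨b', hb', h1⟩ := hDj j _ hx
    obtain ⟨s', hs'⟩ := (hRE RN 𝒢N.G 𝒢N.smooth).1 b'
    refine ⟨(sec 𝒢N).symm s', ?_, ?_⟩
    · rw [hc0, MulEquiv.apply_symm_apply, hs']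
      exact hb'
    · rw [mem_P1, map_div, map_pow, MulEquiv.apply_symm_apply, ← redHom_apply, map_div, map_pow,
        redHom_apply, redHom_apply, hs', h1, div_self']
  have hH' : ∀ x, x ^ q ^ j ∈ P1 𝒢N → ∃ y, x / iL y ∈ P1 𝒢N := by
    intro x hx
    rw [mem_P1, map_pow, ← redHom_apply, map_pow] at hx
    obtain ⟨y, hy⟩ := hH _ j hx
    refine ⟨y, ?_⟩
    rw [mem_P1, map_div, ← redHom_apply, map_div, div_eq_one]
    exact hy.symm
  have hT' : ∀ (y : Pts X L) (z : Pts X M), iM z = iL y → iL y ∈ P1 𝒢N →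
      Tr (iM z) ∈ P1 𝒢M := by
    intro y z hz hy
    have h1 := hT y hy
    have h2 := hBR K RL L RN N X 𝒢L 𝒢N y h1
    refine hTR2 K RM M RN N X 𝒢M 𝒢N (iM z) _ ((hTr _ _).2 rfl) ?_
    rw [hz]
    have h3 : Ideal.Quotient.mkₐ RN ((IsLocalRing.maximalIdeal RM).map (algebraMap RM RN)) =
        (Ideal.Quotient.factorₐ RN hle).comp
          (Ideal.Quotient.mkₐ RN ((IsLocalRing.maximalIdeal RL).map (algebraMap RL RN))) := by
      apply AlgHom.ext
      intro a
      rfl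
    rw [h3, Pts.map_comp]
    change Pts.map _ ((sec 𝒢N (y.map (IsScalarTower.toAlgHom K L N))).map _) = 1
    rw [h2, Pts.map_one]
  have key := grp_core_add (PM := Additive (Pts X M)) (PL := Additive (Pts X L))
    (PN := Additive (Pts X N)) (C := N ≃ₐ[K] N) (MonoidHom.toAdditive iM)
    (MonoidHom.toAdditive iL) (fun σ => MonoidHom.toAdditive (act σ))
    (fun x => Pts.map_id x)
    (fun c c' x => (Pts.map_comp (c' : N →ₐ[K] N) (c : N →ₐ[K] N) x))
    M.fixingSubgroup L.fixingSubgroup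
    (fun h hh y => map_toAlgHom_fixed M h hh y) (fun h hh y => map_toAlgHom_fixed L h hh y)
    (fun x hx => exists_of_fixed hTX M x hx) (fun x hx => exists_of_fixed hTX L x hx)
    (MonoidHom.toAdditive Tr) (Fintype.card (N ≃ₐ[M] N))
    (Subgroup.toAddSubgroup (P1 𝒢N)) (Subgroup.toAddSubgroup (P0 hCO 𝒢N))
    (Subgroup.toAddSubgroup (P0 hCO 𝒢M)) (Subgroup.toAddSubgroup (P1 𝒢M))
    (fun y => (hTrM y).trans (zpow_natCast _ _).symm)
    (fun x hx => by
      have h1 : iM (Tr x) ∈ P1 𝒢N := by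
        rw [hTrx]
        exact Subgroup.prod_mem _ fun γ _ => hGalP _ _ hx
      exact h1)
    h10 (fun c x hx => hGalP c x hx)
    (fun x hx => hTR1 K RM M RN N X 𝒢M 𝒢N hres hnil x _ ((hTr x _).2 rfl) hx)
    (fun y hy => hBC K RM M RN N X 𝒢M 𝒢N hres y hy)
    (q ^ j)
    (by
      rw [hcard]
      refine Nat.Coprime.pow_right j (Nat.Coprime.symm (hcop.coprime_dvd_right ?_))
      exact ⟨_, (Module.finrank_mul_finrank K M N).symm.trans (mul_comm _ _)⟩)
    (by
      rw [IsGalois.card_aut_eq_finrank K N]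
      exact Nat.Coprime.pow_right j hcop.symm)
    (fun x hx => by
      obtain ⟨x', h1, h2⟩ := hD' x hx
      refine ⟨x', h1, ?_⟩
      rw [← zpow_natCast] at h2
      exact h2)
    (fun x hx => by
      refine hH' x ?_
      rw [← zpow_natCast]
      exact hx)
    (fun y z h1 h2 => hT' y z h1 h2)
    (Additive.ofMul x) (by
      rw [← zpow_natCast] at hx
      exact hx)
  obtain ⟨x', h1, h2⟩ := key
  refine ⟨Additive.toMul x', h1, ?_⟩
  rw [← zpow_natCast]
  exact h2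

/-- finite generation of the group of components -/
theorem fg_quot (hCO : COMPG) (hRE : REDS)
    [IsAdicComplete (IsLocalRing.maximalIdeal RM) RM] [IsAlgClosed (IsLocalRing.ResidueField RM)]
    (𝒢M : NeronModel K RM M X) (hF : FGComponents 𝒢M.G) : Group.FG (Pts X M ⧸ P0 hCO 𝒢M) := by
  classical
  obtain ⟨F, hF⟩ := hF
  obtain ⟨h1, h2, -⟩ := hRE RM 𝒢M.G 𝒢M.smooth
  choose f hf using h1
  let φ : Pts X M →* Pts 𝒢M.G (IsLocalRing.ResidueField RM) :=
    (redHom 𝒢M.G).comp (sec 𝒢M).toMonoidHom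
  let F' : Finset (Pts X M) := F.image fun b => (sec 𝒢M).symm (f b)
  have hφ : ∀ b, φ ((sec 𝒢M).symm (f b)) = b := by
    intro b
    change redk (sec 𝒢M ((sec 𝒢M).symm (f b))) = b
    rw [MulEquiv.apply_symm_apply, hf]
  rw [Group.fg_iff]
  refine ⟨(fun x : Pts X M => (x : Pts X M ⧸ P0 hCO 𝒢M)) '' (F' : Set (Pts X M)), ?_,
    Set.Finite.image _ F'.finite_toSet⟩
  rw [eq_top_iff]
  intro z _
  obtain ⟨x, rfl⟩ := QuotientGroup.mk_surjective z
  obtain ⟨s, hs, hs2⟩ := hF (cpt (sec 𝒢M x)) (cpt_mem _)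
  have hcl : Subgroup.closure (F : Set (Pts 𝒢M.G (IsLocalRing.ResidueField RM))) ≤
      (Subgroup.closure (F' : Set (Pts X M))).map φ := by
    rw [Subgroup.closure_le]
    intro b hb
    refine ⟨(sec 𝒢M).symm (f b), Subgroup.subset_closure ?_, hφ b⟩
    exact Finset.mem_coe.2 (Finset.mem_image_of_mem _ (Finset.mem_coe.1 hb))
  obtain ⟨y, hy, hys⟩ := hcl hs
  have h3 : SameComp (sec 𝒢M x) (sec 𝒢M y) := by
    rw [h2]
    have : redk (sec 𝒢M y) = s := hys
    rw [this]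
    unfold SameCompk
    rw [cpt_eq_redk]
    exact hs2
  have h4 : y⁻¹ * x ∈ P0 hCO 𝒢M := by
    rw [mem_P0, map_mul, map_inv]
    have := hCO RM 𝒢M.G (sec 𝒢M y)⁻¹ (sec 𝒢M y)⁻¹ (sec 𝒢M y) (sec 𝒢M x) (SameComp.refl _)
      h3.symm
    rwa [inv_mul_cancel] at this
  have h5 : (x : Pts X M ⧸ P0 hCO 𝒢M) = (y : Pts X M ⧸ P0 hCO 𝒢M) :=
    (QuotientGroup.eq.2 h4).symm
  change (x : Pts X M ⧸ P0 hCO 𝒢M) ∈ _
  rw [h5]
  have h6 := Subgroup.mem_map_of_mem (QuotientGroup.mk' (P0 hCO 𝒢M)) hy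
  rw [MonoidHom.map_closure] at h6
  exact h6

/-- the splitting, from the `p`-part and divisibility -/
theorem core_split (hCO : COMPG) (hRE : REDS) (hFI : FINS) (hDV : DIVL)
    (hFGA : Pool.Agent.Helper40.Nm.FGA)
    [IsAdicComplete (IsLocalRing.maximalIdeal RM) RM] [IsAlgClosed (IsLocalRing.ResidueField RM)]
    (𝒢M : NeronModel K RM M X) (hF : FGComponents 𝒢M.G)
    (hp : ∀ (l j : ℕ) (x : Pts X M), l.Prime → (l : IsLocalRing.ResidueField RM) = 0 →
      x ^ l ^ j ∈ P0 hCO 𝒢M → ∃ x', x / x' ∈ P0 hCO 𝒢M ∧ x' ^ l ^ j ∈ P1 𝒢M) :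
    SplitReduction 𝒢M.G := by
  obtain ⟨h1, h2, -⟩ := hRE RM 𝒢M.G 𝒢M.smooth
  have h10 : P1 𝒢M ≤ P0 hCO 𝒢M := by
    intro x hx
    rw [mem_P1] at hx
    have h1 : redk (1 : Pts 𝒢M.G RM) = 1 := map_one (redHom 𝒢M.G)
    have h3 := (h2 1 1).1 (SameComp.refl _)
    rw [h1] at h3
    rw [mem_P0, h2, hx, h1]
    exact h3
  obtain ⟨Λ, hΛ1, hΛ2⟩ := hFGA (Pts X M) (P0 hCO 𝒢M) (P1 𝒢M) h10 (fg_quot hCO hRE 𝒢M hF) (by
    intro l j x hl hx
    by_cases h0 : (l : IsLocalRing.ResidueField RM) = 0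
    · exact hp l j x hl h0 hx
    · have hc : ∀ s t : Pts 𝒢M.G RM, s * t = t * s := by
        intro s t
        apply (sec 𝒢M).symm.injective
        rw [map_mul, map_mul, mul_comm]
      obtain ⟨t, ht1, ht2⟩ := hDV RM 𝒢M.G 𝒢M.smooth hc (l ^ j)
        (by rw [Nat.cast_pow]; exact pow_ne_zero _ h0) (sec 𝒢M (x ^ l ^ j)) hx
      refine ⟨x / (sec 𝒢M).symm t, ?_, ?_⟩
      · rw [div_div_cancel, mem_P0, MulEquiv.apply_symm_apply]
        exact ht1
      · rw [div_pow, mem_P1, map_div, map_pow (sec 𝒢M) ((sec 𝒢M).symm t),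
          MulEquiv.apply_symm_apply, ← redHom_apply, map_div, redHom_apply, redHom_apply, ht2,
          div_self'])
  refine hFI RM 𝒢M.G 𝒢M.smooth (Λ.map (sec 𝒢M).toMonoidHom) ?_ ?_
  · intro s
    obtain ⟨x, rfl⟩ := (sec 𝒢M).surjective s
    obtain ⟨l, hl, hl2⟩ := hΛ1 x
    refine ⟨sec 𝒢M l, ⟨l, hl, rfl⟩, ?_⟩
    have := hCO RM 𝒢M.G 1 (sec 𝒢M (x / l)) (sec 𝒢M l) (sec 𝒢M l) hl2 (SameComp.refl _)
    rw [one_mul, ← map_mul, div_mul_cancel] at this
    exact this.symm
  · rintro _ ⟨l, hl, rfl⟩ _ ⟨l', hl', rfl⟩ hll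
    have h3 : l / l' ∈ P0 hCO 𝒢M := by
      rw [mem_P0, map_div, div_eq_mul_inv]
      have := hCO RM 𝒢M.G (sec 𝒢M l) (sec 𝒢M l') (sec 𝒢M l')⁻¹ (sec 𝒢M l')⁻¹ hll
        (SameComp.refl _)
      rw [mul_inv_cancel] at this
      exact this.symm
    have h4 : l / l' ∈ P1 𝒢M := hΛ2 ⟨Λ.div_mem hl hl', h3⟩
    rw [mem_P1, map_div, ← redHom_apply, map_div] at h4
    exact div_eq_one.1 h4

end core

/-- the assembly -/
theorem main_of (hE : Pool.Agent.Helper40.Nm.EXT) (hFGA : Pool.Agent.Helper40.Nm.FGA)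
    (hEX : EXTS) (hCO : COMPG) (hRE : REDS) (hFI : FINS) (hDV : DIVL) (hTX : TREX) (hTR1 : TR1)
    (hTR2 : TR2) (hG : GAL) (hBR : BASER) (hBC : BASEC) : MAIN := by
  intro O K N _ _ _ _ _ _ _ _ _ _ _ _ _ _ L M RL RM RN _ _ _ _ _ _ _ _ _ _ _ _ _ _ _ _ _ _ _ _ _
    X _ _ 𝒢L 𝒢M 𝒢N htame hdeg hD hT hH hF
  have : IsScalarTower O L N := IsScalarTower.of_algebraMap_eq fun _ => rfl
  have : IsScalarTower O M N := IsScalarTower.of_algebraMap_eq fun _ => rfl
  obtain ⟨hfrL, -, -, hdL, hcplL, hacL, -, -, -⟩ := hE O K RL L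
  obtain ⟨hfrM, -, -, hdM, hcplM, hacM, hlhM, -, -⟩ := hE O K RM M
  obtain ⟨hfrN, -, -, hdN, hcplN, hacN, -, -, -⟩ := hE O K RN N
  let _ : Algebra RL N := ((algebraMap L N).comp (algebraMap RL L)).toAlgebra
  let _ : Algebra RM N := ((algebraMap M N).comp (algebraMap RM M)).toAlgebra
  have : IsScalarTower RL L N := IsScalarTower.of_algebraMap_eq' rfl
  have : IsScalarTower RM M N := IsScalarTower.of_algebraMap_eq' rfl
  have : IsScalarTower O RL N := by
    refine IsScalarTower.of_algebraMap_eq fun x => ?_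
    rw [IsScalarTower.algebraMap_apply RL L N, ← IsScalarTower.algebraMap_apply O RL L,
      ← IsScalarTower.algebraMap_apply O L N]
  have : IsScalarTower O RM N := by
    refine IsScalarTower.of_algebraMap_eq fun x => ?_
    rw [IsScalarTower.algebraMap_apply RM M N, ← IsScalarTower.algebraMap_apply O RM M,
      ← IsScalarTower.algebraMap_apply O M N]
  have : Algebra.IsIntegral O RL := IsIntegralClosure.isIntegral_algebra O L
  have : Algebra.IsIntegral O RM := IsIntegralClosure.isIntegral_algebra O M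
  let fL : RL →ₐ[O] RN := IsIntegralClosure.lift O RN N
  let fM : RM →ₐ[O] RN := IsIntegralClosure.lift O RN N
  let _ : Algebra RL RN := fL.toRingHom.toAlgebra
  let _ : Algebra RM RN := fM.toRingHom.toAlgebra
  have : IsScalarTower RL RN N := IsScalarTower.of_algebraMap_eq fun x =>
    (IsIntegralClosure.algebraMap_lift O RN N x).symm
  have : IsScalarTower RM RN N := IsScalarTower.of_algebraMap_eq fun x =>
    (IsIntegralClosure.algebraMap_lift O RN N x).symm
  have : IsIntegralClosure RN RL N := IsIntegralClosure.tower_top (R := O)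
  have : IsIntegralClosure RN RM N := IsIntegralClosure.tower_top (R := O)
  obtain ⟨-, -, -, hd1, -, -, -, -, hramL⟩ := hE RL L RN N
  obtain ⟨-, hfin, hfree, hd2, -, -, hlh, hres, hramM⟩ := hE RM M RN N
  have hle : (IsLocalRing.maximalIdeal RL).map (algebraMap RL RN) ≤
      (IsLocalRing.maximalIdeal RM).map (algebraMap RM RN) := by
    rw [hramL, hramM]
    apply Ideal.pow_le_pow_right
    have h1 := Module.finrank_mul_finrank K L N
    have h2 := Module.finrank_mul_finrank K M N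
    have h3 : 0 < Module.finrank K M := Module.finrank_pos
    rw [← h1] at h2
    by_contra hlt
    push Not at hlt
    have h4 : Module.finrank K L * Module.finrank L N < Module.finrank K M * Module.finrank M N :=
      calc Module.finrank K L * Module.finrank L N ≤ Module.finrank K M * Module.finrank L N :=
            Nat.mul_le_mul_right _ hdeg
        _ < _ := Nat.mul_lt_mul_of_pos_left hlt h3
    omega
  refine core_split hCO hRE hFI hDV hFGA 𝒢M hF ?_
  intro l j x hl h0 hx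
  have hlq : ringExpChar (IsLocalRing.ResidueField O) = l := by
    have h1 : (l : IsLocalRing.ResidueField O) = 0 := by
      apply (IsLocalRing.ResidueField.map (algebraMap O RM)).injective
      rw [map_natCast, map_zero]
      exact h0
    have : CharP (IsLocalRing.ResidueField O) l := (CharP.charP_iff_prime_eq_zero hl).2 h1
    have _ : Fact l.Prime := ⟨hl⟩
    exact ringExpChar.eq _ _
  refine core_p hCO hRE hTX hTR1 hTR2 hG hBR hBC 𝒢L 𝒢M 𝒢N hres ⟨_, hramM.ge⟩ hle ?_ l ?_ ?_ ?_ ?_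
    j x hx
  · intro σ
    exact ⟨(galRestrict O K N RN σ).toRingEquiv, fun s => algebraMap_galRestrict_apply O σ s⟩
  · rw [← hlq]
    exact htame
  · rw [← hlq]
    exact hD
  · intro y hy
    exact hT y (sec 𝒢L y) (sec 𝒢N _) ((hEX K RL L X 𝒢L y _).2 rfl)
      ((hEX K RN N X 𝒢N _ _).2 rfl) hy
  · rw [← hlq]
    intro b j hb
    obtain ⟨y, t, h1, h2⟩ := hH b j hb
    refine ⟨y, ?_⟩
    rw [(hEX K RN N X 𝒢N _ _).1 h1]
    exact h2

end Pool.Agent.Helper50.Tm
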