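import Pool.Agent.Helper50.Tm.Mult
import Pool.Agent.Helper50.Tm.Main
import Pool.Agent.Helper50.Tm.GrpWild

/-!
Assembly, wild case.
-/

open CategoryTheory AlgebraicGeometry Limits TensorProduct MonoidalCategory
open scoped Obj

namespace Pool.Agent.Helper50.Tm

open Pool.Agent.Helper40.Nm (specOver homGroup specialFibre Lat EqHom NT tr)

/-- The second main statement. -/
def MAIN2 : Prop :=
  ∀ (O K N : Type) [CommRing O] [IsDomain O] [IsDiscreteValuationRing O]
    [IsAdicComplete (IsLocalRing.maximalIdeal O) O] [IsAlgClosed (IsLocalRing.ResidueField O)]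
    [Field K] [Algebra O K] [IsFractionRing O K]
    [Field N] [Algebra K N] [Algebra O N] [IsScalarTower O K N]
    [FiniteDimensional K N] [IsGalois K N] (L M N1 : IntermediateField K N)
    [IsGalois K L] [IsGalois K M] [IsGalois K N1]
    (RL RM RN : Type)
    [CommRing RL] [IsDomain RL] [IsDiscreteValuationRing RL] [Algebra O RL] [Algebra RL L]
    [IsScalarTower O RL L] [IsIntegralClosure RL O L]
    [CommRing RM] [IsDomain RM] [IsDiscreteValuationRing RM] [Algebra O RM] [Algebra RM M]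
    [IsScalarTower O RM M] [IsIntegralClosure RM O M]
    [CommRing RN] [IsDomain RN] [IsDiscreteValuationRing RN] [Algebra O RN] [Algebra RN N]
    [IsScalarTower O RN N] [IsIntegralClosure RN O N]
    (X : Over (Spec (CommRingCat.of K))) [GrpObj X] [IsCommMonObj X]
    (𝒢L : NeronModel K RL L X) (𝒢M : NeronModel K RM M X) (𝒢N : NeronModel K RN N X) (a : ℕ),
    M ≤ N1 → Module.finrank N1 N = ringExpChar (IsLocalRing.ResidueField O) ^ a →
    (ringExpChar (IsLocalRing.ResidueField O)).Coprime (Module.finrank K N1) →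
    (ringExpChar (IsLocalRing.ResidueField O)).Coprime (Module.finrank L N) →
    Module.finrank K L ≤ Module.finrank K M →
    (∀ b : Pts 𝒢N.G (IsLocalRing.ResidueField RN), SameCompk 1 b →
      ∃ b' : Pts 𝒢N.G (IsLocalRing.ResidueField RN), SameCompk 1 b' ∧
        b' ^ ringExpChar (IsLocalRing.ResidueField O) = b) →
    {b : Pts 𝒢N.G (IsLocalRing.ResidueField RN) | SameCompk 1 b ∧
      b ^ ringExpChar (IsLocalRing.ResidueField O) = 1}.Finite →
    (∀ (y : Pts X L) (s : Pts 𝒢L.G RL) (t : Pts 𝒢N.G RN), 𝒢L.Extends y s →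
      𝒢N.Extends (y.map (IsScalarTower.toAlgHom K L N)) t →
      t.map (Algebra.ofId RN (IsLocalRing.ResidueField RN)) = 1 →
      s.map (Algebra.ofId RL (IsLocalRing.ResidueField RL)) = 1) →
    (∀ (b : Pts 𝒢N.G (IsLocalRing.ResidueField RN)) (j : ℕ),
      b ^ (ringExpChar (IsLocalRing.ResidueField O)) ^ j = 1 →
      ∃ (y : Pts X L) (t : Pts 𝒢N.G RN),
        𝒢N.Extends (y.map (IsScalarTower.toAlgHom K L N)) t ∧
        t.map (Algebra.ofId RN (IsLocalRing.ResidueField RN)) = b) →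
    FGComponents 𝒢M.G →
    ∀ (g : ℕ) (act : (N ≃ₐ[N1] N) →* AddMonoid.End (Fin g → ℤ))
      (φ : (Multiplicative (Fin g → ℤ) →* U1 RN) →* Pts X N),
    (∀ (γ : N ≃ₐ[N1] N) (f f' : Multiplicative (Fin g → ℤ) →* U1 RN),
      (∀ x : Fin g → ℤ, algebraMap RN N ((f' (Multiplicative.ofAdd x) : RNˣ) : RN) =
        γ (algebraMap RN N ((f (Multiplicative.ofAdd (act γ⁻¹ x)) : RNˣ) : RN))) →
      φ f' = (φ f).map ((γ : N →ₐ[N1] N).restrictScalars K)) →
    (∀ (γ : N ≃ₐ[L] N) (f f' : Multiplicative (Fin g → ℤ) →* U1 RN),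
      (∀ x : Fin g → ℤ, algebraMap RN N ((f' (Multiplicative.ofAdd x) : RNˣ) : RN) =
        γ (algebraMap RN N ((f (Multiplicative.ofAdd x) : RNˣ) : RN))) →
      φ f' = (φ f).map ((γ : N →ₐ[L] N).restrictScalars K)) →
    (∀ (f : Multiplicative (Fin g → ℤ) →* U1 RN), ∃ t : Pts 𝒢N.G RN, 𝒢N.Extends (φ f) t ∧
      t.map (Algebra.ofId RN (IsLocalRing.ResidueField RN)) = 1) →
    (∀ (x : Pts X N) (t : Pts 𝒢N.G RN), 𝒢N.Extends x t →
      t.map (Algebra.ofId RN (IsLocalRing.ResidueField RN)) = 1 →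
      (∀ γ : N ≃ₐ[N1] N, x.map ((γ : N →ₐ[N1] N).restrictScalars K) = x) →
      ∃ f : Multiplicative (Fin g → ℤ) →* U1 RN, φ f = x ∧
        ∀ (γ : N ≃ₐ[N1] N) (z : Fin g → ℤ),
          algebraMap RN N ((f (Multiplicative.ofAdd (act γ z)) : RNˣ) : RN) =
            γ (algebraMap RN N ((f (Multiplicative.ofAdd z) : RNˣ) : RN))) →
    SplitReduction 𝒢M.G

/-- points which reduce to the same point -/
theorem div_mem_P1 {K R M : Type} [Field K] [CommRing R] [IsLocalRing R] [Field M] [Algebra K M]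
    [Algebra R M] {X : Over (Spec (CommRingCat.of K))} [GrpObj X] [IsCommMonObj X]
    (𝒢 : NeronModel K R M X) (x y : Pts X M) :
    x / y ∈ P1 𝒢 ↔ redk (sec 𝒢 x) = redk (sec 𝒢 y) := by
  rw [mem_P1, map_div, ← redHom_apply, map_div, div_eq_one, redHom_apply, redHom_apply]

section core2

variable {K N : Type} [Field K] [Field N] [Algebra K N] [FiniteDimensional K N] [IsGalois K N]
  {L M N1 : IntermediateField K N} [IsGalois K L] [IsGalois K M] [IsGalois K N1]
  {RL RM RN R1 : Type}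
  [CommRing RL] [IsDomain RL] [IsDiscreteValuationRing RL] [Algebra RL L]
  [CommRing RM] [IsDomain RM] [IsDiscreteValuationRing RM] [Algebra RM M]
  [CommRing RN] [IsDomain RN] [IsDiscreteValuationRing RN] [Algebra RN N] [FaithfulSMul RN N]
  [Algebra RL RN] [Algebra RM RN] [Algebra RL N] [Algebra RM N]
  [IsScalarTower RL L N] [IsScalarTower RL RN N] [IsScalarTower RM M N] [IsScalarTower RM RN N]
  [CommRing R1] [IsDomain R1] [IsDiscreteValuationRing R1]
  [IsAdicComplete (IsLocalRing.maximalIdeal R1) R1] [IsAlgClosed (IsLocalRing.ResidueField R1)]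
  [Algebra R1 N1] [IsFractionRing R1 N1] [Algebra R1 N] [IsScalarTower R1 N1 N]
  [Algebra R1 RN] [IsScalarTower R1 RN N] [IsIntegralClosure RN R1 N]
  {X : Over (Spec (CommRingCat.of K))} [GrpObj X] [IsCommMonObj X]

omit [FiniteDimensional K N] [IsGalois K N] in
/-- automorphisms with relatively prime orders in normal subgroups commute -/
theorem comm_of_coprime [FiniteDimensional K N] [IsGalois K N] (L N1 : IntermediateField K N)
    [IsGalois K L] [IsGalois K N1]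
    (hcop : (Module.finrank L N).Coprime (Module.finrank N1 N))
    (h : N ≃ₐ[K] N) (hh : h ∈ L.fixingSubgroup) (γ : N ≃ₐ[K] N) (hγ : γ ∈ N1.fixingSubgroup) :
    h * γ = γ * h := by
  have hL : L.fixingSubgroup.Normal := by
    rw [← IntermediateField.restrictNormalHom_ker]
    infer_instance
  have hN : N1.fixingSubgroup.Normal := by
    rw [← IntermediateField.restrictNormalHom_ker]
    infer_instance
  have hd : Disjoint L.fixingSubgroup N1.fixingSubgroup := by
    apply Subgroup.disjoint_of_coprime_natCard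
    rw [IsGalois.card_fixingSubgroup_eq_finrank, IsGalois.card_fixingSubgroup_eq_finrank]
    exact hcop
  exact (Subgroup.commute_of_normal_of_disjoint _ _ hL hN hd h γ hh hγ).eq

omit [IsGalois K N] in
theorem prod_fixing (M : IntermediateField K N) {A : Type} [CommMonoid A]
    [Fintype M.fixingSubgroup] (F : (N ≃ₐ[K] N) → A) :
    ∏ γ : N ≃ₐ[M] N, F (γ.restrictScalars K) = ∏ h : M.fixingSubgroup, F h := by
  refine (Fintype.prod_equiv (IntermediateField.fixingSubgroupEquiv M).toEquiv _ _ ?_).symm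
  intro h
  rfl

/-- the `p`-part of the splitting, wild case -/
theorem core_w (hCO : COMPG) (hRE : REDS) (hDV : DIVL) (hTX : TREX) (hTR1 : TR1) (hTR2 : TR2)
    (hG : GAL) (hGC : GALC) (hBR : BASER) (hBC : BASEC) (hFTR : FTR) (hA1 : ARI1) (hA2 : ARI2)
    (hFE : FEXT)
    [IsAdicComplete (IsLocalRing.maximalIdeal RM) RM] [IsAlgClosed (IsLocalRing.ResidueField RM)]
    [IsAdicComplete (IsLocalRing.maximalIdeal RN) RN] [IsAlgClosed (IsLocalRing.ResidueField RN)]
    [Module.Finite RM RN] [Module.Free RM RN] [IsLocalHom (algebraMap RM RN)]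
    (𝒢L : NeronModel K RL L X) (𝒢M : NeronModel K RM M X) (𝒢N : NeronModel K RN N X)
    (hres : ∀ s : RN, ∃ r : RM, s - algebraMap RM RN r ∈ IsLocalRing.maximalIdeal RN)
    (hnil : ∃ n : ℕ, IsLocalRing.maximalIdeal RN ^ n ≤
      (IsLocalRing.maximalIdeal RM).map (algebraMap RM RN))
    (hle : (IsLocalRing.maximalIdeal RL).map (algebraMap RL RN) ≤
      (IsLocalRing.maximalIdeal RM).map (algebraMap RM RN))
    (hgal : ∀ σ : N ≃ₐ[K] N, ∃ τ : RN ≃+* RN, ∀ s, algebraMap RN N (τ s) = σ (algebraMap RN N s))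
    (hgalM : ∀ σ : M ≃ₐ[K] M, ∃ τ : RM ≃+* RM,
      ∀ s, algebraMap RM M (τ s) = σ (algebraMap RM M s))
    (q a : ℕ) (hMN : M ≤ N1) (ha : Module.finrank N1 N = q ^ a)
    (hq1 : ringExpChar (IsLocalRing.ResidueField R1) = q)
    (hqM : ∀ n : ℕ, q.Coprime n → (n : IsLocalRing.ResidueField RM) ≠ 0)
    (hcop1 : q.Coprime (Module.finrank K N1)) (hcop2 : q.Coprime (Module.finrank L N))
    (hD : ∀ b : Pts 𝒢N.G (IsLocalRing.ResidueField RN), SameCompk 1 b →
      ∃ b' : Pts 𝒢N.G (IsLocalRing.ResidueField RN), SameCompk 1 b' ∧ b' ^ q = b)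
    (hD2 : {b : Pts 𝒢N.G (IsLocalRing.ResidueField RN) | SameCompk 1 b ∧ b ^ q = 1}.Finite)
    (hT : ∀ y : Pts X L, redk (sec 𝒢N (y.map (IsScalarTower.toAlgHom K L N))) = 1 →
      redk (sec 𝒢L y) = 1)
    (hH : ∀ (b : Pts 𝒢N.G (IsLocalRing.ResidueField RN)) (j : ℕ), b ^ q ^ j = 1 →
      ∃ y : Pts X L, redk (sec 𝒢N (y.map (IsScalarTower.toAlgHom K L N))) = b)
    {g : ℕ} (act0 : (N ≃ₐ[N1] N) →* AddMonoid.End (Lat g))
    (φ : (Multiplicative (Lat g) →* U1 RN) →* Pts X N) (hφ : IsEqv act0 φ)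
    (hφL : ∀ (γ : N ≃ₐ[K] N) (f f' : Multiplicative (Lat g) →* U1 RN), γ ∈ L.fixingSubgroup →
      (∀ x : Lat g, algebraMap RN N ((f' (Multiplicative.ofAdd x) : RNˣ) : RN) =
        γ (algebraMap RN N ((f (Multiplicative.ofAdd x) : RNˣ) : RN))) →
      φ f' = (φ f).map (γ : N →ₐ[K] N))
    (hφ1 : ∀ f, φ f ∈ P1 𝒢N)
    (hφs : ∀ x ∈ P1 𝒢N, (∀ γ : N ≃ₐ[N1] N, x.map ((γ : N →ₐ[N1] N).restrictScalars K) = x) →
      ∃ f : Multiplicative (Lat g) →* U1 RN, φ f = x ∧ (io RN N).comp f ∈ EqHom act0 Nˣ)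
    (j : ℕ) (x : Pts X M) (hx : x ^ q ^ j ∈ P0 hCO 𝒢M) :
    ∃ x', x / x' ∈ P0 hCO 𝒢M ∧ x' ^ q ^ j ∈ P1 𝒢M := by
  classical
  obtain ⟨hinj, -, Tr, hTr⟩ := hTX K M N X
  obtain ⟨iM, hiM⟩ : ∃ iM : Pts X M →* Pts X N,
    iM = Pts.mapHom (IsScalarTower.toAlgHom K M N) := ⟨_, rfl⟩
  obtain ⟨act, hact⟩ : ∃ act : (N ≃ₐ[K] N) → Pts X N →* Pts X N,
    act = fun (σ : N ≃ₐ[K] N) => Pts.mapHom (σ : N →ₐ[K] N) := ⟨_, rfl⟩
  obtain ⟨actM, hactM⟩ : ∃ actM : (N ≃ₐ[K] N) → Pts X M →* Pts X M,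
    actM = fun (σ : N ≃ₐ[K] N) => Pts.mapHom ((AlgEquiv.restrictNormalHom M σ : M ≃ₐ[K] M) : M →ₐ[K] M) :=
    ⟨_, rfl⟩
  have act_apply : ∀ σ z, act σ z = z.map (σ : N →ₐ[K] N) := by
    intro σ z
    rw [hact]
    rfl
  have actM_apply : ∀ σ z, actM σ z =
      z.map ((AlgEquiv.restrictNormalHom M σ : M ≃ₐ[K] M) : M →ₐ[K] M) := by
    intro σ z
    rw [hactM]
    rfl
  have iM_apply : ∀ z, iM z = z.map (IsScalarTower.toAlgHom K M N) := by
    intro z
    rw [hiM]
    rfl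
  have act_one : ∀ z, act 1 z = z := by
    intro z
    rw [act_apply]
    exact Pts.map_id z
  have act_mul : ∀ c c' z, act (c * c') z = act c (act c' z) := by
    intro c c' z
    rw [act_apply, act_apply, act_apply]
    exact Pts.map_comp (c' : N →ₐ[K] N) (c : N →ₐ[K] N) z
  have actM_one : ∀ z, actM 1 z = z := by
    intro z
    rw [actM_apply, map_one]
    exact Pts.map_id z
  have actM_mul : ∀ c c' z, actM (c * c') z = actM c (actM c' z) := by
    intro c c' z
    rw [actM_apply, actM_apply, actM_apply, map_mul]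
    exact Pts.map_comp ((AlgEquiv.restrictNormalHom M c' : M ≃ₐ[K] M) : M →ₐ[K] M)
      ((AlgEquiv.restrictNormalHom M c : M ≃ₐ[K] M) : M →ₐ[K] M) z
  have hi : ∀ c y, iM (actM c y) = act c (iM y) := by
    intro c y
    rw [iM_apply, act_apply, actM_apply, iM_apply, ← Pts.map_comp, ← Pts.map_comp]
    congr 1
    ext z
    exact AlgEquiv.restrictNormal_commutes c M z
  have hMnorm : M.fixingSubgroup.Normal := by
    rw [← IntermediateField.restrictNormalHom_ker]
    infer_instance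
  have hTrx : ∀ z, iM (Tr z) = ∏ h : M.fixingSubgroup, act h z := by
    intro z
    rw [← prod_fixing M fun h => act h z, iM_apply]
    refine ((hTr z (Tr z)).2 rfl).trans ?_
    refine Finset.prod_congr rfl fun γ _ => ?_
    rw [act_apply]
    rfl
  have hinjM : Function.Injective iM := by
    intro y y' h
    rw [iM_apply, iM_apply] at h
    exact hinj y y' h
  have hTrC : ∀ c z, Tr (act c z) = actM c (Tr z) := by
    intro c z
    apply hinjM
    rw [hi, hTrx, hTrx, map_prod]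
    refine Fintype.prod_equiv (MulAut.conjNormal c⁻¹).toEquiv _ _ fun h => ?_
    rw [← act_mul, ← act_mul]
    refine congrArg (fun s => act s z) ?_
    change (h : N ≃ₐ[K] N) * c = c * ((MulAut.conjNormal c⁻¹ h : M.fixingSubgroup) : N ≃ₐ[K] N)
    rw [MulAut.conjNormal_apply]
    group
  have hGal1 : ∀ σ, ∀ z ∈ P1 𝒢N, act σ z ∈ P1 𝒢N := by
    intro σ z hz
    obtain ⟨τ, hτ⟩ := hgal σ
    rw [act_apply]
    exact hG K RN N X 𝒢N σ τ hτ z hz
  have hGal0 : ∀ σ, ∀ z ∈ P0 hCO 𝒢N, act σ z ∈ P0 hCO 𝒢N := by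
    intro σ z hz
    obtain ⟨τ, hτ⟩ := hgal σ
    rw [act_apply]
    exact hGC K RN N X 𝒢N σ τ hτ z hz
  have hGal1M : ∀ σ, ∀ z ∈ P1 𝒢M, actM σ z ∈ P1 𝒢M := by
    intro σ z hz
    obtain ⟨τ, hτ⟩ := hgalM (AlgEquiv.restrictNormalHom M σ)
    rw [actM_apply]
    exact hG K RM M X 𝒢M _ τ hτ z hz
  have hGal0M : ∀ σ, ∀ z ∈ P0 hCO 𝒢M, actM σ z ∈ P0 hCO 𝒢M := by
    intro σ z hz
    obtain ⟨τ, hτ⟩ := hgalM (AlgEquiv.restrictNormalHom M σ)
    rw [actM_apply]
    exact hGC K RM M X 𝒢M _ τ hτ z hz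
  have h10N : P1 𝒢N ≤ P0 hCO 𝒢N := by
    intro x hx
    rw [mem_P1] at hx
    have h1 : redk (1 : Pts 𝒢N.G RN) = 1 := map_one (redHom 𝒢N.G)
    have h2 := ((hRE RN 𝒢N.G 𝒢N.smooth).2.1 1 1).1 (SameComp.refl _)
    rw [h1] at h2
    rw [mem_P0, (hRE RN 𝒢N.G 𝒢N.smooth).2.1, hx, h1]
    exact h2
  have h10M : P1 𝒢M ≤ P0 hCO 𝒢M := by
    intro x hx
    rw [mem_P1] at hx
    have h1 : redk (1 : Pts 𝒢M.G RM) = 1 := map_one (redHom 𝒢M.G)
    have h2 := ((hRE RM 𝒢M.G 𝒢M.smooth).2.1 1 1).1 (SameComp.refl _)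
    rw [h1] at h2
    rw [mem_P0, (hRE RM 𝒢M.G 𝒢M.smooth).2.1, hx, h1]
    exact h2
  have hDj : ∀ (j : ℕ) (b : Pts 𝒢N.G (IsLocalRing.ResidueField RN)), SameCompk 1 b →
      ∃ b' : Pts 𝒢N.G (IsLocalRing.ResidueField RN), SameCompk 1 b' ∧ b' ^ q ^ j = b := by
    intro j
    induction j with
    | zero =>
      intro b hb
      exact ⟨b, hb, by simp⟩
    | succ j ih =>
      intro b hb
      obtain ⟨b1, hb1, h1⟩ := ih b hb
      obtain ⟨b2, hb2, h2⟩ := hD b1 hb1
      exact ⟨b2, hb2, by rw [pow_succ', pow_mul, h2, h1]⟩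
  have hc0 : ∀ x, x ∈ P0 hCO 𝒢N ↔ SameCompk 1 (redk (sec 𝒢N x)) := by
    intro x
    rw [mem_P0, (hRE RN 𝒢N.G 𝒢N.smooth).2.1]
    have : redk (1 : Pts 𝒢N.G RN) = 1 := map_one (redHom 𝒢N.G)
    rw [this]
  have hpow : ∀ (x : Pts X N) (n : ℕ), redk (sec 𝒢N (x ^ n)) = redk (sec 𝒢N x) ^ n := by
    intro x n
    rw [map_pow, ← redHom_apply, map_pow, redHom_apply]
  have hD' : ∀ j, ∀ x ∈ P0 hCO 𝒢N, ∃ x' ∈ P0 hCO 𝒢N, x / x' ^ q ^ j ∈ P1 𝒢N := by
    intro j x hx
    rw [hc0] at hx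
    obtain ⟨b', hb', h1⟩ := hDj j _ hx
    obtain ⟨s', hs'⟩ := (hRE RN 𝒢N.G 𝒢N.smooth).1 b'
    refine ⟨(sec 𝒢N).symm s', ?_, ?_⟩
    · rw [hc0, MulEquiv.apply_symm_apply, hs']
      exact hb'
    · rw [div_mem_P1, hpow, MulEquiv.apply_symm_apply, hs', h1]
  have h11 : ∀ y ∈ P1 𝒢M, iM y ∈ P1 𝒢N := by
    intro y hy
    have h1 := hBR K RM M RN N X 𝒢M 𝒢N y hy
    rw [mem_P1, iM_apply]
    have hI : (IsLocalRing.maximalIdeal RM).map (algebraMap RM RN) ≤
        IsLocalRing.maximalIdeal RN :=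
      ((IsLocalRing.local_hom_TFAE (algebraMap RM RN)).out 0 2).1
        (inferInstance : IsLocalHom (algebraMap RM RN))
    have h2 : Algebra.ofId RN (IsLocalRing.ResidueField RN) =
        (Ideal.Quotient.liftₐ ((IsLocalRing.maximalIdeal RM).map (algebraMap RM RN))
          (Algebra.ofId RN (IsLocalRing.ResidueField RN)) (fun z hz =>
            (IsLocalRing.residue_eq_zero_iff z).2 (hI hz))).comp (Ideal.Quotient.mkₐ RN _) := by
      ext
    unfold redk
    rw [h2, Pts.map_comp, h1, Pts.map_one]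
  have h00 : ∀ y ∈ P0 hCO 𝒢M, iM y ∈ P0 hCO 𝒢N := by
    intro y hy
    rw [iM_apply]
    exact hBC K RM M RN N X 𝒢M 𝒢N hres y hy
  have hTr0 : ∀ z ∈ P0 hCO 𝒢N, Tr z ∈ P0 hCO 𝒢M := fun z hz =>
    hTR1 K RM M RN N X 𝒢M 𝒢N hres hnil z _ ((hTr z _).2 rfl) hz
  have hTr1 : ∀ z ∈ P1 𝒢N, iM (Tr z) ∈ P1 𝒢N := by
    intro z hz
    rw [hTrx]
    exact Subgroup.prod_mem _ fun γ _ => hGal1 _ _ hz
  -- the points fixed by `Gal(N/L)`
  have hdep : ∀ z ∈ P1 𝒢N, (∀ h ∈ L.fixingSubgroup, act h z = z) → Tr z ∈ P1 𝒢M := by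
    intro z hz hfix
    obtain ⟨y, hy⟩ := exists_of_fixed hTX L z (fun σ hσ => by
      rw [← act_apply]
      exact hfix σ hσ)
    have h1 := hT y (by rw [hy]; exact hz)
    have h2 := hBR K RL L RN N X 𝒢L 𝒢N y h1
    refine hTR2 K RM M RN N X 𝒢M 𝒢N z _ ((hTr _ _).2 rfl) ?_
    rw [← hy]
    have h3 : Ideal.Quotient.mkₐ RN ((IsLocalRing.maximalIdeal RM).map (algebraMap RM RN)) =
        (Ideal.Quotient.factorₐ RN hle).comp
          (Ideal.Quotient.mkₐ RN ((IsLocalRing.maximalIdeal RL).map (algebraMap RL RN))) := by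
      apply AlgHom.ext
      intro a
      rfl
    rw [h3, Pts.map_comp, h2, Pts.map_one]
  have hHt : ∀ z, z ^ q ^ j ∈ P1 𝒢N → ∀ h ∈ L.fixingSubgroup, act h z / z ∈ P1 𝒢N := by
    intro z hz h hh
    rw [mem_P1, hpow] at hz
    obtain ⟨y, hy⟩ := hH _ j hz
    have h1 : z / y.map (IsScalarTower.toAlgHom K L N) ∈ P1 𝒢N := by
      rw [div_mem_P1]
      exact hy.symm
    have h2 := hGal1 h _ h1
    rw [map_div] at h2
    have h3 : act h (y.map (IsScalarTower.toAlgHom K L N)) =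
        y.map (IsScalarTower.toAlgHom K L N) := by
      rw [act_apply]
      exact map_toAlgHom_fixed L h hh y
    rw [h3] at h2
    have h4 := (P1 𝒢N).div_mem h2 h1
    rwa [div_div_div_cancel_right] at h4
  -- the group `Gal(N/N1)`
  obtain ⟨f, hf⟩ : ∃ f : (N ≃ₐ[N1] N) →* M.fixingSubgroup,
      ∀ γ, ((f γ : M.fixingSubgroup) : N ≃ₐ[K] N) = γ.restrictScalars K := by
    refine ⟨⟨⟨fun γ => ⟨γ.restrictScalars K, ?_⟩, ?_⟩, ?_⟩, fun _ => rfl⟩
    · rw [IntermediateField.mem_fixingSubgroup_iff]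
      intro z hz
      exact γ.commutes ⟨z, hMN hz⟩
    · rfl
    · intro _ _
      rfl
  have hfinj : Function.Injective f := by
    intro γ γ' h
    have h1 := congrArg (fun z : M.fixingSubgroup => (z : N ≃ₐ[K] N)) h
    have h2 : γ.restrictScalars K = γ'.restrictScalars K := by
      rw [← hf, ← hf]
      exact h1
    exact AlgEquiv.ext fun z => AlgEquiv.congr_fun h2 z
  have hcardM : Fintype.card M.fixingSubgroup = Module.finrank M N := by
    rw [← Nat.card_eq_fintype_card]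
    exact IsGalois.card_fixingSubgroup_eq_finrank M
  have hcardP : Fintype.card (N ≃ₐ[N1] N) = q ^ a := by
    rw [← Nat.card_eq_fintype_card, IsGalois.card_aut_eq_finrank, ha]
  obtain ⟨e, he⟩ : ∃ e, e * Fintype.card (N ≃ₐ[N1] N) = Fintype.card M.fixingSubgroup := by
    have h1 := Subgroup.card_subgroup_dvd_card f.range
    rw [← Nat.card_congr (MonoidHom.ofInjective hfinj).toEquiv, Nat.card_eq_fintype_card,
      Nat.card_eq_fintype_card] at h1
    obtain ⟨e, he⟩ := h1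
    exact ⟨e, by rw [he, mul_comm]⟩
  have hecop : q.Coprime e := by
    refine hcop1.coprime_dvd_right ?_
    have h1 := Module.finrank_mul_finrank K M N
    have h2 := Module.finrank_mul_finrank K N1 N
    have h3 : 0 < Module.finrank N1 N := Module.finrank_pos
    rw [← h2, ← hcardM, ← he, hcardP, ← ha, ← mul_assoc] at h1
    exact ⟨_, (Nat.eq_of_mul_eq_mul_right h3 h1).symm.trans (mul_comm _ _)⟩
  have hactf : ∀ (γ : N ≃ₐ[N1] N) z, act (f γ) z =
      z.map ((γ : N →ₐ[N1] N).restrictScalars K) := by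
    intro γ z
    rw [act_apply, hf]
    rfl
  have hfixM : ∀ (h : M.fixingSubgroup) y, act h (iM y) = iM y := by
    intro h y
    rw [act_apply, iM_apply]
    exact map_toAlgHom_fixed M h h.2 y
  have hgalP : ∀ γ : N ≃ₐ[N1] N, ∃ τ : RN ≃+* RN,
      ∀ s, algebraMap RN N (τ s) = γ (algebraMap RN N s) := fun γ =>
    hgal (γ.restrictScalars K)
  -- finiteness of norms
  have hfin1 : ∃ F : Finset (Additive (Pts X N)), ∀ w ∈ Subgroup.toAddSubgroup (P1 𝒢N),
      (∀ γ : N ≃ₐ[N1] N, MonoidHom.toAdditive (act (f γ)) w = w) →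
      ∃ c ∈ F, ∃ y ∈ Subgroup.toAddSubgroup (P1 𝒢N),
        w = c + ∑ γ : N ≃ₐ[N1] N, MonoidHom.toAdditive (act (f γ)) y := by
    obtain ⟨F, hF⟩ := ari2_pts (R1 := R1) act0 φ hA2 hgalP hφ a (by rw [hq1]; exact ha)
    refine ⟨F, fun w hw hinv => ?_⟩
    obtain ⟨u, hu1, hu2⟩ := hφs w hw (fun γ => (hactf γ w).symm.trans (hinv γ))
    obtain ⟨c, hc, u', hu'⟩ := hF u hu2
    refine ⟨c, hc, φ u', hφ1 u', ?_⟩
    rw [hu1] at hu'
    refine hu'.trans ?_
    refine congrArg (fun z : Pts X N => c * z) ?_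
    exact Finset.prod_congr rfl fun γ _ => (hactf γ _).symm
  have htors : ∃ T : Finset (Additive (Pts X N)), ∀ b ∈ Subgroup.toAddSubgroup (P0 hCO 𝒢N),
      ((q : ℕ) : ℤ) • b ∈ Subgroup.toAddSubgroup (P1 𝒢N) →
        ∃ t ∈ T, b - t ∈ Subgroup.toAddSubgroup (P1 𝒢N) := by
    choose ℓ hℓ using (hRE RN 𝒢N.G 𝒢N.smooth).1
    refine ⟨hD2.toFinset.image fun b => Additive.ofMul ((sec 𝒢N).symm (ℓ b)), fun b hb hqb => ?_⟩
    have h1 : redk (sec 𝒢N (Additive.toMul b)) ^ q = 1 := by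
      rw [← hpow]
      have h2 : (Additive.toMul b) ^ (q : ℤ) ∈ P1 𝒢N := hqb
      rw [zpow_natCast] at h2
      exact h2
    refine ⟨_, Finset.mem_image.2 ⟨redk (sec 𝒢N (Additive.toMul b)), ?_, rfl⟩, ?_⟩
    · rw [Set.Finite.mem_toFinset]
      exact ⟨(hc0 _).1 hb, h1⟩
    · change Additive.toMul b / (sec 𝒢N).symm (ℓ (redk (sec 𝒢N (Additive.toMul b)))) ∈ P1 𝒢N
      rw [div_mem_P1, MulEquiv.apply_symm_apply, hℓ]
  have hfin2 := fin_inv hFE (G := N ≃ₐ[N1] N) (A := Additive (Pts X N))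
    (fun γ => MonoidHom.toAdditive (act (f γ)))
    (fun z => by
      change act (f 1) z = z
      rw [map_one]
      exact act_one z)
    (fun c c' z => by
      change act (f (c * c')) z = act (f c) (act (f c') z)
      rw [map_mul]
      exact act_mul _ _ z)
    (Subgroup.toAddSubgroup (P0 hCO 𝒢N)) (Subgroup.toAddSubgroup (P1 𝒢N)) h10N
    (fun γ z hz => hGal0 _ z hz) (fun γ z hz => hGal1 _ z hz)
    (fun z hz => by
      obtain ⟨z', h1, h2⟩ := hD' a z hz
      refine ⟨z', h1, ?_⟩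
      rw [hcardP]
      rw [← zpow_natCast] at h2
      exact h2)
    (by
      rw [hcardP]
      exact fin_tors _ _ q htors a)
    hfin1
  have hcM : ∀ s t : Pts 𝒢M.G RM, s * t = t * s := by
    intro s t
    apply (sec 𝒢M).symm.injective
    rw [map_mul, map_mul, mul_comm]
  have hfin3 := fin_tr (PM := Additive (Pts X M)) (PN := Additive (Pts X N)) f hfinj
    (MonoidHom.toAdditive iM) hinjM (fun h => MonoidHom.toAdditive (act h))
    (fun c c' z => act_mul _ _ z) (fun h y => hfixM h y) (MonoidHom.toAdditive Tr)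
    (fun z => hTrx z) (Subgroup.toAddSubgroup (P0 hCO 𝒢N)) (Subgroup.toAddSubgroup (P0 hCO 𝒢M))
    (Subgroup.toAddSubgroup (P1 𝒢M)) h00 e he
    (fun y hy => by
      obtain ⟨t, ht1, ht2⟩ := hDV RM 𝒢M.G 𝒢M.smooth hcM e (hqM e hecop)
        (sec 𝒢M (Additive.toMul y)) hy
      refine ⟨Additive.ofMul ((sec 𝒢M).symm t), ?_, ?_⟩
      · change SameComp 1 (sec 𝒢M ((sec 𝒢M).symm t))
        rw [MulEquiv.apply_symm_apply]
        exact ht1
      · change Additive.toMul y / ((sec 𝒢M).symm t) ^ (e : ℤ) ∈ P1 𝒢M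
        rw [zpow_natCast, div_mem_P1, map_pow, MulEquiv.apply_symm_apply, ht2])
    hfin2
  have hF : ∀ w ∈ P0 hCO 𝒢M, ∃ y ∈ P0 hCO 𝒢N, w / Tr y ∈ P1 𝒢M := by
    obtain ⟨F, hF⟩ := hfin3
    intro w hw
    obtain ⟨y, hy, h1⟩ := hFTR K RM M RN N X 𝒢M 𝒢N Tr (fun z => (hTr z _).2 rfl) F (by
      intro w hw
      obtain ⟨c, hc, y, hy, h1⟩ := hF w hw
      exact ⟨Additive.toMul c, hc, y, hy, (div_mem_P1 𝒢M w (Additive.toMul c * Tr y)).1 h1⟩) w hw
    exact ⟨y, hy, (div_mem_P1 𝒢M _ _).2 h1⟩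
  have hcopLN : (Module.finrank L N).Coprime (Module.finrank N1 N) := by
    rw [ha]
    exact Nat.Coprime.pow_right a hcop2.symm
  have hN2 : ∀ z : Pts X M, iM z ∈ P1 𝒢N → ∀ h ∈ L.fixingSubgroup,
      (actM h z / z) ^ (e : ℤ) ∈ P0 hCO 𝒢M := by
    intro z hz h hh
    obtain ⟨u, hu1, hu2⟩ := hφs _ hz (fun γ => by
      rw [← hactf]
      exact hfixM _ _)
    obtain ⟨τ, hτ⟩ := hgal h
    obtain ⟨u', hu'⟩ := ari1_pts (R1 := R1) act0 φ hA1 hgalP hφ a (by rw [hq1]; exact ha)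
      h.toRingEquiv τ (fun s => (hτ s).symm)
      (fun γ w => by
        have h1 := comm_of_coprime L N1 hcopLN h hh (γ.restrictScalars K) (by
          rw [IntermediateField.mem_fixingSubgroup_iff]
          intro z hz
          exact γ.commutes ⟨z, hz⟩)
        exact AlgEquiv.congr_fun h1 w)
      (fun w => act h w)
      (fun v v' hv => by
        rw [act_apply]
        exact hφL h v v' hh hv) u hu2
    have h2 : iM (actM h z / z) = ∏ γ : N ≃ₐ[N1] N, act (f γ) (φ u') := by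
      rw [map_div, hi, ← hu1]
      refine (div_eq_iff_eq_mul'.2 hu').trans ?_
      exact Finset.prod_congr rfl fun γ _ => (hactf γ _).symm
    have h3 := tr_norm (PM := Additive (Pts X M)) (PN := Additive (Pts X N)) f hfinj
      (MonoidHom.toAdditive iM) hinjM (fun h => MonoidHom.toAdditive (act h))
      (fun c c' z => act_mul _ _ z) (fun h y => hfixM h y) (MonoidHom.toAdditive Tr)
      (fun z => hTrx z) e he (Additive.ofMul (actM h z / z)) (Additive.ofMul (φ u')) h2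
    have h4 : (actM h z / z) ^ (e : ℤ) = Tr (φ u') := h3
    rw [h4]
    exact hTr0 _ (h10N (hφ1 u'))
  have key := grp_core_wild (PM := Additive (Pts X M)) (PN := Additive (Pts X N))
    (C := N ≃ₐ[K] N) (MonoidHom.toAdditive iM) (fun σ => MonoidHom.toAdditive (act σ))
    (fun σ => MonoidHom.toAdditive (actM σ)) actM_one actM_mul act_mul hi L.fixingSubgroup
    (MonoidHom.toAdditive Tr) hTrC
    (Subgroup.toAddSubgroup (P1 𝒢N)) (Subgroup.toAddSubgroup (P0 hCO 𝒢N))
    (Subgroup.toAddSubgroup (P0 hCO 𝒢M)) (Subgroup.toAddSubgroup (P1 𝒢M))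
    hGal1 hGal0 hGal1M hGal0M hTr0 hTr1 h11 h10M hF (q ^ j)
    (by
      rw [IsGalois.card_fixingSubgroup_eq_finrank L]
      exact Nat.Coprime.pow_right j hcop2.symm)
    (fun x hx => by
      obtain ⟨x', h1, h2⟩ := hD' j x hx
      refine ⟨x', h1, ?_⟩
      rw [← zpow_natCast] at h2
      exact h2)
    hdep
    (fun z hz h hh => by
      refine hHt z ?_ h hh
      rw [← zpow_natCast]
      exact hz)
    e (Nat.Coprime.pow_right j hecop.symm) hN2
    (Additive.ofMul x) (by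
      rw [← zpow_natCast] at hx
      exact hx)
  obtain ⟨x', h1, h2⟩ := key
  refine ⟨Additive.toMul x', h1, ?_⟩
  rw [← zpow_natCast]
  exact h2

end core2

/-- the assembly -/
theorem main2_of (hE : Pool.Agent.Helper40.Nm.EXT) (hFGA : Pool.Agent.Helper40.Nm.FGA)
    (hEX : EXTS) (hCO : COMPG) (hRE : REDS) (hFI : FINS) (hDV : DIVL) (hTX : TREX) (hTR1 : TR1)
    (hTR2 : TR2) (hG : GAL) (hGC : GALC) (hBR : BASER) (hBC : BASEC) (hFTR : FTR) (hA1 : ARI1)
    (hA2 : ARI2) (hFE : FEXT) : MAIN2 := by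
  intro O K N _ _ _ _ _ _ _ _ _ _ _ _ _ _ L M N1 _ _ _ RL RM RN _ _ _ _ _ _ _ _ _ _ _ _ _ _ _
    _ _ _ _ _ _ X _ _ 𝒢L 𝒢M 𝒢N a hMN ha hcop1 hcop2 hdeg hD hD2 hT hH hF g act φ hφ hφL hφ1 hφs
  have : IsScalarTower O L N := IsScalarTower.of_algebraMap_eq fun _ => rfl
  have : IsScalarTower O M N := IsScalarTower.of_algebraMap_eq fun _ => rfl
  have : IsScalarTower O N1 N := IsScalarTower.of_algebraMap_eq fun _ => rfl
  obtain ⟨R1, _, _, _, _, _, _⟩ : ∃ (R1 : Type) (_ : CommRing R1) (_ : IsDomain R1)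
      (_ : Algebra O R1) (_ : Algebra R1 N1) (_ : IsScalarTower O R1 N1),
      IsIntegralClosure R1 O N1 :=
    ⟨integralClosure O N1, inferInstance, inferInstance, inferInstance, inferInstance,
      inferInstance, inferInstance⟩
  obtain ⟨hfrL, -, -, hdL, hcplL, hacL, -, -, -⟩ := hE O K RL L
  obtain ⟨hfrM, -, -, hdM, hcplM, hacM, hlhM, -, -⟩ := hE O K RM M
  obtain ⟨hfrN, -, -, hdN, hcplN, hacN, -, -, -⟩ := hE O K RN N
  obtain ⟨hfr1, -, -, hd1, hcpl1, hac1, hlh1, -, -⟩ := hE O K R1 N1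
  let _ : Algebra RL N := ((algebraMap L N).comp (algebraMap RL L)).toAlgebra
  let _ : Algebra RM N := ((algebraMap M N).comp (algebraMap RM M)).toAlgebra
  let _ : Algebra R1 N := ((algebraMap N1 N).comp (algebraMap R1 N1)).toAlgebra
  have : IsScalarTower RL L N := IsScalarTower.of_algebraMap_eq' rfl
  have : IsScalarTower RM M N := IsScalarTower.of_algebraMap_eq' rfl
  have : IsScalarTower R1 N1 N := IsScalarTower.of_algebraMap_eq' rfl
  have : IsScalarTower O RL N := by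
    refine IsScalarTower.of_algebraMap_eq fun x => ?_
    rw [IsScalarTower.algebraMap_apply RL L N, ← IsScalarTower.algebraMap_apply O RL L,
      ← IsScalarTower.algebraMap_apply O L N]
  have : IsScalarTower O RM N := by
    refine IsScalarTower.of_algebraMap_eq fun x => ?_
    rw [IsScalarTower.algebraMap_apply RM M N, ← IsScalarTower.algebraMap_apply O RM M,
      ← IsScalarTower.algebraMap_apply O M N]
  have : IsScalarTower O R1 N := by
    refine IsScalarTower.of_algebraMap_eq fun x => ?_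
    rw [IsScalarTower.algebraMap_apply R1 N1 N, ← IsScalarTower.algebraMap_apply O R1 N1,
      ← IsScalarTower.algebraMap_apply O N1 N]
  have : Algebra.IsIntegral O RL := IsIntegralClosure.isIntegral_algebra O L
  have : Algebra.IsIntegral O RM := IsIntegralClosure.isIntegral_algebra O M
  have : Algebra.IsIntegral O R1 := IsIntegralClosure.isIntegral_algebra O N1
  let fL : RL →ₐ[O] RN := IsIntegralClosure.lift O RN N
  let fM : RM →ₐ[O] RN := IsIntegralClosure.lift O RN N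
  let f1 : R1 →ₐ[O] RN := IsIntegralClosure.lift O RN N
  let _ : Algebra RL RN := fL.toRingHom.toAlgebra
  let _ : Algebra RM RN := fM.toRingHom.toAlgebra
  let _ : Algebra R1 RN := f1.toRingHom.toAlgebra
  have : IsScalarTower RL RN N := IsScalarTower.of_algebraMap_eq fun x =>
    (IsIntegralClosure.algebraMap_lift O RN N x).symm
  have : IsScalarTower RM RN N := IsScalarTower.of_algebraMap_eq fun x =>
    (IsIntegralClosure.algebraMap_lift O RN N x).symm
  have : IsScalarTower R1 RN N := IsScalarTower.of_algebraMap_eq fun x =>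
    (IsIntegralClosure.algebraMap_lift O RN N x).symm
  have : IsScalarTower O R1 RN := IsScalarTower.of_algebraMap_eq fun x =>
    (f1.commutes x).symm
  have : IsIntegralClosure RN RL N := IsIntegralClosure.tower_top (R := O)
  have : IsIntegralClosure RN RM N := IsIntegralClosure.tower_top (R := O)
  have : IsIntegralClosure RN R1 N := IsIntegralClosure.tower_top (R := O)
  have : FaithfulSMul RN N := (faithfulSMul_iff_algebraMap_injective RN N).2
    (IsIntegralClosure.algebraMap_injective RN O N)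
  obtain ⟨-, -, -, hd1, -, -, -, -, hramL⟩ := hE RL L RN N
  obtain ⟨-, hfin, hfree, hd2, -, -, hlh, hres, hramM⟩ := hE RM M RN N
  have hle : (IsLocalRing.maximalIdeal RL).map (algebraMap RL RN) ≤
      (IsLocalRing.maximalIdeal RM).map (algebraMap RM RN) := by
    rw [hramL, hramM]
    apply Ideal.pow_le_pow_right
    have h1 := Module.finrank_mul_finrank K L N
    have h2 := Module.finrank_mul_finrank K M N
    have h3 : 0 < Module.finrank K M := Module.finrank_pos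
    rw [← h1] at h2
    by_contra hlt
    push Not at hlt
    have h4 : Module.finrank K L * Module.finrank L N < Module.finrank K M * Module.finrank M N :=
      calc Module.finrank K L * Module.finrank L N ≤ Module.finrank K M * Module.finrank L N :=
            Nat.mul_le_mul_right _ hdeg
        _ < _ := Nat.mul_lt_mul_of_pos_left hlt h3
    omega
  refine core_split hCO hRE hFI hDV hFGA 𝒢M hF ?_
  intro l j x hl h0 hx
  have _ : Fact l.Prime := ⟨hl⟩
  have h0O : (l : IsLocalRing.ResidueField O) = 0 := by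
    apply (IsLocalRing.ResidueField.map (algebraMap O RM)).injective
    rw [map_natCast, map_zero]
    exact h0
  have hlq : ringExpChar (IsLocalRing.ResidueField O) = l := by
    have : CharP (IsLocalRing.ResidueField O) l := (CharP.charP_iff_prime_eq_zero hl).2 h0O
    exact ringExpChar.eq _ _
  have hl1 : ringExpChar (IsLocalRing.ResidueField R1) = l := by
    have h1 : (l : IsLocalRing.ResidueField R1) = 0 := by
      have h2 := congrArg (IsLocalRing.ResidueField.map (algebraMap O R1)) h0O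
      rw [map_natCast, map_zero] at h2
      exact h2
    have : CharP (IsLocalRing.ResidueField R1) l := (CharP.charP_iff_prime_eq_zero hl).2 h1
    exact ringExpChar.eq _ _
  have hcpM : CharP (IsLocalRing.ResidueField RM) l := (CharP.charP_iff_prime_eq_zero hl).2 h0
  rw [hlq] at ha hcop1 hcop2 hD hD2 hH
  refine core_w (R1 := R1) hCO hRE hDV hTX hTR1 hTR2 hG hGC hBR hBC hFTR hA1 hA2 hFE 𝒢L 𝒢M 𝒢N
    hres ⟨_, hramM.ge⟩ hle ?_ ?_ l a hMN ha hl1 ?_ hcop1 hcop2 hD hD2 ?_ ?_ act φ hφ ?_ ?_ ?_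
    j x hx
  · intro σ
    exact ⟨(galRestrict O K N RN σ).toRingEquiv, fun s => algebraMap_galRestrict_apply O σ s⟩
  · intro σ
    exact ⟨(galRestrict O K M RM σ).toRingEquiv, fun s => algebraMap_galRestrict_apply O σ s⟩
  · intro n hn h
    rw [CharP.cast_eq_zero_iff (IsLocalRing.ResidueField RM) l] at h
    exact hl.one_lt.ne' (Nat.Coprime.eq_one_of_dvd hn h)
  · intro y hy
    exact hT y (sec 𝒢L y) (sec 𝒢N _) ((hEX K RL L X 𝒢L y _).2 rfl)
      ((hEX K RN N X 𝒢N _ _).2 rfl) hy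
  · intro b j hb
    obtain ⟨y, t, h1, h2⟩ := hH b j hb
    refine ⟨y, ?_⟩
    rw [(hEX K RN N X 𝒢N _ _).1 h1]
    exact h2
  · intro γ f f' hγ hff
    obtain ⟨γ', rfl⟩ : ∃ γ' : N ≃ₐ[L] N, γ'.restrictScalars K = γ :=
      ⟨L.fixingSubgroupEquiv ⟨γ, hγ⟩, rfl⟩
    exact hφL γ' f f' hff
  · intro f
    obtain ⟨t, h1, h2⟩ := hφ1 f
    rw [mem_P1, (hEX K RN N X 𝒢N _ _).1 h1]
    exact h2
  · intro z hz hinv
    obtain ⟨f, h1, h2⟩ := hφs z (sec 𝒢N z) ((hEX K RN N X 𝒢N _ _).2 rfl) hz hinv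
    refine ⟨f, h1, fun γ w => ?_⟩
    apply Units.ext
    exact (h2 γ w).symm

end Pool.Agent.Helper50.Tm
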