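import Pool.Agent.Helper50.Tm.All
import Pool.Agent.Helper50.Tm.Main2
import Pool.Agent.Helper50.Tm.Dens1
import Pool.Agent.Helper50.Tm.Defs2
import Pool.Agent.Helper2.Tm.CHARTV
import Pool.Agent.Helper87.Tm.CST
import Pool.Agent.Helper26.Tm.FTR
import Pool.Agent.Helper64.Tm.ADJ
import Pool.Agent.Helper57.Tm.ARI1
import Pool.Agent.Helper93.Tm.ARI2
import Pool.Agent.Helper40.Tm.FEXT
import Pool.Agent.Helper37.Tm.GALC

/-!
The unconditional second main statement.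
-/

open CategoryTheory MonoidalCategory

namespace Pool.Agent.Helper50.Tm

theorem main2_all : MAIN2 := by
  have hDENS : DENS := gDENS'
  have hGALC : GALC := Helper37.Tm.gGALC
  have hOPN : OPN := gOPN'
  have hDESC : DESC := gDESC'
  have hSTK : STK := Helper30.Tm.gSTK Helper28.Tm.gKRU (Helper77.Tm.gDUAL Helper24.Tm.gEHP)
  have hCHART : CHART := Helper45.Tm.gCHART
  have hTREX : TREX := Helper24.Tm.gTREX hDESC
  have hNORM : NORM := Helper76.Tm.gNORM (Helper30.Tm.gNORMP hDESC)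
  exact main2_of Helper40.Nm.extT Helper45.Nm.fga Helper5.Tm.gEXTS Helper69.Tm.gCOMPG
    Helper37.Tm.gREDS (Helper24.Tm.gFINS Helper37.Tm.gREDS)
    (Helper9.Tm.gDIVL Helper3.Tm.gNBH Helper83.Tm.gLOC Helper69.Tm.gCOMPG Helper37.Tm.gREDS
      hSTK hOPN) hTREX
    (Helper42.Tm.gTR1 Helper3.Tm.gNBH Helper83.Tm.gLOC Helper69.Tm.gCOMPG hCHART
      Helper87.Tm.gWEILE Helper4.Tm.gWEILS (Helper70.Tm.gCONN Helper15.Tm.gLINE) hTREX hNORM)
    (Helper49.Tm.gTR2 hCHART Helper87.Tm.gWEILE Helper4.Tm.gWEILS hTREX hNORM)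
    Helper48.Tm.gGAL hGALC (Helper7.Tm.gBASER Helper98.Tm.gBASE)
    (Helper14.Tm.gBASEC Helper98.Tm.gBASE)
    (Helper26.Tm.gFTR Helper3.Tm.gNBH Helper83.Tm.gLOC Helper69.Tm.gCOMPG Helper2.Tm.gCHARTV
      Helper87.Tm.gWEILE Helper4.Tm.gWEILS hTREX hNORM hDENS (Helper87.Tm.gCST Helper3.Tm.gNBH))
    (Helper57.Tm.gARI1 Helper64.Tm.gADJ) (Helper93.Tm.gARI2 Helper64.Tm.gADJ)
    Helper40.Tm.gFEXT

/-- The final form. -/
theorem wild_all (O K N : Type) [CommRing O] [IsDomain O] [IsDiscreteValuationRing O]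
    [IsAdicComplete (IsLocalRing.maximalIdeal O) O] [IsAlgClosed (IsLocalRing.ResidueField O)]
    [Field K] [Algebra O K] [IsFractionRing O K]
    [Field N] [Algebra K N] [Algebra O N] [IsScalarTower O K N]
    [FiniteDimensional K N] [IsGalois K N] (L M N1 : IntermediateField K N)
    [IsGalois K L] [IsGalois K M] [IsGalois K N1]
    (RL RM RN : Type)
    [CommRing RL] [IsDomain RL] [IsDiscreteValuationRing RL] [Algebra O RL] [Algebra RL L]
    [IsScalarTower O RL L] [IsIntegralClosure RL O L]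
    [CommRing RM] [IsDomain RM] [IsDiscreteValuationRing RM] [Algebra O RM] [Algebra RM M]
    [IsScalarTower O RM M] [IsIntegralClosure RM O M]
    [CommRing RN] [IsDomain RN] [IsDiscreteValuationRing RN] [Algebra O RN] [Algebra RN N]
    [IsScalarTower O RN N] [IsIntegralClosure RN O N]
    (X : Over (AlgebraicGeometry.Spec (CommRingCat.of K))) [GrpObj X] [IsCommMonObj X]
    (𝒢L : NeronModel K RL L X) (𝒢M : NeronModel K RM M X) (𝒢N : NeronModel K RN N X)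
    (p a : ℕ) (hp : ringExpChar (IsLocalRing.ResidueField O) = p)
    (hMN : M ≤ N1) (hN1 : Module.finrank N1 N = p ^ a)
    (hKN1 : p.Coprime (Module.finrank K N1)) (hLN : p.Coprime (Module.finrank L N))
    (hdeg : Module.finrank K L ≤ Module.finrank K M)
    (hD : DivFin 𝒢N.G p)
    (hT : ∀ y : Pts X L, 𝒢N.Reduces (y.map (IsScalarTower.toAlgHom K L N)) 1 → 𝒢L.Reduces y 1)
    (hH : ∀ (b : Pts 𝒢N.G (IsLocalRing.ResidueField RN)) (j : ℕ), b ^ p ^ j = 1 →
      ∃ y : Pts X L, 𝒢N.Reduces (y.map (IsScalarTower.toAlgHom K L N)) b)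
    (hF : FGComponents 𝒢M.G) (hMT : MultType L N1 𝒢N) :
    SplitReduction 𝒢M.G := by
  subst hp
  obtain ⟨g, A, φ, hA1, hAm, hAa, hφm, h1, h2, h3, h4⟩ := hMT
  have hEX : EXTS := Helper5.Tm.gEXTS
  -- the homomorphisms
  have hU : ∀ f : Multiplicative (Fin g → ℤ) →* U1 RN,
      IsUHom (fun x => (f (Multiplicative.ofAdd x) : RNˣ)) := by
    intro f
    exact ⟨fun x y => congrArg (Subtype.val (p := fun u => u ∈ U1 RN))
      (map_mul f (Multiplicative.ofAdd x) (Multiplicative.ofAdd y)),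
      fun x => (mem_U1 _).1 (f (Multiplicative.ofAdd x)).2⟩
  have hU' : ∀ f : (Fin g → ℤ) → RNˣ, IsUHom f →
      ∃ f' : Multiplicative (Fin g → ℤ) →* U1 RN, f = fun x => (f' (Multiplicative.ofAdd x) : RNˣ) := by
    intro f hf
    refine ⟨MonoidHom.mk' (fun x => ⟨f (Multiplicative.toAdd x), (mem_U1 _).2 (hf.2 _)⟩)
      (fun x y => Subtype.ext (hf.1 _ _)), rfl⟩
  let φ' : (Multiplicative (Fin g → ℤ) →* U1 RN) →* Pts X N :=
    MonoidHom.mk' (fun f => φ fun x => (f (Multiplicative.ofAdd x) : RNˣ))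
      (fun f f' => hφm _ _ (hU f) (hU f'))
  -- the action
  have hmem : ∀ γ : N ≃ₐ[N1] N, γ.restrictScalars K ∈ N1.fixingSubgroup := by
    intro γ
    rw [IntermediateField.mem_fixingSubgroup_iff]
    intro z hz
    exact γ.commutes ⟨z, hz⟩
  let act' : (N ≃ₐ[N1] N) →* AddMonoid.End (Fin g → ℤ) :=
    { toFun := fun γ => AddMonoidHom.mk' (A (γ.restrictScalars K)) (hAa _ (hmem γ))
      map_one' := AddMonoidHom.ext fun x => hA1 x
      map_mul' := fun γ γ' => AddMonoidHom.ext fun x => hAm _ (hmem γ) _ (hmem γ') x }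
  have hact : ∀ (γ : N ≃ₐ[N1] N) x, act' γ x = A (γ.restrictScalars K) x := fun γ x => rfl
  have hinv : ∀ γ : N ≃ₐ[N1] N, γ⁻¹.restrictScalars K = (γ.restrictScalars K)⁻¹ := fun γ => rfl
  refine main2_all O K N L M N1 RL RM RN X 𝒢L 𝒢M 𝒢N a hMN hN1 hKN1 hLN hdeg hD.1 hD.2 ?_ ?_ hF g
    act' φ' ?_ ?_ (fun f => h3 _ (hU f)) ?_
  · intro y s t hs ht ht1
    obtain ⟨s', hs', hs1⟩ := hT y ⟨t, ht, ht1⟩
    rw [← (hEX K RL L X 𝒢L y s).1 hs, (hEX K RL L X 𝒢L y s').1 hs']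
    exact hs1
  · intro b j hb
    obtain ⟨y, t, h5, h6⟩ := hH b j hb
    exact ⟨y, t, h5, h6⟩
  · intro γ f f' hff
    exact h1 (γ.restrictScalars K) (hmem γ) _ _ (hU f) (hU f') fun x => hff x
  · intro γ f f' hff
    refine h2 (γ.restrictScalars K) ?_ _ _ (hU f) (hU f') fun x => hff x
    rw [IntermediateField.mem_fixingSubgroup_iff]
    intro z hz
    exact γ.commutes ⟨z, hz⟩
  · intro x t ht ht1 hxinv
    obtain ⟨f, hf, h5, h6⟩ := h4 x ⟨t, ht, ht1⟩
      (fun γ hγ => hxinv (IntermediateField.fixingSubgroupEquiv N1 ⟨γ, hγ⟩))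
    obtain ⟨f', rfl⟩ := hU' f hf
    refine ⟨f', h5, fun γ z => ?_⟩
    have h7 := h6 (γ.restrictScalars K) (hmem γ) (act' γ z)
    have h8 : A (γ.restrictScalars K)⁻¹ (act' γ z) = z := by
      rw [hact, ← hAm _ (inv_mem (hmem γ)) _ (hmem γ), inv_mul_cancel, hA1]
    rw [h8] at h7
    exact h7

end Pool.Agent.Helper50.Tm
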