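import Pool.Agent.Helper50.Tm.Defs

/-!
Basic facts on points of group schemes and Neron models.
-/

open CategoryTheory AlgebraicGeometry Limits TensorProduct MonoidalCategory
open scoped Obj

namespace Pool.Agent.Helper50.Tm

open Pool.Agent.Helper40.Nm (specOver homGroup specialFibre)

section Pts

variable {R : Type} [CommRing R] {G : Over (Spec (CommRingCat.of R))}
  {A A' A'' : Type} [CommRing A] [Algebra R A] [CommRing A'] [Algebra R A'] [CommRing A'']
  [Algebra R A'']

theorem specMap_left (f : A →ₐ[R] A') :
    (specMap f).left = Spec.map (CommRingCat.ofHom f.toRingHom) := rfl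

theorem Pts.map_left (f : A →ₐ[R] A') (x : Pts G A) :
    (x.map f).left = Spec.map (CommRingCat.ofHom f.toRingHom) ≫ x.left := rfl

theorem specMap_comp (f : A →ₐ[R] A') (g : A' →ₐ[R] A'') :
    specMap (g.comp f) = specMap g ≫ specMap f := by
  apply Over.OverMorphism.ext
  change Spec.map (CommRingCat.ofHom ((g.toRingHom).comp f.toRingHom)) = _
  rw [CommRingCat.ofHom_comp, Spec.map_comp]
  rfl

theorem specMap_id : specMap (AlgHom.id R A) = 𝟙 _ := by
  apply Over.OverMorphism.ext
  change Spec.map (CommRingCat.ofHom (RingHom.id A)) = _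
  exact Spec.map_id _

theorem Pts.map_comp (f : A →ₐ[R] A') (g : A' →ₐ[R] A'') (x : Pts G A) :
    x.map (g.comp f) = (x.map f).map g := by
  simp only [Pts.map, specMap_comp, Category.assoc]

theorem Pts.map_id (x : Pts G A) : x.map (AlgHom.id R A) = x := by
  simp only [Pts.map, specMap_id, Category.id_comp]

variable [GrpObj G]

theorem Pts.map_mul (f : A →ₐ[R] A') (x y : Pts G A) : (x * y).map f = x.map f * y.map f := by
  exact MonObj.comp_mul _ _ _

theorem Pts.map_one (f : A →ₐ[R] A') : (1 : Pts G A).map f = 1 := by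
  exact MonObj.comp_one _

/-- `Pts.map` as a homomorphism. -/
noncomputable def Pts.mapHom (f : A →ₐ[R] A') : Pts G A →* Pts G A' where
  toFun x := x.map f
  map_one' := Pts.map_one f
  map_mul' := Pts.map_mul f

theorem Pts.mapHom_apply (f : A →ₐ[R] A') (x : Pts G A) : Pts.mapHom f x = x.map f := rfl

/-- for a commutative group scheme the groups of points are commutative -/
theorem Pts.mul_comm [IsCommMonObj G] (x y : Pts G A) : x * y = y * x := by
  have h := CartesianMonoidalCategory.lift y x ≫= IsCommMonObj.mul_comm G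
  rw [← Category.assoc, CartesianMonoidalCategory.lift_braiding_hom] at h
  exact h

/-- the groups of points of a commutative group scheme -/
noncomputable instance ptsComm [IsCommMonObj G] : CommGroup (SpecA R A ⟶ G) :=
  { homGroup (SpecA R A) G with mul_comm := Pts.mul_comm }

end Pts

section local_ring

variable {R : Type} [CommRing R] [IsLocalRing R] {G : Over (Spec (CommRingCat.of R))}

/-- the reduction of a section -/
noncomputable def redk (s : Pts G R) : Pts G (IsLocalRing.ResidueField R) :=
  s.map (Algebra.ofId R (IsLocalRing.ResidueField R))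

/-- the point of the special fibre given by a section -/
noncomputable def cpt (s : Pts G R) : G.left :=
  s.left (IsLocalRing.closedPoint R)

/-- `s` and `s'` reduce to points of the same connected component of the special fibre -/
def SameComp (s s' : Pts G R) : Prop :=
  cpt s' ∈ connectedComponentIn (specialFibre G) (cpt s)

end local_ring

section bc

variable {R M : Type} [CommRing R] [CommRing M] [Algebra R M]
  (Y : Over (Spec (CommRingCat.of R))) {C C' : Type} [CommRing C] [Algebra R C] [Algebra M C]
  [IsScalarTower R M C] [CommRing C'] [Algebra R C'] [Algebra M C'] [IsScalarTower R M C']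

theorem spec_tower (R M C : Type) [CommRing R] [CommRing M] [CommRing C] [Algebra R M]
    [Algebra R C] [Algebra M C] [IsScalarTower R M C] :
    Spec.map (CommRingCat.ofHom (algebraMap R C)) =
      Spec.map (CommRingCat.ofHom (algebraMap M C)) ≫
        Spec.map (CommRingCat.ofHom (algebraMap R M)) := by
  rw [← Spec.map_comp, ← CommRingCat.ofHom_comp, ← IsScalarTower.algebraMap_eq R M C]

/-- Points of the base change. -/
noncomputable def bcEquiv : Pts Y C ≃ Pts ((bc R M).obj Y) C where
  toFun x := Over.homMk (U := SpecA M C) (V := (bc R M).obj Y)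
    (pullback.lift x.left (Spec.map (CommRingCat.ofHom (algebraMap M C))) (by
      rw [← spec_tower R M C]
      exact Over.w x)) (by
      exact pullback.lift_snd _ _ _)
  invFun z := Over.homMk (U := SpecA R C) (V := Y) (z.left ≫ pullback.fst _ _) (by
    rw [Category.assoc, pullback.condition, ← Category.assoc]
    have h : z.left ≫ pullback.snd _ _ = Spec.map (CommRingCat.ofHom (algebraMap M C)) := Over.w z
    rw [h]
    exact (spec_tower R M C).symm)
  left_inv x := by
    apply Over.OverMorphism.ext
    exact pullback.lift_fst _ _ _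
  right_inv z := by
    apply Over.OverMorphism.ext
    apply pullback.hom_ext
    · exact pullback.lift_fst _ _ _
    · refine (pullback.lift_snd _ _ _).trans ?_
      exact (Over.w z).symm

theorem bcEquiv_left_fst (x : Pts Y C) :
    (bcEquiv (M := M) Y x).left ≫ pullback.fst _ _ = x.left :=
  pullback.lift_fst _ _ _

theorem bcEquiv_symm_left (z : Pts ((bc R M).obj Y) C) :
    ((bcEquiv (M := M) Y).symm z).left = z.left ≫ pullback.fst _ _ := rfl

theorem bcEquiv_eq (x : Pts Y C) :
    bcEquiv (M := M) Y x = bcEquiv (M := M) (SpecA R C) (𝟙 _) ≫ (bc R M).map x := by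
  apply Over.OverMorphism.ext
  apply pullback.hom_ext
  · rw [bcEquiv_left_fst, Over.comp_left, Category.assoc]
    have h : ((bc R M).map x).left ≫ pullback.fst _ _ = pullback.fst _ _ ≫ x.left := by
      exact pullback.lift_fst _ _ _
    rw [h, ← Category.assoc, bcEquiv_left_fst]
    exact (Category.id_comp _).symm
  · have h1 := Over.w (bcEquiv (M := M) Y x)
    have h2 := Over.w (bcEquiv (M := M) (SpecA R C) (𝟙 _) ≫ (bc R M).map x)
    exact h1.trans h2.symm

theorem bcEquiv_mul [GrpObj Y] (x y : Pts Y C) :
    bcEquiv (M := M) Y (x * y) = bcEquiv Y x * bcEquiv Y y := by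
  rw [bcEquiv_eq Y (x * y), bcEquiv_eq Y x, bcEquiv_eq Y y]
  rw [Functor.map_mul]
  exact MonObj.comp_mul _ _ _

theorem bcEquiv_map (f : C →ₐ[M] C') (f' : C →ₐ[R] C') (h : ∀ c, f c = f' c) (x : Pts Y C) :
    bcEquiv (M := M) Y (x.map f') = (bcEquiv Y x).map f := by
  apply Over.OverMorphism.ext
  apply pullback.hom_ext
  · rw [bcEquiv_left_fst]
    change _ = (Spec.map _ ≫ _) ≫ _
    rw [Category.assoc, bcEquiv_left_fst]
    rw [Pts.map_left]
    have : f'.toRingHom = f.toRingHom := by
      ext c
      exact (h c).symm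
    rw [this]
  · exact (Over.w (bcEquiv (M := M) Y (x.map f'))).trans (Over.w ((bcEquiv Y x).map f)).symm

end bc

section can

/-- the point of `Spec A ×_R M` with values in `C` -/
noncomputable def canPt (R M A C : Type) [CommRing R] [CommRing M] [Algebra R M] [CommRing A]
    [Algebra R A] [CommRing C] [Algebra R C] [Algebra M C] [Algebra A C] [IsScalarTower R M C]
    [IsScalarTower R A C] : SpecA M C ⟶ (bc R M).obj (SpecA R A) :=
  bcEquiv (M := M) (SpecA R A) (specMap (IsScalarTower.toAlgHom R A C))

instance isIso_canPt (R M A C : Type) [CommRing R] [CommRing M] [Algebra R M] [CommRing A]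
    [Algebra R A] [CommRing C] [Algebra R C] [Algebra M C] [Algebra A C] [IsScalarTower R M C]
    [IsScalarTower R A C] [Algebra.IsPushout R M A C] : IsIso (canPt R M A C) := by
  have h1 : IsPushout (CommRingCat.ofHom (algebraMap R M)) (CommRingCat.ofHom (algebraMap R A))
    (CommRingCat.ofHom (algebraMap M C)) (CommRingCat.ofHom (algebraMap A C)) :=
    CommRingCat.isPushout_of_isPushout R M A C
  have h2 := (isPullback_SpecMap_of_isPushout _ _ _ _ h1).flip
  have h3 : IsIso (canPt R M A C).left := by
    have : (canPt R M A C).left = h2.isoPullback.hom := by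
      apply pullback.hom_ext
      · rw [canPt, bcEquiv_left_fst]
        exact h2.isoPullback_hom_fst.symm
      · exact (Over.w (canPt R M A C)).trans h2.isoPullback_hom_snd.symm
    rw [this]
    infer_instance
  have h4 : (canPt R M A C) = (Over.isoMk (asIso (canPt R M A C).left) (Over.w _)).hom := rfl
  rw [h4]
  infer_instance

end can

section gen

variable {K R M : Type} [Field K] [CommRing R] [Field M] [Algebra K M] [Algebra R M]
  {X : Over (Spec (CommRingCat.of K))} [GrpObj X] (𝒢 : NeronModel K R M X)
  {C C' : Type} [CommRing C] [Algebra K C] [Algebra R C] [Algebra M C]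
  [IsScalarTower R M C] [IsScalarTower K M C]
  [CommRing C'] [Algebra K C'] [Algebra R C'] [Algebra M C']
  [IsScalarTower R M C'] [IsScalarTower K M C']

/-- For an `M`-algebra `C` the `C`-valued points of the Neron model are the `C`-valued points
of `X`. -/
noncomputable def gen : Pts 𝒢.G C ≃* Pts X C where
  toFun x := (bcEquiv (M := M) X).symm (bcEquiv (M := M) 𝒢.G x ≫ 𝒢.iso.hom)
  invFun y := (bcEquiv (M := M) 𝒢.G).symm (bcEquiv (M := M) X y ≫ 𝒢.iso.inv)
  left_inv x := by
    dsimp only
    rw [Equiv.apply_symm_apply, Category.assoc, Iso.hom_inv_id, Category.comp_id,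
      Equiv.symm_apply_apply]
  right_inv y := by
    dsimp only
    rw [Equiv.apply_symm_apply, Category.assoc, Iso.inv_hom_id, Category.comp_id,
      Equiv.symm_apply_apply]
  map_mul' x y := by
    rw [Equiv.symm_apply_eq, bcEquiv_mul, bcEquiv_mul, Equiv.apply_symm_apply,
      Equiv.apply_symm_apply]
    exact (IsMonHom.monoidHom 𝒢.iso.hom _).map_mul _ _

theorem gen_apply (x : Pts 𝒢.G C) :
    gen 𝒢 x = (bcEquiv (M := M) X).symm (bcEquiv (M := M) 𝒢.G x ≫ 𝒢.iso.hom) := rfl

theorem gen_map (f : C →ₐ[M] C') (f' : C →ₐ[R] C') (f'' : C →ₐ[K] C') (h' : ∀ c, f c = f' c)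
    (h'' : ∀ c, f c = f'' c) (x : Pts 𝒢.G C) : gen 𝒢 (x.map f') = (gen 𝒢 x).map f'' := by
  rw [gen_apply, Equiv.symm_apply_eq, bcEquiv_map X f f'' h'', gen_apply, Equiv.apply_symm_apply,
    bcEquiv_map 𝒢.G f f' h']
  exact Category.assoc _ _ _

theorem smooth_specA (R A : Type) [CommRing R] [CommRing A] [Algebra R A] [Algebra.Smooth R A] :
    Smooth (SpecA R A).hom := by
  change Smooth (Spec.map (CommRingCat.ofHom (algebraMap R A)))
  rw [HasRingHomProperty.Spec_iff (P := @Smooth)]
  exact (RingHom.smooth_algebraMap).mpr inferInstance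

/-- The Neron mapping property for affine smooth schemes. -/
theorem neron_affine (A : Type) [CommRing A] [Algebra R A] [Algebra.Smooth R A]
    [Algebra A C] [IsScalarTower R A C] [Algebra.IsPushout R M A C] :
    Function.Bijective (fun a : Pts 𝒢.G A =>
      gen 𝒢 (C := C) (a.map (IsScalarTower.toAlgHom R A C))) := by
  have hsm : Smooth (SpecA R A).hom := smooth_specA R A
  have h1 := 𝒢.neron (SpecA R A) hsm
  have h2 : (fun a : Pts 𝒢.G A => gen 𝒢 (C := C) (a.map (IsScalarTower.toAlgHom R A C))) =
      (bcEquiv (M := M) X).symm ∘ (fun z => canPt R M A C ≫ z) ∘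
        (fun v : SpecA R A ⟶ 𝒢.G => (bc R M).map v ≫ 𝒢.iso.hom) := by
    funext a
    rw [gen_apply]
    simp only [Function.comp_apply]
    congr 1
    rw [bcEquiv_eq, ← Category.assoc, canPt, Pts.map, Functor.map_comp, ← Category.assoc,
      ← bcEquiv_eq, Category.assoc]
  rw [h2]
  refine (Equiv.bijective _).comp (Function.Bijective.comp ?_ h1)
  exact ((asIso (canPt R M A C)).homFromEquiv).symm.bijective

/-- Sections of the Neron model are the `M`-valued points of `X`. -/
theorem sec_bijective :
    Function.Bijective (fun a : Pts 𝒢.G R => gen 𝒢 (C := M) (a.map (Algebra.ofId R M))) := by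
  have : Algebra.IsPushout R M R M := inferInstance
  exact neron_affine 𝒢 (C := M) R

/-- The section of the Neron model which extends an `M`-valued point of `X`. -/
noncomputable def sec : Pts X M ≃* Pts 𝒢.G R :=
  (MulEquiv.ofBijective (((gen 𝒢 (C := M)).toMonoidHom).comp (Pts.mapHom (Algebra.ofId R M)))
    (sec_bijective 𝒢)).symm

theorem gen_sec (x : Pts X M) : gen 𝒢 (C := M) ((sec 𝒢 x).map (Algebra.ofId R M)) = x :=
  (MulEquiv.ofBijective (((gen 𝒢 (C := M)).toMonoidHom).comp (Pts.mapHom (Algebra.ofId R M)))
    (sec_bijective 𝒢)).apply_symm_apply x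

theorem sec_eq_iff (x : Pts X M) (s : Pts 𝒢.G R) :
    sec 𝒢 x = s ↔ gen 𝒢 (C := M) (s.map (Algebra.ofId R M)) = x := by
  constructor
  · rintro rfl
    exact gen_sec 𝒢 x
  · intro h
    apply (sec_bijective 𝒢).1
    change gen 𝒢 (C := M) ((sec 𝒢 x).map (Algebra.ofId R M)) = _
    rw [gen_sec, ← h]

end gen

end Pool.Agent.Helper50.Tm
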