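import Pool.Agent.Helper40.Nm.Defs

/-!
Neron lft models of group schemes and split reduction (MP_f619a5_ag).
-/

open CategoryTheory AlgebraicGeometry Limits TensorProduct MonoidalCategory
open scoped Obj

namespace Pool.Agent.Helper50.Tm

open Pool.Agent.Helper40.Nm (specOver homGroup specialFibre)

/-- `Spec A` as a scheme over `Spec R`, for an `R`-algebra `A`. -/
noncomputable abbrev SpecA (R A : Type) [CommRing R] [CommRing A] [Algebra R A] :
    Over (Spec (CommRingCat.of R)) :=
  specOver (algebraMap R A)

/-- The set of `A`-valued points of the `R`-scheme `G`, for an `R`-algebra `A`. -/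
abbrev Pts {R : Type} [CommRing R] (G : Over (Spec (CommRingCat.of R))) (A : Type) [CommRing A]
    [Algebra R A] : Type :=
  SpecA R A ⟶ G

/-- The morphism `Spec A' → Spec A` of `R`-schemes given by a homomorphism `A → A'` of
`R`-algebras. -/
noncomputable def specMap {R A A' : Type} [CommRing R] [CommRing A] [Algebra R A] [CommRing A']
    [Algebra R A'] (f : A →ₐ[R] A') : SpecA R A' ⟶ SpecA R A :=
  Over.homMk (U := SpecA R A') (V := SpecA R A) (Spec.map (CommRingCat.ofHom f.toRingHom)) (by
    have h : (f.toRingHom.comp (algebraMap R A)) = algebraMap R A' := f.comp_algebraMap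
    change _ ≫ Spec.map (CommRingCat.ofHom (algebraMap R A)) =
      Spec.map (CommRingCat.ofHom (algebraMap R A'))
    rw [← h, CommRingCat.ofHom_comp, Spec.map_comp])

/-- The `A'`-valued point attached to an `A`-valued point and a homomorphism `A → A'` of
`R`-algebras. -/
noncomputable def Pts.map {R : Type} [CommRing R] {G : Over (Spec (CommRingCat.of R))}
    {A A' : Type} [CommRing A] [Algebra R A] [CommRing A'] [Algebra R A'] (f : A →ₐ[R] A')
    (x : Pts G A) : Pts G A' :=
  specMap f ≫ x

/-- Base change of schemes along `R → M`. -/
noncomputable abbrev bc (R M : Type) [CommRing R] [CommRing M] [Algebra R M] :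
    Over (Spec (CommRingCat.of R)) ⥤ Over (Spec (CommRingCat.of M)) :=
  Over.pullback (Spec.map (CommRingCat.ofHom (algebraMap R M)))

/-- A Neron lft model over the domain `R` with fraction field `M` of the group scheme `X ×_K M`,
where `X` is a group scheme over a subfield `K` of `M`: a smooth separated group scheme `G` over
`R` with an isomorphism of group schemes `G ×_R M ≅ X ×_K M` such that for every smooth
`R`-scheme `T` every `M`-morphism `T ×_R M ⟶ X ×_K M` extends uniquely to an `R`-morphism
`T ⟶ G`. -/
structure NeronModel (K R M : Type) [Field K] [CommRing R] [Field M] [Algebra K M] [Algebra R M]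
    (X : Over (Spec (CommRingCat.of K))) [GrpObj X] where
  /-- the scheme -/
  G : Over (Spec (CommRingCat.of R))
  /-- its group law -/
  grp : GrpObj G
  smooth : Smooth G.hom
  separated : IsSeparated G.hom
  /-- the isomorphism of the generic fibres -/
  iso : (bc R M).obj G ≅ (bc K M).obj X
  isMonHom : IsMonHom iso.hom
  neron : ∀ T : Over (Spec (CommRingCat.of R)), Smooth T.hom →
    Function.Bijective (fun v : T ⟶ G => (bc R M).map v ≫ iso.hom)

attribute [instance] NeronModel.grp NeronModel.isMonHom

/-- The section `s` of the Neron model extends the `M`-valued point `x` of `X`: the `M`-valued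
point `z` of the generic fibre of `G` given by `s` corresponds to `x`. -/
def NeronModel.Extends {K R M : Type} [Field K] [CommRing R] [Field M] [Algebra K M]
    [Algebra R M] {X : Over (Spec (CommRingCat.of K))} [GrpObj X] (𝒢 : NeronModel K R M X)
    (x : Pts X M) (s : Pts 𝒢.G R) : Prop :=
  ∃ z : SpecA M M ⟶ (bc R M).obj 𝒢.G,
    z.left ≫ pullback.fst _ _ = Spec.map (CommRingCat.ofHom (algebraMap R M)) ≫ s.left ∧
    (z ≫ 𝒢.iso.hom).left ≫ pullback.fst _ _ = x.left

/-- `s` and `s'` lie in the same connected component of the special fibre, for points `s`, `s'`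
of `G` with values in the residue field. -/
def SameCompk {R : Type} [CommRing R] [IsLocalRing R] {G : Over (Spec (CommRingCat.of R))}
    (s s' : Pts G (IsLocalRing.ResidueField R)) : Prop :=
  s'.left (IsLocalRing.closedPoint (IsLocalRing.ResidueField R)) ∈
    connectedComponentIn (specialFibre G)
      (s.left (IsLocalRing.closedPoint (IsLocalRing.ResidueField R)))

/-- The group of connected components of the special fibre is finitely generated: there are
finitely many rational points of the special fibre such that the group generated by them meets
every connected component. -/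
def FGComponents {R : Type} [CommRing R] [IsLocalRing R] (G : Over (Spec (CommRingCat.of R)))
    [GrpObj G] : Prop :=
  ∃ F : Finset (Pts G (IsLocalRing.ResidueField R)), ∀ x ∈ specialFibre G,
    ∃ s ∈ Subgroup.closure (F : Set (Pts G (IsLocalRing.ResidueField R))),
      s.left (IsLocalRing.closedPoint (IsLocalRing.ResidueField R)) ∈
        connectedComponentIn (specialFibre G) x

/-- Split reduction (the residue field `k` of `R` being algebraically closed): there is a
subgroup `Λ` of the group `G(k)` of rational points of the special fibre which has
exactly one element in every connected component of the special fibre. -/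
def SplitReduction {R : Type} [CommRing R] [IsLocalRing R] (G : Over (Spec (CommRingCat.of R)))
    [GrpObj G] : Prop :=
  ∃ Λ : Subgroup (Pts G (IsLocalRing.ResidueField R)),
    ∀ x ∈ specialFibre G, ∃! s : Pts G (IsLocalRing.ResidueField R), s ∈ Λ ∧
      s.left (IsLocalRing.closedPoint (IsLocalRing.ResidueField R)) ∈
        connectedComponentIn (specialFibre G) x

end Pool.Agent.Helper50.Tm
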