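import Mathlib

/-!
Group theoretic lemmas, wild case.
-/

namespace Pool.Agent.Helper50.Tm

/-- Norms have finite index in the invariants of `A₀ / A₁`, divisible with finite torsion. -/
theorem fone' {G A : Type} [Group G] [Fintype G] [AddCommGroup A] [DistribMulAction G A]
    (A₀ A₁ : AddSubgroup A) (hs1 : ∀ (γ : G), ∀ a ∈ A₁, γ • a ∈ A₁)
    (hs0 : ∀ (γ : G), ∀ a ∈ A₀, γ • a ∈ A₀)
    (hd : ∀ a ∈ A₀, ∃ b ∈ A₀, a - Fintype.card G • b ∈ A₁)
    (ht : ∃ T : Finset A, ∀ a ∈ A₀, Fintype.card G • a ∈ A₁ → ∃ t ∈ T, a - t ∈ A₁) :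
    ∃ F : Finset A, ∀ w ∈ A₀, (∀ γ : G, γ • w - w ∈ A₁) →
      ∃ c ∈ F, ∃ y ∈ A₀, w - c - ∑ γ : G, γ • y ∈ A₁ := by
  classical
  obtain ⟨T, hT⟩ := ht
  obtain ⟨n, hn⟩ : ∃ n, n = Fintype.card G := ⟨_, rfl⟩
  rw [← hn] at hd hT
  have key : ∀ w ∈ A₀, (∀ γ : G, γ • w - w ∈ A₁) → ∃ τ : G → T, ∃ w' ∈ A₀, w - n • w' ∈ A₁ ∧
      ∀ γ : G, γ • w' - w' - τ γ ∈ A₁ := by
    intro w hw hinv
    obtain ⟨w', hw', h1⟩ := hd w hw
    have h2 : ∀ γ : G, ∃ t : T, γ • w' - w' - t ∈ A₁ := by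
      intro γ
      have h3 : n • (γ • w' - w') ∈ A₁ := by
        have h4 : n • (γ • w' - w') = (γ • w - w) - (γ • (w - n • w') - (w - n • w')) := by
          rw [smul_sub γ w, smul_sub n, smul_comm n γ w']
          abel
        rw [h4]
        exact A₁.sub_mem (hinv γ) (A₁.sub_mem (hs1 γ _ h1) h1)
      obtain ⟨t, ht, h5⟩ := hT _ (A₀.sub_mem (hs0 γ _ hw') hw') h3
      exact ⟨⟨t, ht⟩, h5⟩
    choose τ hτ using h2
    exact ⟨τ, w', hw', h1, hτ⟩
  let Q : (G → T) → A → Prop := fun τ w => ∃ w' ∈ A₀, w - n • w' ∈ A₁ ∧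
      ∀ γ : G, γ • w' - w' - τ γ ∈ A₁
  refine ⟨Finset.univ.image fun τ : G → T => if h : ∃ w, Q τ w then h.choose else 0, ?_⟩
  intro w hw hinv
  obtain ⟨τ, w', hw', h1, h2⟩ := key w hw hinv
  have hQ : ∃ w, Q τ w := ⟨w, w', hw', h1, h2⟩
  obtain ⟨c', hc', h3, h4⟩ := hQ.choose_spec
  refine ⟨hQ.choose, Finset.mem_image.2 ⟨τ, Finset.mem_univ _, dif_pos hQ⟩, w' - c',
    A₀.sub_mem hw' hc', ?_⟩
  have h5 : ∑ γ : G, γ • (w' - c') = n • (w' - c') +
      ∑ γ : G, ((γ • w' - w' - τ γ) - (γ • c' - c' - τ γ)) := by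
    have h6 : ∀ γ : G, γ • (w' - c') = (w' - c') +
        ((γ • w' - w' - τ γ) - (γ • c' - c' - τ γ)) := by
      intro γ
      rw [smul_sub]
      abel
    rw [Finset.sum_congr rfl fun γ _ => h6 γ, Finset.sum_add_distrib, Finset.sum_const,
      Finset.card_univ, hn]
  rw [h5]
  have h7 : w - hQ.choose - (n • (w' - c') +
      ∑ γ : G, ((γ • w' - w' - τ γ) - (γ • c' - c' - τ γ))) =
      (w - n • w') - (hQ.choose - n • c') -
        ∑ γ : G, ((γ • w' - w' - τ γ) - (γ • c' - c' - τ γ)) := by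
    rw [smul_sub]
    abel
  rw [h7]
  exact A₁.sub_mem (A₁.sub_mem h1 h3) (A₁.sum_mem fun γ _ => A₁.sub_mem (h2 γ) (h4 γ))

/-- Sum over a group as a sum over cosets. -/
theorem sum_quot {Γ P A : Type} [Group Γ] [Fintype Γ] [Group P] [Fintype P] [AddCommGroup A]
    (f : P →* Γ) (hf : Function.Injective f) (act : Γ → A →+ A)
    (act_mul : ∀ c c' x, act (c * c') x = act c (act c' x)) :
    ∃ (ι : Type) (_ : Fintype ι) (c : ι → Γ),
      Fintype.card ι * Fintype.card P = Fintype.card Γ ∧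
      ∀ x, ∑ γ, act γ x = ∑ i, act (c i) (∑ π : P, act (f π) x) := by
  classical
  let e : (Γ ⧸ f.range) × P → Γ := fun z => z.1.out * f z.2
  have he : Function.Bijective e := by
    constructor
    · rintro ⟨q, π⟩ ⟨q', π'⟩ h
      have h' : q.out * f π = q'.out * f π' := h
      have h1 : ∀ (q : Γ ⧸ f.range) (π : P), ((q.out * f π : Γ) : Γ ⧸ f.range) = q := by
        intro q π
        have h0 : f π ∈ f.range := ⟨π, rfl⟩
        rw [QuotientGroup.mk_mul_of_mem _ h0]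
        exact QuotientGroup.out_eq' q
      have h2 : q = q' := by rw [← h1 q π, h', h1 q' π']
      subst h2
      have h3 := mul_left_cancel h'
      rw [hf h3]
    · intro γ
      have h1 : (γ : Γ ⧸ f.range) = (((γ : Γ ⧸ f.range).out : Γ) : Γ ⧸ f.range) :=
        (QuotientGroup.out_eq' _).symm
      have h2 := QuotientGroup.eq.1 h1.symm
      obtain ⟨π, hπ⟩ := h2
      refine ⟨(γ, π), ?_⟩
      change _ * f π = γ
      rw [hπ]
      group
  refine ⟨Γ ⧸ f.range, inferInstance, fun q => q.out, ?_, ?_⟩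
  · rw [← Fintype.card_prod]
    exact Fintype.card_of_bijective he
  · intro x
    rw [← Function.Bijective.sum_comp he fun γ => act γ x, Fintype.sum_prod_type]
    refine Finset.sum_congr rfl fun q _ => ?_
    rw [map_sum]
    exact Finset.sum_congr rfl fun π _ => act_mul _ _ _

section

variable {PM PN Γ P : Type} [AddCommGroup PM] [AddCommGroup PN] [Group Γ] [Fintype Γ] [Group P]
  [Fintype P]

/-- norm of a norm -/
theorem tr_norm (f : P →* Γ) (hf : Function.Injective f) (iM : PM →+ PN)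
    (hinj : Function.Injective iM) (act : Γ → PN →+ PN)
    (act_mul : ∀ c c' x, act (c * c') x = act c (act c' x)) (hfix : ∀ γ y, act γ (iM y) = iM y)
    (Tr : PN →+ PM) (hTr : ∀ x, iM (Tr x) = ∑ γ, act γ x) (e : ℕ)
    (he : e * Fintype.card P = Fintype.card Γ) (D : PM) (u : PN)
    (hD : iM D = ∑ π : P, act (f π) u) : (e : ℤ) • D = Tr u := by
  obtain ⟨ι, _, c, hc, h⟩ := sum_quot f hf act act_mul
  have h1 : Fintype.card ι = e := by
    have h2 : 0 < Fintype.card P := Fintype.card_pos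
    exact Nat.eq_of_mul_eq_mul_right h2 (hc.trans he.symm)
  apply hinj
  rw [hTr, h, ← hD, map_zsmul]
  simp only [hfix, Finset.sum_const, Finset.card_univ, h1]
  exact natCast_zsmul _ _

/-- from finite index of the norms of `P` to finite index of the traces -/
theorem fin_tr (f : P →* Γ) (hf : Function.Injective f) (iM : PM →+ PN)
    (hinj : Function.Injective iM) (act : Γ → PN →+ PN)
    (act_mul : ∀ c c' x, act (c * c') x = act c (act c' x)) (hfix : ∀ γ y, act γ (iM y) = iM y)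
    (Tr : PN →+ PM) (hTr : ∀ x, iM (Tr x) = ∑ γ, act γ x)
    (P0N : AddSubgroup PN) (P0M P1M : AddSubgroup PM) (h00 : ∀ y ∈ P0M, iM y ∈ P0N) (e : ℕ)
    (he : e * Fintype.card P = Fintype.card Γ)
    (hdiv : ∀ y ∈ P0M, ∃ y' ∈ P0M, y - (e : ℤ) • y' ∈ P1M)
    (hfin : ∃ F : Finset PN, ∀ w ∈ P0N, (∀ π : P, act (f π) w = w) →
      ∃ c ∈ F, ∃ y ∈ P0N, w = c + ∑ π : P, act (f π) y) :
    ∃ F : Finset PM, ∀ w ∈ P0M, ∃ c ∈ F, ∃ y ∈ P0N, w - (c + Tr y) ∈ P1M := by
  classical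
  obtain ⟨ι, _, c, hc, h⟩ := sum_quot f hf act act_mul
  have h1 : Fintype.card ι = e := by
    have h2 : 0 < Fintype.card P := Fintype.card_pos
    exact Nat.eq_of_mul_eq_mul_right h2 (hc.trans he.symm)
  obtain ⟨F, hF⟩ := hfin
  refine ⟨F.image fun b => if hb : ∃ z, iM z = ∑ i, act (c i) b then hb.choose else 0, ?_⟩
  intro w hw
  obtain ⟨w', hw', h2⟩ := hdiv w hw
  obtain ⟨b, hb, y, hy, h3⟩ := hF (iM w') (h00 _ hw') (fun π => hfix _ _)
  have h4 : iM ((e : ℤ) • w' - Tr y) = ∑ i, act (c i) b := by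
    have h5 : (e : ℤ) • iM w' = ∑ i, act (c i) (iM w') := by
      simp only [hfix, Finset.sum_const, Finset.card_univ, h1]
      exact natCast_zsmul _ _
    rw [map_sub, map_zsmul, h5, hTr, h, ← Finset.sum_sub_distrib]
    refine Finset.sum_congr rfl fun i _ => ?_
    rw [← map_sub, h3, add_sub_cancel_right]
  have hex : ∃ z, iM z = ∑ i, act (c i) b := ⟨_, h4⟩
  refine ⟨hex.choose, Finset.mem_image.2 ⟨b, hb, dif_pos hex⟩, y, hy, ?_⟩
  have h6 : hex.choose = (e : ℤ) • w' - Tr y := hinj (hex.choose_spec.trans h4.symm)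
  rw [h6, sub_add_cancel]
  exact h2

end

end Pool.Agent.Helper50.Tm
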