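import Pool.Agent.Helper50.Tm.Goals2
import Pool.Agent.Helper50.Tm.GrpWild2

/-!
Kernels of reduction of multiplicative type.
-/

open CategoryTheory AlgebraicGeometry Limits TensorProduct MonoidalCategory
open scoped Obj

namespace Pool.Agent.Helper50.Tm

open Pool.Agent.Helper40.Nm (specOver homGroup specialFibre Lat EqHom NT tr)

/-- The group of units of the local ring `R` which are congruent to `1` modulo the maximal
ideal. -/
noncomputable abbrev U1 (R : Type) [CommRing R] [IsLocalRing R] : Subgroup Rˣ :=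
  (Units.map (IsLocalRing.residue R).toMonoidHom).ker

section

variable {S E : Type} [CommRing S] [IsLocalRing S] [Field E] [Algebra S E]
  [FaithfulSMul S E]

/-- one-units of `S` as units of `E` -/
noncomputable def io (S E : Type) [CommRing S] [IsLocalRing S] [Field E] [Algebra S E] :
    U1 S →* Eˣ :=
  (Units.map (algebraMap S E).toMonoidHom).comp (U1 S).subtype

omit [FaithfulSMul S E] in
theorem io_apply (u : U1 S) : ((io S E u : Eˣ) : E) = algebraMap S E ((u : Sˣ) : S) := rfl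

theorem io_injective : Function.Injective (io S E) := by
  intro u v h
  have h1 : algebraMap S E ((u : Sˣ) : S) = algebraMap S E ((v : Sˣ) : S) := by
    rw [← io_apply, ← io_apply, h]
  exact Subtype.ext (Units.ext (FaithfulSMul.algebraMap_injective S E h1))

omit [FaithfulSMul S E] in
theorem mem_U1 (u : Sˣ) : u ∈ U1 S ↔ (u : S) - 1 ∈ IsLocalRing.maximalIdeal S := by
  rw [MonoidHom.mem_ker, Units.ext_iff]
  change IsLocalRing.residue S u = 1 ↔ _
  rw [← IsLocalRing.residue_eq_zero_iff, map_sub, map_one, sub_eq_zero]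

omit [FaithfulSMul S E] in
theorem isU1_io (u : U1 S) : IsU1 S (io S E u) :=
  ⟨((u : Sˣ) : S), (mem_U1 _).1 u.2, rfl⟩

omit [FaithfulSMul S E] in
theorem exists_io (u : Eˣ) (h : IsU1 S u) : ∃ v : U1 S, io S E v = u := by
  obtain ⟨s, hs, h1⟩ := h
  have h2 : IsUnit s := by
    by_contra h3
    have h4 : s ∈ IsLocalRing.maximalIdeal S := (IsLocalRing.mem_maximalIdeal s).2 h3
    have h5 : (1 : S) ∈ IsLocalRing.maximalIdeal S := by
      have := Ideal.sub_mem _ h4 hs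
      rwa [sub_sub_cancel] at this
    exact (Ideal.ne_top_iff_one _).1 (IsLocalRing.maximalIdeal.isMaximal S).ne_top h5
  obtain ⟨v, rfl⟩ := h2
  refine ⟨⟨v, (mem_U1 v).2 hs⟩, ?_⟩
  apply Units.ext
  rw [io_apply, h1]

/-- one-unit valued homomorphisms come from homomorphisms to the one-units -/
theorem exists_comp {L : Type} [Group L] (f : L →* Eˣ) (hf : ∀ x, IsU1 S (f x)) :
    ∃ f' : L →* U1 S, (io S E).comp f' = f := by
  choose v hv using fun x => exists_io (f x) (hf x)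
  refine ⟨⟨⟨v, ?_⟩, ?_⟩, ?_⟩
  · apply io_injective (E := E)
    rw [hv, map_one, map_one]
  · intro x y
    apply io_injective (E := E)
    change io S E (v (x * y)) = io S E (v x * v y)
    rw [hv, map_mul, map_mul, hv, hv]
  · ext1 x
    exact hv x

theorem comp_injective {L : Type} [Group L] (f f' : L →* U1 S)
    (h : (io S E).comp f = (io S E).comp f') : f = f' := by
  ext1 x
  exact io_injective (DFunLike.congr_fun h x)

end

section

variable {K N1 N S : Type} [Field K] [Field N1] [Field N] [Algebra K N1] [Algebra K N]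
  [Algebra N1 N] [IsScalarTower K N1 N] [FiniteDimensional N1 N] [IsGalois N1 N]
  [CommRing S] [IsLocalRing S] [Algebra S N] [FaithfulSMul S N]
  {X : Over (Spec (CommRingCat.of K))} [GrpObj X] [IsCommMonObj X] {g : ℕ}

/-- `φ` is equivariant. -/
def IsEqv (act : (N ≃ₐ[N1] N) →* AddMonoid.End (Lat g))
    (φ : (Multiplicative (Lat g) →* U1 S) →* Pts X N) : Prop :=
  ∀ (γ : N ≃ₐ[N1] N) (f f' : Multiplicative (Lat g) →* U1 S),
    (∀ x : Lat g, algebraMap S N ((f' (Multiplicative.ofAdd x) : Sˣ) : S) =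
      γ (algebraMap S N ((f (Multiplicative.ofAdd (act γ⁻¹ x)) : Sˣ) : S))) →
    φ f' = (φ f).map ((γ : N →ₐ[N1] N).restrictScalars K)

variable (act : (N ≃ₐ[N1] N) →* AddMonoid.End (Lat g))
    (φ : (Multiplicative (Lat g) →* U1 S) →* Pts X N)

/-- automorphisms preserve one-units -/
theorem isU1_smul (hgal : ∀ γ : N ≃ₐ[N1] N, ∃ τ : S ≃+* S,
    ∀ s, algebraMap S N (τ s) = γ (algebraMap S N s)) (γ : N ≃ₐ[N1] N) (u : Nˣ)
    (hu : IsU1 S u) : IsU1 S (γ • u) := by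
  obtain ⟨τ, hτ⟩ := hgal γ
  obtain ⟨s, hs, h⟩ := hu
  refine ⟨τ s, ?_, ?_⟩
  · have h1 : τ s - 1 = τ (s - 1) := by rw [map_sub, map_one]
    rw [h1, IsLocalRing.mem_maximalIdeal, mem_nonunits_iff]
    intro h2
    exact (IsLocalRing.mem_maximalIdeal _).1 hs ((MulEquiv.isUnit_map τ).1 h2)
  · rw [hτ, ← h]
    rfl

/-- translates -/
theorem exists_tr (hgal : ∀ γ : N ≃ₐ[N1] N, ∃ τ : S ≃+* S,
    ∀ s, algebraMap S N (τ s) = γ (algebraMap S N s)) (hφ : IsEqv act φ)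
    (γ : N ≃ₐ[N1] N) (f : Multiplicative (Lat g) →* U1 S) :
    ∃ f' : Multiplicative (Lat g) →* U1 S,
      (io S N).comp f' = tr act γ ((io S N).comp f) ∧
      φ f' = (φ f).map ((γ : N →ₐ[N1] N).restrictScalars K) := by
  obtain ⟨f', hf'⟩ := exists_comp (S := S) (tr act γ ((io S N).comp f)) (fun x =>
    isU1_smul hgal γ _ (isU1_io _))
  refine ⟨f', hf', hφ γ f f' fun x => ?_⟩
  have h1 := congrArg (fun z : Nˣ => (z : N)) (DFunLike.congr_fun hf' (Multiplicative.ofAdd x))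
  exact h1

/-- norms -/
theorem exists_NT (hgal : ∀ γ : N ≃ₐ[N1] N, ∃ τ : S ≃+* S,
    ∀ s, algebraMap S N (τ s) = γ (algebraMap S N s)) (hφ : IsEqv act φ)
    (f : Multiplicative (Lat g) →* U1 S) :
    ∃ f' : Multiplicative (Lat g) →* U1 S,
      (io S N).comp f' = NT act ((io S N).comp f) ∧
      φ f' = ∏ γ : N ≃ₐ[N1] N, (φ f).map ((γ : N →ₐ[N1] N).restrictScalars K) := by
  choose F hF1 hF2 using fun γ => exists_tr act φ hgal hφ γ f
  refine ⟨∏ γ, F γ, ?_, ?_⟩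
  · unfold NT
    rw [← Finset.prod_congr rfl fun γ _ => hF1 γ]
    refine MonoidHom.ext fun x => ?_
    simp only [MonoidHom.comp_apply, MonoidHom.finsetProd_apply, map_prod]
  · rw [map_prod]
    exact Finset.prod_congr rfl fun γ _ => hF2 γ

end

section

variable {K N1 N R1 S : Type} [Field K] [Field N1] [Field N] [Algebra K N1] [Algebra K N]
  [Algebra N1 N] [IsScalarTower K N1 N] [FiniteDimensional N1 N] [IsGalois N1 N]
  [CommRing S] [IsDomain S] [IsDiscreteValuationRing S] [Algebra S N] [FaithfulSMul S N]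
  [CommRing R1] [IsDomain R1] [IsDiscreteValuationRing R1]
  [IsAdicComplete (IsLocalRing.maximalIdeal R1) R1] [IsAlgClosed (IsLocalRing.ResidueField R1)]
  [Algebra R1 N1] [IsFractionRing R1 N1] [Algebra R1 N] [IsScalarTower R1 N1 N]
  [Algebra R1 S] [IsScalarTower R1 S N] [IsIntegralClosure S R1 N]
  {X : Over (Spec (CommRingCat.of K))} [GrpObj X] [IsCommMonObj X] {g : ℕ}
  (act : (N ≃ₐ[N1] N) →* AddMonoid.End (Lat g))
  (φ : (Multiplicative (Lat g) →* U1 S) →* Pts X N)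

/-- `ARI2` for the points -/
theorem ari2_pts (hA : ARI2) (hgal : ∀ γ : N ≃ₐ[N1] N, ∃ τ : S ≃+* S,
    ∀ s, algebraMap S N (τ s) = γ (algebraMap S N s)) (hφ : IsEqv act φ) (a : ℕ)
    (ha : Module.finrank N1 N = ringExpChar (IsLocalRing.ResidueField R1) ^ a) :
    ∃ F : Finset (Pts X N), ∀ f : Multiplicative (Lat g) →* U1 S,
      (io S N).comp f ∈ EqHom act Nˣ → ∃ c ∈ F, ∃ f' : Multiplicative (Lat g) →* U1 S,
        φ f = c * ∏ γ : N ≃ₐ[N1] N, Pts.map ((γ : N →ₐ[N1] N).restrictScalars K) (φ f') := by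
  classical
  obtain ⟨F, hF1, hF2⟩ := hA R1 N1 S N g act a ha
  choose c hc using fun z : F => exists_comp (S := S) z.1 (hF1 z.1 z.2).2
  refine ⟨F.attach.image fun z => φ (c z), ?_⟩
  intro f hf
  obtain ⟨z, hz, y, hy, h1⟩ := hF2 _ hf (fun x => isU1_io _)
  obtain ⟨y', hy'⟩ := exists_comp (S := S) y hy
  obtain ⟨n, hn1, hn2⟩ := exists_NT act φ hgal hφ y'
  refine ⟨_, Finset.mem_image.2 ⟨⟨z, hz⟩, Finset.mem_attach _ _, rfl⟩, y', ?_⟩
  rw [← hn2, ← map_mul]
  congr 1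
  apply comp_injective (E := N)
  rw [h1, ← hy', ← hn1]
  have h5 : (io S N).comp (c ⟨z, hz⟩) = z := hc ⟨z, hz⟩
  refine MonoidHom.ext fun x => ?_
  have h6 := DFunLike.congr_fun h5 x
  rw [MonoidHom.mul_apply, ← h6]
  exact (map_mul (io S N) _ _).symm

/-- `ARI1` for the points -/
theorem ari1_pts (hA : ARI1) (hgal : ∀ γ : N ≃ₐ[N1] N, ∃ τ : S ≃+* S,
    ∀ s, algebraMap S N (τ s) = γ (algebraMap S N s)) (hφ : IsEqv act φ) (a : ℕ)
    (ha : Module.finrank N1 N = ringExpChar (IsLocalRing.ResidueField R1) ^ a)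
    (h : N ≃+* N) (τ : S ≃+* S) (hτ : ∀ s, h (algebraMap S N s) = algebraMap S N (τ s))
    (hcomm : ∀ (γ : N ≃ₐ[N1] N) (e : N), h (γ e) = γ (h e))
    (α : Pts X N → Pts X N)
    (hα : ∀ f f' : Multiplicative (Lat g) →* U1 S,
      (∀ x : Lat g, algebraMap S N ((f' (Multiplicative.ofAdd x) : Sˣ) : S) =
        h (algebraMap S N ((f (Multiplicative.ofAdd x) : Sˣ) : S))) →
      φ f' = α (φ f)) (f : Multiplicative (Lat g) →* U1 S)
    (hf : (io S N).comp f ∈ EqHom act Nˣ) :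
    ∃ f' : Multiplicative (Lat g) →* U1 S,
      α (φ f) = φ f * ∏ γ : N ≃ₐ[N1] N, Pts.map ((γ : N →ₐ[N1] N).restrictScalars K) (φ f') := by
  obtain ⟨y, hy, h1⟩ := hA R1 N1 S N g act a ha h τ hτ hcomm _ hf (fun x => isU1_io _)
  obtain ⟨y', hy'⟩ := exists_comp (S := S) y hy
  obtain ⟨n, hn1, hn2⟩ := exists_NT act φ hgal hφ y'
  refine ⟨y', ?_⟩
  rw [← hn2, ← map_mul]
  refine (hα f (f * n) fun x => ?_).symm
  have h2 := h1 (Multiplicative.ofAdd x)
  rw [← hy', ← hn1] at h2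
  have h3 := congrArg (fun z : Nˣ => (z : N)) h2
  have h4 : algebraMap S N (((f * n) (Multiplicative.ofAdd x) : Sˣ) : S) =
      algebraMap S N ((f (Multiplicative.ofAdd x) : Sˣ) : S) *
        algebraMap S N ((n (Multiplicative.ofAdd x) : Sˣ) : S) := by
    rw [← map_mul]
    rfl
  rw [h4]
  exact h3.symm

end

/-! ### Group theory -/

/-- finite torsion -/
theorem fin_tors {A : Type} [AddCommGroup A] (A₀ A₁ : AddSubgroup A) (q : ℕ)
    (ht : ∃ T : Finset A, ∀ a ∈ A₀, (q : ℤ) • a ∈ A₁ → ∃ t ∈ T, a - t ∈ A₁) (i : ℕ) :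
    ∃ T : Finset A, ∀ a ∈ A₀, ((q ^ i : ℕ) : ℤ) • a ∈ A₁ → ∃ t ∈ T, a - t ∈ A₁ := by
  classical
  induction i with
  | zero =>
    refine ⟨{0}, fun a _ h => ⟨0, Finset.mem_singleton_self _, ?_⟩⟩
    rw [pow_zero, Nat.cast_one, one_smul] at h
    rwa [sub_zero]
  | succ i ih =>
    obtain ⟨T, hT⟩ := ht
    obtain ⟨T', hT'⟩ := ih
    let Q : A → A → Prop := fun t b => b ∈ A₀ ∧ (q : ℤ) • b - t ∈ A₁
    let c : A → A := fun t => if h : ∃ b, Q t b then h.choose else 0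
    refine ⟨(T' ×ˢ T).image fun z => c z.1 + z.2, ?_⟩
    intro a ha h
    have h1 : ((q ^ i : ℕ) : ℤ) • ((q : ℤ) • a) ∈ A₁ := by
      rw [← mul_smul, ← Nat.cast_mul, ← pow_succ]
      exact h
    obtain ⟨t, ht, h2⟩ := hT' _ (A₀.zsmul_mem ha _) h1
    have hex : ∃ b, Q t b := ⟨a, ha, h2⟩
    have hc : Q t (c t) := by
      simp only [c, dif_pos hex]
      exact hex.choose_spec
    have h3 : (q : ℤ) • (a - c t) ∈ A₁ := by
      have : (q : ℤ) • (a - c t) = ((q : ℤ) • a - t) - ((q : ℤ) • c t - t) := by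
        rw [smul_sub]
        abel
      rw [this]
      exact A₁.sub_mem h2 hc.2
    obtain ⟨t', ht', h4⟩ := hT _ (A₀.sub_mem ha hc.1) h3
    refine ⟨c t + t', Finset.mem_image.2 ⟨(t, t'), Finset.mem_product.2 ⟨ht, ht'⟩, rfl⟩, ?_⟩
    rw [← sub_sub]
    exact h4

/-- norms have finite index in the invariants of `A₀` -/
theorem fin_inv (hFE : FEXT) {G A : Type} [Group G] [Fintype G] [AddCommGroup A]
    (act : G → A →+ A) (act_one : ∀ x, act 1 x = x)
    (act_mul : ∀ c c' x, act (c * c') x = act c (act c' x))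
    (A₀ A₁ : AddSubgroup A) (h10 : A₁ ≤ A₀) (hs0 : ∀ γ, ∀ a ∈ A₀, act γ a ∈ A₀)
    (hs1 : ∀ γ, ∀ a ∈ A₁, act γ a ∈ A₁)
    (hd : ∀ a ∈ A₀, ∃ b ∈ A₀, a - ((Fintype.card G : ℕ) : ℤ) • b ∈ A₁)
    (ht : ∃ T : Finset A, ∀ a ∈ A₀, ((Fintype.card G : ℕ) : ℤ) • a ∈ A₁ → ∃ t ∈ T, a - t ∈ A₁)
    (h1 : ∃ F : Finset A, ∀ w ∈ A₁, (∀ γ, act γ w = w) →
      ∃ c ∈ F, ∃ y ∈ A₁, w = c + ∑ γ, act γ y) :
    ∃ F : Finset A, ∀ w ∈ A₀, (∀ γ, act γ w = w) →
      ∃ c ∈ F, ∃ y ∈ A₀, w = c + ∑ γ, act γ y := by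
  let _ : DistribMulAction G A :=
    { smul := fun γ a => act γ a
      one_smul := act_one
      mul_smul := act_mul
      smul_zero := fun γ => map_zero (act γ)
      smul_add := fun γ => map_add (act γ) }
  simp only [natCast_zsmul] at hd ht
  obtain ⟨F, -, hF⟩ := hFE G A A₀ A₁ h10 hs0 hs1 (fone' A₀ A₁ hs1 hs0 hd ht) h1
  exact ⟨F, hF⟩

end Pool.Agent.Helper50.Tm
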